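import Mathlib

/-!
# Number of distinct eigenvalues and Hankel determinants of traces
-/

set_option autoImplicit false
set_option linter.unusedSectionVars false

open Polynomial Matrix

namespace Pool.Agent.Y138.ZO

section Hankel

variable {n : Type*} [Fintype n] [DecidableEq n]

/-- the Hankel matrix of traces of powers -/
def hankel {R : Type*} [CommRing R] (k : ℕ) (M : Matrix n n R) : Matrix (Fin k) (Fin k) R :=
  Matrix.of fun i j => (M ^ ((i : ℕ) + (j : ℕ))).trace

theorem hankel_map {R S : Type*} [CommRing R] [CommRing S] (f : R →+* S) (k : ℕ)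
    (M : Matrix n n R) : (hankel k M).map f = hankel k (M.map f) := by
  ext i j
  simp only [hankel, Matrix.map_apply, Matrix.of_apply]
  rw [← RingHom.mapMatrix_apply, ← map_pow]
  rw [RingHom.mapMatrix_apply]
  simp only [Matrix.trace, Matrix.diag_apply, Matrix.map_apply, map_sum]

variable {K : Type*} [Field K]

/-- some monic polynomial of degree `k` takes a nilpotent value on `M` -/
def NilDeg (k : ℕ) (M : Matrix n n K) : Prop :=
  ∃ q : K[X], q.Monic ∧ q.natDegree = k ∧ IsNilpotent (aeval M q)

theorem nilp_mul (M : Matrix n n K) (f g : K[X]) (h : IsNilpotent (aeval M f)) :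
    IsNilpotent (aeval M (f * g)) := by
  rw [map_mul]
  refine Commute.isNilpotent_mul_right ?_ h
  rw [Commute, SemiconjBy, ← map_mul, ← map_mul, mul_comm]

theorem nilp_add (M : Matrix n n K) (f g : K[X]) (h : IsNilpotent (aeval M f))
    (h' : IsNilpotent (aeval M g)) : IsNilpotent (aeval M (f + g)) := by
  rw [map_add]
  refine Commute.isNilpotent_add ?_ h h'
  rw [Commute, SemiconjBy, ← map_mul, ← map_mul, mul_comm]

theorem tr_zero {M : Matrix n n K} (h : IsNilpotent M) : M.trace = 0 :=
  (Matrix.isNilpotent_trace_of_isNilpotent h).eq_zero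

theorem NilDeg.succ {k : ℕ} {M : Matrix n n K} (h : NilDeg k M) : NilDeg (k + 1) M := by
  obtain ⟨q, hq, hk, hn⟩ := h
  refine ⟨q * X, hq.mul monic_X, ?_, nilp_mul M q X hn⟩
  rw [hq.natDegree_mul monic_X, hk, natDegree_X]

theorem NilDeg.mono {j k : ℕ} {M : Matrix n n K} (h : NilDeg j M) (hjk : j ≤ k) : NilDeg k M := by
  induction hjk with
  | refl => exact h
  | step _ ih => exact ih.succ

theorem nilDeg_card (M : Matrix n n K) : NilDeg (Fintype.card n) M :=
  ⟨M.charpoly, M.charpoly_monic, M.charpoly_natDegree_eq_dim, by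
    rw [Matrix.aeval_self_charpoly]; exact IsNilpotent.zero⟩

theorem nilDeg_of_ne_zero {M : Matrix n n K} {b : K[X]} (hb : b ≠ 0)
    (h : IsNilpotent (aeval M b)) : NilDeg b.natDegree M := by
  refine ⟨b * C b.leadingCoeff⁻¹, monic_mul_leadingCoeff_inv hb, ?_, nilp_mul M b _ h⟩
  exact natDegree_mul_leadingCoeff_inv b hb

theorem det_hankel_eq_zero {k : ℕ} {M : Matrix n n K} (h : NilDeg k M) :
    (hankel (k + 1) M).det = 0 := by
  obtain ⟨q, hq, hk, hn⟩ := h
  rw [← Matrix.exists_mulVec_eq_zero_iff]
  refine ⟨fun i => q.coeff i, ?_, ?_⟩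
  · intro h0
    have h1 := congrFun h0 (Fin.last k)
    simp only [Fin.val_last, Pi.zero_apply] at h1
    rw [← hk, coeff_natDegree, hq.leadingCoeff] at h1
    exact one_ne_zero h1
  · ext i
    simp only [Matrix.mulVec, dotProduct, hankel, Matrix.of_apply, Pi.zero_apply]
    have h1 := tr_zero (nilp_mul M q (X ^ (i : ℕ)) hn)
    rw [mul_comm, map_mul, map_pow, aeval_X, aeval_eq_sum_range, hk, Finset.mul_sum,
      Matrix.trace_sum] at h1
    rw [Fin.sum_univ_eq_sum_range (fun j => (M ^ ((i : ℕ) + j)).trace * q.coeff j) (k + 1), ← h1]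
    refine Finset.sum_congr rfl fun j _ => ?_
    rw [mul_smul_comm, Matrix.trace_smul, ← pow_add, smul_eq_mul, mul_comm]

theorem isNilpotent_of_trace [CharZero K] (B : Matrix n n K)
    (h : ∀ g : K[X], (B * aeval B g).trace = 0) : IsNilpotent B := by
  have hP : B.charpoly ≠ 0 := B.charpoly_monic.ne_zero
  obtain ⟨g, hg, hX⟩ := exists_eq_pow_rootMultiplicity_mul_and_not_dvd B.charpoly hP 0
  set m := rootMultiplicity 0 B.charpoly
  rw [C_0, sub_zero] at hg hX
  have hco : IsCoprime (X ^ (m + 1) : K[X]) g := by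
    apply IsCoprime.pow_left
    exact (irreducible_X.coprime_iff_not_dvd).2 hX
  obtain ⟨a, c, hac⟩ := hco
  have hCH : aeval B (X ^ m * g) = 0 := by
    rw [← hg]
    exact Matrix.aeval_self_charpoly B
  set e := aeval B (a * X ^ (m + 1)) with he
  have hidem : e * e = e := by
    have h1 : e * aeval B (c * g) = 0 := by
      rw [he, ← map_mul]
      have : a * X ^ (m + 1) * (c * g) = (a * X * c) * (X ^ m * g) := by ring
      rw [this, map_mul, hCH, mul_zero]
    have h2 : e + aeval B (c * g) = 1 := by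
      rw [he, ← map_add, hac, map_one]
    calc e * e = e * (e + aeval B (c * g)) - e * aeval B (c * g) := by rw [mul_add]; abel
      _ = e := by rw [h2, h1, mul_one, sub_zero]
  have htr : e.trace = 0 := by
    have : e = B * aeval B (a * X ^ m) := by
      have h2 : a * X ^ (m + 1) = X * (a * X ^ m) := by ring
      rw [he, h2, map_mul, aeval_X]
    rw [this]
    exact h _
  have he0 : e = 0 := by
    have h3 : IsIdempotentElem (Matrix.toLin' e) := by
      unfold IsIdempotentElem
      rw [Module.End.mul_eq_comp, ← Matrix.toLin'_mul, hidem]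
    have h4 : LinearMap.trace K (n → K) (Matrix.toLin' e) = 0 := by
      rw [Matrix.trace_toLin'_eq, htr]
    have h5 := (LinearMap.IsIdempotentElem.trace_eq_zero_iff h3).1 h4
    exact (map_eq_zero_iff _ (Matrix.toLin' (R := K) (m := n) (n := n)).injective).1 h5
  refine ⟨m, ?_⟩
  have h6 : aeval B (c * g) = 1 := by
    have h2 : e + aeval B (c * g) = 1 := by
      rw [he, ← map_add, hac, map_one]
    rwa [he0, zero_add] at h2
  calc B ^ m = B ^ m * aeval B (c * g) := by rw [h6, mul_one]
    _ = aeval B (c * (X ^ m * g)) := by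
        rw [map_mul, map_mul, map_mul, map_pow, aeval_X]
        have hcm : Commute (B ^ m) (aeval B c) := by
          rw [Commute, SemiconjBy]
          have : (B ^ m : Matrix n n K) = aeval B (X ^ m : K[X]) := by rw [map_pow, aeval_X]
          rw [this, ← map_mul, ← map_mul, mul_comm]
        rw [← mul_assoc, hcm.eq, mul_assoc]
    _ = 0 := by rw [map_mul, hCH, mul_zero]

theorem det_hankel_ne_zero [CharZero K] {k : ℕ} {M : Matrix n n K} (h : NilDeg k M)
    (h' : ∀ j < k, ¬ NilDeg j M) : (hankel k M).det ≠ 0 := by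
  intro hdet
  obtain ⟨q, hq, hk, hn⟩ := h
  obtain ⟨v, hv, hv0⟩ := Matrix.exists_mulVec_eq_zero_iff.2 hdet
  set b : K[X] := ∑ j : Fin k, C (v j) * X ^ (j : ℕ) with hb
  have hbc : ∀ j : Fin k, b.coeff j = v j := by
    intro j
    rw [hb, finsetSum_coeff]
    simp only [coeff_C_mul, coeff_X_pow]
    rw [Finset.sum_eq_single j]
    · simp
    · intro i _ hij
      rw [if_neg, mul_zero]
      intro h
      exact hij (Fin.ext h.symm)
    · intro hj
      exact absurd (Finset.mem_univ j) hj
  have hb0 : b ≠ 0 := by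
    intro h0
    apply hv
    ext j
    rw [← hbc j, h0, coeff_zero, Pi.zero_apply]
  have hbd : b.natDegree < k := by
    rw [natDegree_lt_iff_degree_lt hb0]
    rw [degree_lt_iff_coeff_zero]
    intro m hm
    rw [hb, finsetSum_coeff]
    refine Finset.sum_eq_zero fun j _ => ?_
    rw [coeff_C_mul, coeff_X_pow, if_neg (by have := j.2; omega), mul_zero]
  have h1 : ∀ i < k, (aeval M (b * X ^ i)).trace = 0 := by
    intro i hi
    have h2 := congrFun hv0 ⟨i, hi⟩
    simp only [Matrix.mulVec, dotProduct, hankel, Matrix.of_apply, Pi.zero_apply] at h2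
    rw [← h2, hb, Finset.sum_mul, map_sum, Matrix.trace_sum]
    refine Finset.sum_congr rfl fun j _ => ?_
    have h3 : C (v j) * X ^ (j : ℕ) * X ^ i = C (v j) * X ^ (i + (j : ℕ)) := by
      rw [pow_add]; ring
    rw [h3, ← smul_eq_C_mul, map_smul, map_pow, aeval_X, Matrix.trace_smul, smul_eq_mul, mul_comm]
  have h2 : ∀ g : K[X], (aeval M (b * g)).trace = 0 := by
    intro g
    have h3 : b * g = b * (g %ₘ q) + q * (b * (g /ₘ q)) := by
      conv_lhs => rw [← modByMonic_add_div g q]
      ring
    rw [h3, map_add, Matrix.trace_add, tr_zero (nilp_mul M q _ hn), add_zero]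
    have h4 : (g %ₘ q).natDegree < k ∨ g %ₘ q = 0 := by
      by_cases h5 : g %ₘ q = 0
      · exact Or.inr h5
      · left
        rw [natDegree_lt_iff_degree_lt h5, ← hk, ← degree_eq_natDegree hq.ne_zero]
        exact degree_modByMonic_lt g hq
    rcases h4 with h4 | h4
    · rw [(g %ₘ q).as_sum_range_C_mul_X_pow, Finset.mul_sum, map_sum, Matrix.trace_sum]
      refine Finset.sum_eq_zero fun i hi => ?_
      have h5 : b * (C ((g %ₘ q).coeff i) * X ^ i) = C ((g %ₘ q).coeff i) * (b * X ^ i) := by ring
      rw [h5, ← smul_eq_C_mul, map_smul, Matrix.trace_smul,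
        h1 i (by have := Finset.mem_range.1 hi; omega), smul_zero]
    · rw [h4, mul_zero, map_zero, Matrix.trace_zero]
  have h3 : IsNilpotent (aeval M b) := by
    apply isNilpotent_of_trace
    intro g
    have : aeval (aeval M b) g = aeval M (g.comp b) := (aeval_comp M).symm
    rw [this, ← map_mul]
    exact h2 _
  exact h' _ hbd (nilDeg_of_ne_zero hb0 h3)

end Hankel

end Pool.Agent.Y138.ZO
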