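import Pool.Agent.Y138.ZO.Log2
import Pool.Agent.Y138.ZO.Gen

/-!
# Constant number of eigenvalues: orthogonality of nilpotents and logarithms
-/

set_option autoImplicit false
set_option linter.unusedSectionVars false

open Polynomial Matrix Filter Topology

namespace Pool.Agent.Y138.ZO

variable {p : ℕ} [hp : Fact p.Prime] {n : Type*} [Fintype n] [DecidableEq n]

/-- the derivative of the trace of a power -/
theorem pow_deriv {M u X : Matrix n n ℚ_[p]} (hu : IsLog p u X) (m : ℕ) :
    ∃ L : Matrix n n ℚ_[p],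
      Tendsto (fun k : ℕ => ((p : ℚ_[p]) ^ k)⁻¹ • ((M * u ^ p ^ k) ^ m - M ^ m)) atTop (𝓝 L) ∧
      ∀ a : ℕ, (L * M ^ a).trace = m * (M ^ (m + a) * X).trace := by
  induction m with
  | zero =>
    refine ⟨0, ?_, ?_⟩
    · simp only [pow_zero, sub_self, smul_zero]
      exact tendsto_const_nhds
    · intro a
      simp
  | succ m ih =>
    obtain ⟨L, hL, htr⟩ := ih
    have h1 : Tendsto (fun k : ℕ => M * u ^ p ^ k) atTop (𝓝 (M * 1)) :=
      (hu.tendsto_one).const_mul M
    have h2 : Tendsto (fun k : ℕ => (((p : ℚ_[p]) ^ k)⁻¹ • ((M * u ^ p ^ k) ^ m - M ^ m)) *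
        (M * u ^ p ^ k) + M ^ m * (M * (((p : ℚ_[p]) ^ k)⁻¹ • (u ^ p ^ k - 1)))) atTop
        (𝓝 (L * (M * 1) + M ^ m * (M * X))) :=
      (hL.mul h1).add ((Filter.Tendsto.const_mul M hu).const_mul (M ^ m))
    refine ⟨L * (M * 1) + M ^ m * (M * X), h2.congr fun k => ?_, ?_⟩
    · rw [mul_smul_comm, mul_smul_comm, smul_mul_assoc, ← smul_add]
      congr 1
      rw [pow_succ, pow_succ]
      noncomm_ring
    · intro a
      rw [mul_one, add_mul, Matrix.trace_add, mul_assoc, ← pow_succ', htr (a + 1)]
      have h3 : (M ^ m * (M * X) * M ^ a).trace = (M ^ (m + 1 + a) * X).trace := by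
        rw [Matrix.trace_mul_comm, ← mul_assoc, ← mul_assoc, ← pow_add, ← pow_succ]
        congr 3
        ring
      rw [h3]
      have h4 : m + (a + 1) = m + 1 + a := by ring
      rw [h4]
      push_cast
      ring

/-- the derivative of the trace of a polynomial -/
theorem poly_deriv {M u X : Matrix n n ℚ_[p]} (hu : IsLog p u X) (f : ℚ_[p][X]) :
    Tendsto (fun k : ℕ => ((p : ℚ_[p]) ^ k)⁻¹ *
      ((aeval (M * u ^ p ^ k) f).trace - (aeval M f).trace)) atTop
      (𝓝 ((aeval M (derivative f * Polynomial.X) * X).trace)) := by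
  induction f using Polynomial.induction_on' with
  | add f g hf hg =>
    have h := hf.add hg
    have h1 : (aeval M (derivative (f + g) * Polynomial.X) * X).trace =
        (aeval M (derivative f * Polynomial.X) * X).trace +
        (aeval M (derivative g * Polynomial.X) * X).trace := by
      rw [derivative_add, add_mul, map_add, add_mul, Matrix.trace_add]
    rw [h1]
    refine h.congr fun k => ?_
    rw [map_add, map_add, Matrix.trace_add, Matrix.trace_add]
    ring
  | monomial m c =>
    obtain ⟨L, hL, htr⟩ := pow_deriv (M := M) hu m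
    have h0 := htr 0
    rw [pow_zero, mul_one, add_zero] at h0
    have h1 : (aeval M (derivative (monomial m c) * Polynomial.X) * X).trace = c * L.trace := by
      rw [h0, derivative_monomial]
      rcases Nat.eq_zero_or_pos m with hm | hm
      · subst hm
        simp
      · have : (monomial (m - 1) (c * (m : ℚ_[p])) * Polynomial.X : ℚ_[p][X]) =
            monomial m (c * m) := by
          rw [← monomial_one_one_eq_X, monomial_mul_monomial, mul_one, Nat.sub_add_cancel hm]
        rw [this, aeval_monomial, ← Algebra.smul_def, smul_mul_assoc, Matrix.trace_smul,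
          smul_eq_mul]
        ring
    rw [h1]
    have h2 : Tendsto (fun k : ℕ => c * (((p : ℚ_[p]) ^ k)⁻¹ •
        ((M * u ^ p ^ k) ^ m - M ^ m)).trace) atTop (𝓝 (c * L.trace)) := by
      apply Filter.Tendsto.const_mul
      exact ((continuous_id.matrix_trace).tendsto L).comp hL
    refine h2.congr fun k => ?_
    rw [Matrix.trace_smul, Matrix.trace_sub, aeval_monomial, aeval_monomial, ← Algebra.smul_def,
      ← Algebra.smul_def, Matrix.trace_smul, Matrix.trace_smul, smul_eq_mul, smul_eq_mul,
      smul_eq_mul]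
    ring

/-- the lower coefficients of the radical polynomial, from the traces of powers -/
noncomputable def cvec (k : ℕ) (W : Matrix n n ℚ_[p]) : Fin k → ℚ_[p] := fun l =>
  (hankel k W).det⁻¹ * ((hankel k W).adjugate *ᵥ fun i => -(W ^ ((i : ℕ) + k)).trace) l

theorem cvec_spec {k : ℕ} {W : Matrix n n ℚ_[p]} {q : ℚ_[p][X]} (hq : q.Monic)
    (hk : q.natDegree = k) (hn : IsNilpotent (aeval W q)) (hdet : (hankel k W).det ≠ 0)
    (l : Fin k) : q.coeff l = cvec k W l := by
  have h1 : hankel k W *ᵥ (fun l : Fin k => q.coeff l) =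
      fun i : Fin k => -(W ^ ((i : ℕ) + k)).trace := by
    ext i
    simp only [Matrix.mulVec, dotProduct, hankel, Matrix.of_apply]
    have h1 := tr_zero (nilp_mul W q (X ^ (i : ℕ)) hn)
    rw [mul_comm, map_mul, map_pow, aeval_X, aeval_eq_sum_range, hk, Finset.mul_sum,
      Matrix.trace_sum, Finset.sum_range_succ] at h1
    have hlc : q.coeff k = 1 := by rw [← hk, coeff_natDegree, hq.leadingCoeff]
    rw [hlc, one_smul, ← pow_add] at h1
    rw [Fin.sum_univ_eq_sum_range (fun j => (W ^ ((i : ℕ) + j)).trace * q.coeff j) k]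
    rw [eq_neg_iff_add_eq_zero, ← h1]
    congr 1
    refine Finset.sum_congr rfl fun j _ => ?_
    rw [mul_smul_comm, Matrix.trace_smul, ← pow_add, smul_eq_mul, mul_comm]
  unfold cvec
  rw [← h1, Matrix.mulVec_mulVec, Matrix.adjugate_mul, Matrix.smul_mulVec, Matrix.one_mulVec,
    Pi.smul_apply, smul_eq_mul, ← mul_assoc, inv_mul_cancel₀ hdet, one_mul]

theorem continuous_hankel (k : ℕ) :
    Continuous fun W : Matrix n n ℚ_[p] => hankel k W := by
  unfold hankel
  apply continuous_matrix
  intro i j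
  simp only [Matrix.of_apply]
  exact (continuous_id.pow _).matrix_trace

theorem cvec_tendsto {k : ℕ} {M : Matrix n n ℚ_[p]} (hdet : (hankel k M).det ≠ 0)
    {W : ℕ → Matrix n n ℚ_[p]} (hW : Tendsto W atTop (𝓝 M)) (l : Fin k) :
    Tendsto (fun j => cvec k (W j) l) atTop (𝓝 (cvec k M l)) := by
  have h1 : ContinuousAt (fun W : Matrix n n ℚ_[p] => cvec k W l) M := by
    unfold cvec
    apply ContinuousAt.mul
    · exact ContinuousAt.inv₀ (continuous_hankel k).matrix_det.continuousAt hdet
    · apply Continuous.continuousAt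
      have h2 : Continuous fun W : Matrix n n ℚ_[p] => (hankel k W).adjugate *ᵥ
          fun i : Fin k => -(W ^ ((i : ℕ) + k)).trace := by
        apply Continuous.matrix_mulVec (continuous_hankel k).matrix_adjugate
        exact continuous_pi fun i => ((continuous_id.pow _).matrix_trace).neg
      exact (continuous_apply l).comp h2
  exact h1.tendsto.comp hW

theorem trace_sq_deriv {k : ℕ} {M u X : Matrix n n ℚ_[p]} (hu : IsLog p u X)
    (hall : ∀ j : ℕ, NilDeg k (M * u ^ p ^ j)) (hdet : (hankel k M).det ≠ 0)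
    {μ : ℚ_[p][X]} (hμ : μ.Monic) (hμk : μ.natDegree = k) (hμn : IsNilpotent (aeval M μ))
    (g : ℚ_[p][X]) :
    (aeval M (derivative (μ * (μ * g)) * Polynomial.X) * X).trace = 0 := by
  have hWt : Tendsto (fun j : ℕ => M * u ^ p ^ j) atTop (𝓝 M) := by
    have := (hu.tendsto_one).const_mul M
    rwa [mul_one] at this
  have hcv := fun l : Fin k => cvec_tendsto hdet hWt l
  have hlim : Tendsto (fun j : ℕ => ∑ l : Fin k, cvec k (M * u ^ p ^ j) l *
      (((p : ℚ_[p]) ^ j)⁻¹ * ((aeval (M * u ^ p ^ j) (Polynomial.X ^ (l : ℕ) * (μ * g))).trace -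
        (aeval M (Polynomial.X ^ (l : ℕ) * (μ * g))).trace)) +
      (((p : ℚ_[p]) ^ j)⁻¹ * ((aeval (M * u ^ p ^ j) (Polynomial.X ^ k * (μ * g))).trace -
        (aeval M (Polynomial.X ^ k * (μ * g))).trace))) atTop
      (𝓝 (∑ l : Fin k, cvec k M l *
        (aeval M (derivative (Polynomial.X ^ (l : ℕ) * (μ * g)) * Polynomial.X) * X).trace +
        (aeval M (derivative (Polynomial.X ^ k * (μ * g)) * Polynomial.X) * X).trace)) := by
    apply Tendsto.add
    · exact tendsto_finsetSum _ fun l _ => (hcv l).mul (poly_deriv hu _)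
    · exact poly_deriv hu _
  have hev : ∀ᶠ j : ℕ in atTop, (hankel k (M * u ^ p ^ j)).det ≠ 0 := by
    have h1 : Tendsto (fun j : ℕ => (hankel k (M * u ^ p ^ j)).det) atTop
        (𝓝 (hankel k M).det) :=
      ((continuous_hankel k).matrix_det.tendsto M).comp hWt
    exact h1.eventually_ne hdet
  have hexp : ∀ (q : ℚ_[p][X]), q.Monic → q.natDegree = k → ∀ W : Matrix n n ℚ_[p],
      (aeval W (q * (μ * g))).trace =
      ∑ l : Fin k, q.coeff l * (aeval W (Polynomial.X ^ (l : ℕ) * (μ * g))).trace +
        (aeval W (Polynomial.X ^ k * (μ * g))).trace := by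
    intro q hq hqk W
    have h1 : q = ∑ l : Fin k, C (q.coeff l) * Polynomial.X ^ (l : ℕ) + Polynomial.X ^ k := by
      conv_lhs => rw [q.as_sum_range_C_mul_X_pow, hqk, Finset.sum_range_succ]
      have hlc : q.coeff k = 1 := by rw [← hqk, coeff_natDegree, hq.leadingCoeff]
      rw [hlc, C_1, one_mul,
        Fin.sum_univ_eq_sum_range (fun l => C (q.coeff l) * Polynomial.X ^ l) k]
    conv_lhs => rw [h1, add_mul, Finset.sum_mul, map_add, map_sum, Matrix.trace_add,
      Matrix.trace_sum]
    congr 1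
    refine Finset.sum_congr rfl fun l _ => ?_
    rw [mul_assoc, ← smul_eq_C_mul, map_smul, Matrix.trace_smul, smul_eq_mul]
  have hzero : ∀ᶠ j : ℕ in atTop, ∑ l : Fin k, cvec k (M * u ^ p ^ j) l *
      (((p : ℚ_[p]) ^ j)⁻¹ * ((aeval (M * u ^ p ^ j) (Polynomial.X ^ (l : ℕ) * (μ * g))).trace -
        (aeval M (Polynomial.X ^ (l : ℕ) * (μ * g))).trace)) +
      (((p : ℚ_[p]) ^ j)⁻¹ * ((aeval (M * u ^ p ^ j) (Polynomial.X ^ k * (μ * g))).trace -
        (aeval M (Polynomial.X ^ k * (μ * g))).trace)) = 0 := by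
    filter_upwards [hev] with j hj
    obtain ⟨q, hq, hqk, hqn⟩ := hall j
    have h1 := hexp q hq hqk (M * u ^ p ^ j)
    rw [tr_zero (nilp_mul _ q _ hqn)] at h1
    have h2 := hexp q hq hqk M
    have h3 : q * (μ * g) = μ * (q * g) := by ring
    rw [h3, tr_zero (nilp_mul M μ _ hμn)] at h2
    have h4 : ∀ l : Fin k, cvec k (M * u ^ p ^ j) l = q.coeff l := fun l =>
      (cvec_spec hq hqk hqn hj l).symm
    simp only [h4]
    have h5 : ∀ a : ℚ_[p], ∑ l : Fin k, q.coeff l *
      (a * ((aeval (M * u ^ p ^ j) (Polynomial.X ^ (l : ℕ) * (μ * g))).trace -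
        (aeval M (Polynomial.X ^ (l : ℕ) * (μ * g))).trace)) =
        a * (∑ l : Fin k, q.coeff l *
          (aeval (M * u ^ p ^ j) (Polynomial.X ^ (l : ℕ) * (μ * g))).trace) -
        a * (∑ l : Fin k, q.coeff l *
          (aeval M (Polynomial.X ^ (l : ℕ) * (μ * g))).trace) := by
      intro a
      rw [Finset.mul_sum, Finset.mul_sum, ← Finset.sum_sub_distrib]
      refine Finset.sum_congr rfl fun l _ => ?_
      ring
    rw [h5]
    have h6 := eq_neg_of_add_eq_zero_left h1.symm
    have h7 := eq_neg_of_add_eq_zero_left h2.symm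
    rw [h6, h7]
    ring
  have hfin := tendsto_nhds_unique (hlim.congr' hzero) tendsto_const_nhds
  have h8 : derivative (μ * (μ * g)) = ∑ l : Fin k, C (cvec k M l) *
      derivative (Polynomial.X ^ (l : ℕ) * (μ * g)) +
      derivative (Polynomial.X ^ k * (μ * g)) := by
    have h9 : μ = ∑ l : Fin k, C (cvec k M l) * Polynomial.X ^ (l : ℕ) + Polynomial.X ^ k := by
      conv_lhs => rw [μ.as_sum_range_C_mul_X_pow, hμk, Finset.sum_range_succ]
      have hlc : μ.coeff k = 1 := by rw [← hμk, coeff_natDegree, hμ.leadingCoeff]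
      rw [hlc, C_1, one_mul,
        ← Fin.sum_univ_eq_sum_range (fun l => C (μ.coeff l) * Polynomial.X ^ l) k]
      congr 1
      refine Finset.sum_congr rfl fun l _ => ?_
      rw [cvec_spec hμ hμk hμn hdet l]
    have h10 : μ * (μ * g) = ∑ l : Fin k, C (cvec k M l) * (Polynomial.X ^ (l : ℕ) * (μ * g)) +
        Polynomial.X ^ k * (μ * g) := by
      have h11 : μ * (μ * g) = (∑ l : Fin k, C (cvec k M l) * Polynomial.X ^ (l : ℕ) +
          Polynomial.X ^ k) * (μ * g) := by rw [← h9]
      rw [h11, add_mul, Finset.sum_mul]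
      congr 1
      refine Finset.sum_congr rfl fun l _ => ?_
      rw [mul_assoc]
    rw [h10, derivative_add, derivative_sum]
    congr 1
    refine Finset.sum_congr rfl fun l _ => ?_
    rw [derivative_C_mul]
  rw [h8, add_mul, Finset.sum_mul, map_add, map_sum, add_mul, Finset.sum_mul, Matrix.trace_add,
    Matrix.trace_sum, ← hfin]
  congr 1
  refine Finset.sum_congr rfl fun l _ => ?_
  rw [mul_assoc, ← smul_eq_C_mul, map_smul, smul_mul_assoc, Matrix.trace_smul, smul_eq_mul]

/-- a divisor of a radical polynomial of minimal degree with nilpotent value is trivial -/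
theorem dvd_of_nilpotent {k : ℕ} {M : Matrix n n ℚ_[p]} (hdet : (hankel k M).det ≠ 0)
    {μ : ℚ_[p][X]} (hμ : μ.Monic) (hμk : μ.natDegree = k) (hμn : IsNilpotent (aeval M μ))
    {f : ℚ_[p][X]} (hf : IsNilpotent (aeval M f)) : μ ∣ f := by
  have hmin : ∀ b : ℚ_[p][X], b ≠ 0 → IsNilpotent (aeval M b) → k ≤ b.natDegree := by
    intro b hb hbn
    by_contra hlt
    have h1 : NilDeg (k - 1) M := (nilDeg_of_ne_zero hb hbn).mono (by omega)
    have h2 := det_hankel_eq_zero h1
    have h3 : k - 1 + 1 = k := by omega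
    rw [h3] at h2
    exact hdet h2
  classical
  set d := EuclideanDomain.gcd f μ with hd
  have hdn : IsNilpotent (aeval M d) := by
    rw [hd, EuclideanDomain.gcd_eq_gcd_ab]
    exact nilp_add M _ _ (nilp_mul M _ _ hf) (nilp_mul M _ _ hμn)
  have hdμ : d ∣ μ := EuclideanDomain.gcd_dvd_right f μ
  have hdf : d ∣ f := EuclideanDomain.gcd_dvd_left f μ
  have hd0 : d ≠ 0 := by
    intro h0
    rw [h0, zero_dvd_iff] at hdμ
    exact hμ.ne_zero hdμ
  have hdk := hmin d hd0 hdn
  obtain ⟨c, hc⟩ := hdμ
  have hc0 : c ≠ 0 := by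
    intro h0
    rw [h0, mul_zero] at hc
    exact hμ.ne_zero hc
  have h1 : μ.natDegree = d.natDegree + c.natDegree := by
    rw [← natDegree_mul hd0 hc0, ← hc]
  have h2 : c.natDegree = 0 := by omega
  have hcu : IsUnit c := by
    rw [natDegree_eq_zero] at h2
    obtain ⟨a, ha⟩ := h2
    rw [← ha]
    apply IsUnit.map
    rw [isUnit_iff_ne_zero]
    rintro rfl
    rw [C_0] at ha
    exact hc0 ha.symm
  have h3 : μ ∣ d := by
    rw [hc]
    exact (hcu.mul_right_dvd).2 dvd_rfl
  exact h3.trans hdf

/-- **Orthogonality.**  If `M u ^ (p ^ j)` has at most `k` distinct eigenvalues for all `j` and `M`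
has exactly `k`, then the nilpotent polynomials in `M` are orthogonal to the logarithm of `u`. -/
theorem trace_nilp_log {k : ℕ} {M M' u X : Matrix n n ℚ_[p]} (hu : IsLog p u X)
    (hinv : M' * M = 1)
    (hall : ∀ j : ℕ, NilDeg k (M * u ^ p ^ j)) (hMk : NilDeg k M) (hdet : (hankel k M).det ≠ 0)
    {f : ℚ_[p][X]} (hf : IsNilpotent (aeval M f)) : (aeval M f * X).trace = 0 := by
  obtain ⟨μ, hμ, hμk, hμn⟩ := hMk
  have hsq : Squarefree μ := by
    intro a ha
    obtain ⟨b, hb⟩ := ha
    have h1 : IsNilpotent (aeval M (a * b)) := by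
      have h2 : IsNilpotent (aeval M (a * b) ^ 2) := by
        have h3 : aeval M (a * b) ^ 2 = aeval M (μ * b) := by
          rw [← map_pow, hb]
          congr 1
          ring
        rw [h3]
        exact nilp_mul M μ b hμn
      exact (IsNilpotent.pow_iff_pos (by norm_num)).1 h2
    have h2 := dvd_of_nilpotent hdet hμ hμk hμn h1
    obtain ⟨c, hc⟩ := h2
    have hab : a * b ≠ 0 := by
      intro h0
      have : μ = 0 := by rw [hb, mul_assoc, h0, mul_zero]
      exact hμ.ne_zero this
    have h3 : a * b * (a * c) = a * b * 1 := by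
      rw [mul_one]
      conv_rhs => rw [hc, hb]
      ring
    have h4 := mul_left_cancel₀ hab h3
    exact IsUnit.of_mul_eq_one c h4
  have hder : IsCoprime μ (derivative μ) := by
    have : μ.Separable := (PerfectField.separable_iff_squarefree).2 hsq
    exact this
  have hXc : IsCoprime μ Polynomial.X := by
    rw [isCoprime_comm, irreducible_X.coprime_iff_not_dvd]
    rintro ⟨c, hc⟩
    have h1 : IsNilpotent (aeval M c) := by
      have h2 : IsNilpotent (M * aeval M c) := by
        have : M * aeval M c = aeval M μ := by rw [hc, map_mul, aeval_X]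
        rw [this]
        exact hμn
      have h3 : Commute M (aeval M c) := by
        have h4 : aeval M (Polynomial.X * c) = aeval M (c * Polynomial.X) := by rw [mul_comm]
        rw [map_mul, map_mul, aeval_X] at h4
        exact h4
      obtain ⟨m, hm⟩ := h2
      refine ⟨m, ?_⟩
      rw [h3.mul_pow] at hm
      have h4 : ∀ i : ℕ, M' ^ i * M ^ i = 1 := by
        intro i
        induction i with
        | zero => simp
        | succ i ih =>
          rw [pow_succ, pow_succ']
          calc M' ^ i * M' * (M * M ^ i) = M' ^ i * (M' * M) * M ^ i := by noncomm_ring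
            _ = 1 := by rw [hinv, mul_one, ih]
      calc aeval M c ^ m = M' ^ m * M ^ m * aeval M c ^ m := by rw [h4, one_mul]
        _ = M' ^ m * (M ^ m * aeval M c ^ m) := by rw [mul_assoc]
        _ = 0 := by rw [hm, mul_zero]
    have h2 := dvd_of_nilpotent hdet hμ hμk hμn h1
    obtain ⟨e, he⟩ := h2
    have h3 : c ≠ 0 := by
      rintro rfl
      rw [mul_zero] at hc
      exact hμ.ne_zero hc
    have h4 : c * 1 = c * (Polynomial.X * e) := by
      rw [mul_one]
      conv_lhs => rw [he, hc]
      ring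
    have h5 := mul_left_cancel₀ h3 h4
    exact not_isUnit_X (IsUnit.of_mul_eq_one e h5.symm)
  have hcop : IsCoprime μ (derivative μ * Polynomial.X) := hder.mul_right hXc
  obtain ⟨N, hN⟩ := hμn
  have key : ∀ i r : ℕ, 1 ≤ r → N ≤ r + i → ∀ h : ℚ_[p][X],
      (aeval M (μ ^ r * h) * X).trace = 0 := by
    intro i
    induction i with
    | zero =>
      intro r _ hr h
      have h1 : aeval M (μ ^ r * h) = 0 := by
        have : μ ^ r = μ ^ N * μ ^ (r - N) := by rw [← pow_add]; congr 1; omega
        rw [this, map_mul, map_mul, map_pow, hN, zero_mul, zero_mul]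
      rw [h1, zero_mul, Matrix.trace_zero]
    | succ i ih =>
      intro r hr1 hr h
      have h0 : ∀ h : ℚ_[p][X],
          (aeval M (μ ^ r * (derivative μ * Polynomial.X) * h) * X).trace = 0 := by
        intro h
        have h1 := trace_sq_deriv hu hall hdet hμ hμk ⟨N, hN⟩ (μ ^ (r - 1) * h)
        have h2 : μ * (μ * (μ ^ (r - 1) * h)) = μ ^ (r + 1) * h := by
          have : r + 1 = (r - 1) + 2 := by omega
          rw [this, pow_add]
          ring
        rw [h2, derivative_mul, derivative_pow] at h1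
        have h3 : (C (((r + 1 : ℕ)) : ℚ_[p]) * μ ^ (r + 1 - 1) * derivative μ * h +
            μ ^ (r + 1) * derivative h) * Polynomial.X =
            C (((r + 1 : ℕ)) : ℚ_[p]) * (μ ^ r * (derivative μ * Polynomial.X) * h) +
            μ ^ (r + 1) * (derivative h * Polynomial.X) := by
          rw [Nat.add_sub_cancel]
          ring
        rw [h3, map_add, add_mul, Matrix.trace_add, ih (r + 1) (by omega) (by omega), add_zero,
          ← smul_eq_C_mul, map_smul, smul_mul_assoc, Matrix.trace_smul, smul_eq_mul] at h1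
        have h4 : (((r + 1 : ℕ)) : ℚ_[p]) ≠ 0 := by exact_mod_cast Nat.succ_ne_zero r
        exact (mul_eq_zero.1 h1).resolve_left h4
      obtain ⟨a, b, hab⟩ := hcop
      have h5 : μ ^ r * h = μ ^ (r + 1) * (a * h) +
          μ ^ r * (derivative μ * Polynomial.X) * (b * h) := by
        calc μ ^ r * h = μ ^ r * h * (a * μ + b * (derivative μ * Polynomial.X)) := by
              rw [hab, mul_one]
          _ = _ := by ring
      rw [h5, map_add, add_mul, Matrix.trace_add, ih (r + 1) (by omega) (by omega), h0, add_zero]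
  obtain ⟨h, hh⟩ := dvd_of_nilpotent hdet hμ hμk ⟨N, hN⟩ hf
  have := key N 1 le_rfl (by omega) h
  rwa [pow_one, ← hh] at this

end Pool.Agent.Y138.ZO
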