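import Pool.Agent.Y138.ZO.Gen

/-!
# Engel and Cartan for spaces of endomorphisms
-/

set_option autoImplicit false
set_option linter.unusedSectionVars false

open Module

namespace Pool.Agent.Y138.ZO

variable {K V : Type*} [Field K] [AddCommGroup V] [Module K V] [FiniteDimensional K V]

attribute [local instance 100] LieRing.ofAssociativeRing

/-- the Lie subalgebra of a bracket closed space of endomorphisms -/
def lieOf (I : Submodule K (End K V)) (hb : ∀ a ∈ I, ∀ b ∈ I, a * b - b * a ∈ I) :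
    LieSubalgebra K (End K V) where
  toSubmodule := I
  lie_mem' := by
    intro a b ha hb'
    rw [LieRing.of_associative_ring_bracket]
    exact hb a ha b hb'

theorem engel_vec (I : Submodule K (End K V)) (hb : ∀ a ∈ I, ∀ b ∈ I, a * b - b * a ∈ I)
    (hn : ∀ a ∈ I, IsNilpotent a) (W : Submodule K V) (hW : ∀ a ∈ I, ∀ w ∈ W, a w ∈ W)
    (hne : W ≠ ⊥) : ∃ w ∈ W, w ≠ 0 ∧ ∀ a ∈ I, a w = 0 := by
  let L := lieOf I hb
  let W' : LieSubmodule K L V :=
    { W with
      lie_mem := by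
        intro x m hm
        exact hW x.1 x.2 m hm }
  have hnil : LieModule.IsNilpotent L W' := by
    rw [LieModule.isNilpotent_iff_forall' (R := K)]
    intro x
    obtain ⟨m, hm⟩ := hn x.1 x.2
    refine ⟨m, ?_⟩
    have h1 : ∀ (j : ℕ) (w : W'), (((LieModule.toEnd K L W' x) ^ j) w : V) = (x.1 ^ j) (w : V) := by
      intro j
      induction j with
      | zero => intro w; rfl
      | succ j ih =>
        intro w
        rw [pow_succ, pow_succ, Module.End.mul_apply, ih, Module.End.mul_apply]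
        rfl
    ext w
    rw [h1, hm]
    rfl
  have hnt : Nontrivial W' := by
    obtain ⟨w, hw, hw0⟩ := W.ne_bot_iff.1 hne
    exact ⟨⟨⟨w, hw⟩, 0, fun h => hw0 (congrArg Subtype.val h)⟩⟩
  have h2 := LieModule.nontrivial_max_triv_of_isNilpotent K L W'
  obtain ⟨w, hw⟩ := exists_ne (0 : LieModule.maxTrivSubmodule K L W')
  refine ⟨w.1.1, w.1.2, fun h => hw (Subtype.ext (Subtype.ext h)), fun a ha => ?_⟩
  have h3 := (LieModule.mem_maxTrivSubmodule (R := K) (L := L) (M := W') w.1).1 w.2 ⟨a, ha⟩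
  exact congrArg Subtype.val h3

/-- Cartan's criterion: brackets are nilpotent if the trace form vanishes -/
theorem cartan_nil [CharZero K] (R : Submodule K (End K V))
    (hb : ∀ a ∈ R, ∀ b ∈ R, a * b - b * a ∈ R)
    (htr : ∀ a ∈ R, ∀ b ∈ R, LinearMap.trace K V (a * b) = 0) (z : End K V)
    (hz : z ∈ Submodule.span K {c | ∃ a ∈ R, ∃ b ∈ R, c = a * b - b * a}) : IsNilpotent z := by
  let L := lieOf R hb
  have htf : LieModule.traceForm K L V = 0 := by
    ext ⟨a, ha⟩ ⟨b, hb'⟩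
    exact htr a ha b hb'
  have h1 := LieModule.isNilpotent_derivedSeries_of_traceForm_eq_zero htf
  rw [LieModule.isNilpotent_iff_forall' (R := K)] at h1
  have h2 : ∃ y : L, y ∈ LieAlgebra.derivedSeries K L 1 ∧ (y : End K V) = z := by
    induction hz using Submodule.span_induction with
    | mem x hx =>
      obtain ⟨a, ha, b, hb', rfl⟩ := hx
      refine ⟨⁅(⟨a, ha⟩ : L), (⟨b, hb'⟩ : L)⁆, ?_, ?_⟩
      · rw [LieAlgebra.derivedSeries_def, LieAlgebra.derivedSeriesOfIdeal_succ,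
          LieAlgebra.derivedSeriesOfIdeal_zero]
        exact LieSubmodule.lie_mem_lie (LieSubmodule.mem_top _) (LieSubmodule.mem_top _)
      · rfl
    | zero => exact ⟨0, Submodule.zero_mem _, rfl⟩
    | add x y _ _ hx hy =>
      obtain ⟨x', hx', rfl⟩ := hx
      obtain ⟨y', hy', rfl⟩ := hy
      exact ⟨x' + y', Submodule.add_mem _ hx' hy', rfl⟩
    | smul c x _ hx =>
      obtain ⟨x', hx', rfl⟩ := hx
      exact ⟨c • x', Submodule.smul_mem _ c hx', rfl⟩
  obtain ⟨y, hy, rfl⟩ := h2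
  obtain ⟨m, hm⟩ := h1 ⟨y, hy⟩
  refine ⟨m, ?_⟩
  rw [← hm]
  have h3 : LieModule.toEnd K (LieAlgebra.derivedSeries K L 1) V ⟨y, hy⟩ = (y : End K V) := rfl
  rw [h3]

/-- **Invariance lemma.**  A bracket closed, conjugation stable space of nilpotent endomorphisms
preserving all stable subspaces of a semisimple representation is zero. -/
theorem nil_zero {Γ : Type*} [Group Γ] (ρ : Γ →* End K V)
    (hss : ∀ W : Submodule K V, (∀ g, ∀ w ∈ W, ρ g w ∈ W) →
      ∃ W' : Submodule K V, (∀ g, ∀ w ∈ W', ρ g w ∈ W') ∧ IsCompl W W')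
    (I : Submodule K (End K V)) (hb : ∀ a ∈ I, ∀ b ∈ I, a * b - b * a ∈ I)
    (hn : ∀ a ∈ I, IsNilpotent a) (hc : ∀ g, ∀ a ∈ I, ρ g * a * ρ g⁻¹ ∈ I)
    (hW : ∀ W : Submodule K V, (∀ g, ∀ w ∈ W, ρ g w ∈ W) → ∀ a ∈ I, ∀ w ∈ W, a w ∈ W)
    (a : End K V) (ha : a ∈ I) : a = 0 := by
  let W : Submodule K V :=
    { carrier := {v | ∀ a ∈ I, a v = 0}
      add_mem' := by
        intro v w hv hw a ha
        rw [map_add, hv a ha, hw a ha, add_zero]
      zero_mem' := fun a _ => map_zero a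
      smul_mem' := by
        intro c v hv a ha
        rw [map_smul, hv a ha, smul_zero] }
  have hinv : ∀ g : Γ, ρ g⁻¹ * ρ g = 1 := by
    intro g
    rw [← map_mul, inv_mul_cancel, map_one]
  have hWs : ∀ g, ∀ w ∈ W, ρ g w ∈ W := by
    intro g w hw a ha
    have h1 := hc g⁻¹ a ha
    rw [inv_inv] at h1
    have h2 := hw _ h1
    rw [Module.End.mul_apply, Module.End.mul_apply] at h2
    have h3 : ρ g (ρ g⁻¹ (a (ρ g w))) = a (ρ g w) := by
      rw [← Module.End.mul_apply, ← map_mul, mul_inv_cancel, map_one, Module.End.one_apply]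
    rw [← h3, h2, map_zero]
  obtain ⟨W', hW's, hcompl⟩ := hss W hWs
  have hbot : W' = ⊥ := by
    by_contra hne
    obtain ⟨w, hw, hw0, hwI⟩ := engel_vec I hb hn W' (hW W' hW's) hne
    have : w ∈ W ⊓ W' := ⟨hwI, hw⟩
    rw [hcompl.inf_eq_bot, Submodule.mem_bot] at this
    exact hw0 this
  have htop : W = ⊤ := by
    have := hcompl.sup_eq_top
    rwa [hbot, sup_bot_eq] at this
  ext v
  have hv : v ∈ W := by rw [htop]; exact Submodule.mem_top
  exact hv a ha

theorem end_isNilpotent_of_trace [CharZero K] (B : End K V)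
    (h : ∀ g : Polynomial K, LinearMap.trace K V (B * Polynomial.aeval B g) = 0) :
    IsNilpotent B := by
  classical
  let b := Module.finBasis K V
  let e := LinearMap.toMatrixAlgEquiv b
  have h1 : IsNilpotent (e B) := by
    apply isNilpotent_of_trace
    intro g
    have h2 : Polynomial.aeval (e B) g = e (Polynomial.aeval B g) :=
      Polynomial.aeval_algHom_apply e.toAlgHom B g
    rw [h2, ← map_mul, ← h g, LinearMap.trace_eq_matrix_trace K b]
    rfl
  exact (IsNilpotent.map_iff e.injective).1 h1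

/-- **Jacobson's lemma.**  If `[x, a]` commutes with `a`, it is nilpotent. -/
theorem jacobson [CharZero K] (x a : End K V) (h : Commute (x * a - a * x) a) :
    IsNilpotent (x * a - a * x) := by
  apply end_isNilpotent_of_trace
  intro g
  set B := x * a - a * x with hB
  have h1 : Commute (Polynomial.aeval B g) a := by
    have h2 : Polynomial.aeval B g ∈ Algebra.adjoin K {B} :=
      Polynomial.aeval_mem_adjoin_singleton K B
    exact (Algebra.commute_of_mem_adjoin_singleton_of_commute h2 h.symm).symm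
  have h3 : B * Polynomial.aeval B g = (Polynomial.aeval B g * x) * a -
      a * (Polynomial.aeval B g * x) := by
    have h4 : B * Polynomial.aeval B g = Polynomial.aeval B g * B := by
      have h5 := Algebra.commute_of_mem_adjoin_self (Polynomial.aeval_mem_adjoin_singleton K B
        (p := g))
      exact h5.eq
    rw [h4]
    conv_lhs => rw [hB]
    rw [← hB, mul_sub, ← mul_assoc, ← mul_assoc, h1.eq, mul_assoc a]
  rw [h3, map_sub, LinearMap.trace_mul_comm, sub_self]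

theorem tr_bracket (Z X Y : End K V) : LinearMap.trace K V ((Z * X - X * Z) * Y) =
    LinearMap.trace K V (Z * (X * Y - Y * X)) := by
  rw [sub_mul, mul_sub, map_sub, map_sub, mul_assoc, mul_assoc X Z Y,
    LinearMap.trace_mul_comm K X (Z * Y), mul_assoc]

section Semisimple

variable {Γ : Type*} [Group Γ] (ρ : Γ →* End K V)

theorem rho_inv_mul (g : Γ) : ρ g⁻¹ * ρ g = 1 := by
  rw [← map_mul, inv_mul_cancel, map_one]

theorem rho_mul_inv (g : Γ) : ρ g * ρ g⁻¹ = 1 := by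
  rw [← map_mul, mul_inv_cancel, map_one]

theorem conj_mul' (g : Γ) (a b : End K V) :
    ρ g * (a * b) * ρ g⁻¹ = (ρ g * a * ρ g⁻¹) * (ρ g * b * ρ g⁻¹) := by
  calc ρ g * (a * b) * ρ g⁻¹ = ρ g * a * 1 * (b * ρ g⁻¹) := by noncomm_ring
    _ = ρ g * a * (ρ g⁻¹ * ρ g) * (b * ρ g⁻¹) := by rw [rho_inv_mul]
    _ = _ := by noncomm_ring

theorem conj_isNilpotent (g : Γ) {a : End K V} (ha : IsNilpotent a) :
    IsNilpotent (ρ g * a * ρ g⁻¹) := by
  obtain ⟨m, hm⟩ := ha
  refine ⟨m + 1, ?_⟩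
  have h : ∀ j : ℕ, (ρ g * a * ρ g⁻¹) ^ (j + 1) = ρ g * a ^ (j + 1) * ρ g⁻¹ := by
    intro j
    induction j with
    | zero => rw [zero_add, pow_one, pow_one]
    | succ j ih => rw [pow_succ, ih, pow_succ a (j + 1), conj_mul']
  rw [h, pow_succ, hm, zero_mul, mul_zero, zero_mul]

/-- the main algebraic step: an endomorphism normalising the Lie algebra of a semisimple
representation and orthogonal to it centralises it -/
theorem central_of_orth [CharZero K]
    (hss : ∀ W : Submodule K V, (∀ g, ∀ w ∈ W, ρ g w ∈ W) →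
      ∃ W' : Submodule K V, (∀ g, ∀ w ∈ W', ρ g w ∈ W') ∧ IsCompl W W')
    (G : Submodule K (End K V)) (g1 : ∀ g, ∀ a ∈ G, ρ g * a * ρ g⁻¹ ∈ G)
    (g2 : ∀ a ∈ G, ∀ b ∈ G, a * b - b * a ∈ G)
    (g3 : ∀ W : Submodule K V, (∀ g, ∀ w ∈ W, ρ g w ∈ W) → ∀ a ∈ G, ∀ w ∈ W, a w ∈ W)
    (ν : End K V) (h1 : ∀ X ∈ G, LinearMap.trace K V (ν * X) = 0)
    (h2 : ∀ X ∈ G, ν * X - X * ν ∈ G) (X : End K V) (hX : X ∈ G) : ν * X - X * ν = 0 := by
  let R : Submodule K (End K V) :=
    { carrier := {Z | Z ∈ G ∧ ∀ Y ∈ G, LinearMap.trace K V (Z * Y) = 0}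
      add_mem' := by
        rintro a b ⟨ha, ha'⟩ ⟨hb, hb'⟩
        refine ⟨G.add_mem ha hb, fun Y hY => ?_⟩
        rw [add_mul, map_add, ha' Y hY, hb' Y hY, add_zero]
      zero_mem' := ⟨G.zero_mem, fun Y _ => by rw [zero_mul, map_zero]⟩
      smul_mem' := by
        rintro c a ⟨ha, ha'⟩
        refine ⟨G.smul_mem c ha, fun Y hY => ?_⟩
        rw [smul_mul_assoc, map_smul, ha' Y hY, smul_zero] }
  have hRG : ∀ a ∈ R, a ∈ G := fun a ha => ha.1
  have r1 : ∀ a ∈ R, ∀ x ∈ G, a * x - x * a ∈ R := by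
    intro a ha x hx
    refine ⟨g2 a ha.1 x hx, fun Y hY => ?_⟩
    rw [tr_bracket]
    exact ha.2 _ (g2 x hx Y hY)
  have r2 : ∀ g, ∀ a ∈ R, ρ g * a * ρ g⁻¹ ∈ R := by
    intro g a ha
    refine ⟨g1 g a ha.1, fun Y hY => ?_⟩
    have h3 := ha.2 _ (g1 g⁻¹ Y hY)
    rw [inv_inv] at h3
    rw [← h3, mul_assoc, mul_assoc, LinearMap.trace_mul_comm]
    simp only [mul_assoc]
  let D : Submodule K (End K V) := Submodule.span K {c | ∃ a ∈ R, ∃ b ∈ R, c = a * b - b * a}
  have hDR : D ≤ R := by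
    apply Submodule.span_le.2
    rintro c ⟨a, ha, b, hb, rfl⟩
    exact r1 a ha b (hRG b hb)
  have hD0 : ∀ a ∈ D, a = 0 := by
    intro a ha
    refine nil_zero ρ hss D ?_ ?_ ?_ ?_ a ha
    · intro a ha b hb
      exact Submodule.subset_span ⟨a, hDR ha, b, hDR hb, rfl⟩
    · intro a ha
      exact cartan_nil R (fun a ha b hb => r1 a ha b (hRG b hb))
        (fun a ha b hb => ha.2 b (hRG b hb)) a ha
    · intro g a ha
      induction ha using Submodule.span_induction with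
      | mem x hx =>
        obtain ⟨a, ha, b, hb, rfl⟩ := hx
        refine Submodule.subset_span ⟨_, r2 g a ha, _, r2 g b hb, ?_⟩
        rw [mul_sub, sub_mul, conj_mul', conj_mul']
      | zero => rw [mul_zero, zero_mul]; exact Submodule.zero_mem _
      | add x y _ _ hx hy => rw [mul_add, add_mul]; exact Submodule.add_mem _ hx hy
      | smul c x _ hx => rw [mul_smul_comm, smul_mul_assoc]; exact Submodule.smul_mem _ c hx
    · intro W hW a ha w hw
      exact g3 W hW a (hRG a (hDR ha)) w hw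
  have hcomm : ∀ a ∈ R, ∀ b ∈ R, Commute a b := by
    intro a ha b hb
    have := hD0 (a * b - b * a) (Submodule.subset_span ⟨a, ha, b, hb, rfl⟩)
    exact sub_eq_zero.1 this
  let I : Submodule K (End K V) :=
    { carrier := {Z | Z ∈ R ∧ IsNilpotent Z}
      add_mem' := by
        rintro a b ⟨ha, ha'⟩ ⟨hb, hb'⟩
        exact ⟨R.add_mem ha hb, (hcomm a ha b hb).isNilpotent_add ha' hb'⟩
      zero_mem' := ⟨R.zero_mem, IsNilpotent.zero⟩
      smul_mem' := by
        rintro c a ⟨ha, ha'⟩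
        exact ⟨R.smul_mem c ha, ha'.smul c⟩ }
  have hI0 : ∀ a ∈ I, a = 0 := by
    intro a ha
    refine nil_zero ρ hss I ?_ (fun a ha => ha.2) ?_ ?_ a ha
    · intro a ha b hb
      rw [(hcomm a ha.1 b hb.1).eq, sub_self]
      exact I.zero_mem
    · intro g a ha
      exact ⟨r2 g a ha.1, conj_isNilpotent ρ g ha.2⟩
    · intro W hW a ha w hw
      exact g3 W hW a (hRG a ha.1) w hw
  have hcent : ∀ a ∈ R, ∀ x ∈ G, Commute x a := by
    intro a ha x hx
    have h3 : x * a - a * x ∈ R := by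
      have := R.neg_mem (r1 a ha x hx)
      rwa [neg_sub] at this
    exact sub_eq_zero.1 (hI0 _ ⟨h3, jacobson x a (hcomm _ h3 a ha)⟩)
  have h3 : ν * X - X * ν ∈ R := by
    refine ⟨h2 X hX, fun Y hY => ?_⟩
    rw [tr_bracket]
    exact h1 _ (g2 X hX Y hY)
  exact hI0 _ ⟨h3, jacobson ν X (hcent _ h3 X hX).symm⟩

/-- nilpotent central elements of a conjugation stable subalgebra vanish -/
theorem central_nil_zero
    (hss : ∀ W : Submodule K V, (∀ g, ∀ w ∈ W, ρ g w ∈ W) →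
      ∃ W' : Submodule K V, (∀ g, ∀ w ∈ W', ρ g w ∈ W') ∧ IsCompl W W')
    (S : Subalgebra K (End K V)) (s1 : ∀ g, ∀ a ∈ S, ρ g * a * ρ g⁻¹ ∈ S)
    (s3 : ∀ W : Submodule K V, (∀ g, ∀ w ∈ W, ρ g w ∈ W) → ∀ a ∈ S, ∀ w ∈ W, a w ∈ W)
    (ν : End K V) (hν : ν ∈ S) (hc : ∀ a ∈ S, Commute a ν) (hn : IsNilpotent ν) : ν = 0 := by
  let I : Submodule K (End K V) :=
    { carrier := {Z | Z ∈ S ∧ (∀ a ∈ S, Commute a Z) ∧ IsNilpotent Z}
      add_mem' := by
        rintro a b ⟨ha, ha', ha''⟩ ⟨hb, hb', hb''⟩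
        exact ⟨S.add_mem ha hb, fun c hc => (ha' c hc).add_right (hb' c hc),
          (hb' a ha).isNilpotent_add ha'' hb''⟩
      zero_mem' := ⟨S.zero_mem, fun a _ => Commute.zero_right a, IsNilpotent.zero⟩
      smul_mem' := by
        rintro c a ⟨ha, ha', ha''⟩
        exact ⟨S.smul_mem ha c, fun d hd => (ha' d hd).smul_right c, ha''.smul c⟩ }
  refine nil_zero ρ hss I ?_ (fun a ha => ha.2.2) ?_ ?_ ν ⟨hν, hc, hn⟩
  · intro a ha b hb
    rw [(hb.2.1 a ha.1).eq, sub_self]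
    exact I.zero_mem
  · intro g a ha
    refine ⟨s1 g a ha.1, fun c hc => ?_, conj_isNilpotent ρ g ha.2.2⟩
    have h3 := ha.2.1 _ (s1 g⁻¹ c hc)
    rw [inv_inv] at h3
    have h4 : c = ρ g * (ρ g⁻¹ * c * ρ g) * ρ g⁻¹ := by
      calc c = (ρ g * ρ g⁻¹) * c * (ρ g * ρ g⁻¹) := by rw [rho_mul_inv]; noncomm_ring
        _ = _ := by noncomm_ring
    rw [Commute, SemiconjBy]
    conv_lhs => rw [h4, ← conj_mul', h3.eq, conj_mul', ← h4]
  · intro W hW a ha w hw
    exact s3 W hW a ha.1 w hw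

end Semisimple

end Pool.Agent.Y138.ZO
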