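import Pool.Agent.Y138.ZO.Log2
import Pool.Agent.Y138.ZO.Gen2
import Pool.Agent.Y138.ZO.LieA

/-!
# Multiplicative Jordan decomposition and conjugation
-/

set_option autoImplicit false
set_option linter.unusedSectionVars false

open Module Filter Topology

namespace Pool.Agent.Y138.ZO

section Alg

variable {K A : Type*} [Field K] [Ring A] [Algebra K A] [FiniteDimensional K A]

theorem inv_mem_subalgebra (S : Subalgebra K A) {s t : A} (hs : s ∈ S) (hts : t * s = 1) :
    t ∈ S := by
  let L : S →ₗ[K] S :=
    { toFun := fun a => ⟨s * a.1, S.mul_mem hs a.2⟩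
      map_add' := by
        intro a b
        apply Subtype.ext
        exact mul_add s a.1 b.1
      map_smul' := by
        intro c a
        apply Subtype.ext
        exact mul_smul_comm c s a.1 }
  have hinj : Function.Injective L := by
    intro a b hab
    apply Subtype.ext
    have h1 : s * a.1 = s * b.1 := congrArg Subtype.val hab
    calc a.1 = t * s * a.1 := by rw [hts, one_mul]
      _ = t * (s * b.1) := by rw [mul_assoc, h1]
      _ = b.1 := by rw [← mul_assoc, hts, one_mul]
  obtain ⟨a, ha⟩ := (LinearMap.injective_iff_surjective.1 hinj) ⟨1, S.one_mem⟩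
  have h1 : s * a.1 = 1 := congrArg Subtype.val ha
  have h2 : t = a.1 := by
    calc t = t * (s * a.1) := by rw [h1, mul_one]
      _ = a.1 := by rw [← mul_assoc, hts, one_mul]
  rw [h2]
  exact a.2

theorem aeval_mulLeft (a : A) (P : Polynomial K) :
    Polynomial.aeval (LinearMap.mulLeft K a) P = LinearMap.mulLeft K (Polynomial.aeval a P) := by
  have := Polynomial.aeval_algHom_apply (Algebra.lmul K A) a P
  exact this

theorem aeval_mulRight (a : A) (P : Polynomial K) :
    Polynomial.aeval (LinearMap.mulRight K a) P =
      LinearMap.mulRight K (Polynomial.aeval a P) := by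
  induction P using Polynomial.induction_on' with
  | add f g hf hg =>
    rw [map_add, map_add, hf, hg]
    ext x
    simp [mul_add]
  | monomial m c =>
    rw [Polynomial.aeval_monomial, Polynomial.aeval_monomial, ← Algebra.smul_def,
      ← Algebra.smul_def, LinearMap.pow_mulRight]
    ext x
    simp

theorem nilp_mulLeft {a : A} (ha : IsNilpotent a) : IsNilpotent (LinearMap.mulLeft K a) := by
  obtain ⟨m, hm⟩ := ha
  exact ⟨m, by rw [LinearMap.pow_mulLeft, hm, LinearMap.mulLeft_zero_eq_zero]⟩

theorem nilp_mulRight {a : A} (ha : IsNilpotent a) : IsNilpotent (LinearMap.mulRight K a) := by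
  obtain ⟨m, hm⟩ := ha
  exact ⟨m, by rw [LinearMap.pow_mulRight, hm, LinearMap.mulRight_zero_eq_zero]⟩

/-- stability under conjugation by `M` implies stability under conjugation by the unipotent part -/
theorem conj_unip_mem [PerfectField K] (G : Submodule K A) {M M' s t N w : A}
    (hG : ∀ X ∈ G, M * X * M' ∈ G) (hs : ∃ P : Polynomial K, Squarefree P ∧
      Polynomial.aeval s P = 0) (hst : s * t = 1) (hts : t * s = 1)
    (hM : M = s * (1 + N)) (hM' : M' = w * t) (hsN : Commute s N) (hN : IsNilpotent N)
    (hw1 : (1 + N) * w = 1) (hw2 : w * (1 + N) = 1) :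
    ∀ X ∈ G, (1 + N) * X * w ∈ G := by
  have hNw : Commute N w := by
    have h1 : Commute (1 + N) w := by rw [Commute, SemiconjBy, hw1, hw2]
    have h2 := h1.sub_left (Commute.one_left w)
    rwa [add_sub_cancel_left] at h2
  have hsw : Commute s w := by
    have h1 : s * (1 + N) = (1 + N) * s := by rw [mul_add, add_mul, mul_one, one_mul, hsN.eq]
    rw [Commute, SemiconjBy]
    calc s * w = w * (1 + N) * (s * w) := by rw [hw2, one_mul]
      _ = w * ((1 + N) * s) * w := by noncomm_ring
      _ = w * (s * (1 + N)) * w := by rw [h1]
      _ = w * s * ((1 + N) * w) := by noncomm_ring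
      _ = w * s := by rw [hw1, mul_one]
  have htN : Commute t N := by
    rw [Commute, SemiconjBy]
    calc t * N = t * N * (s * t) := by rw [hst, mul_one]
      _ = t * (N * s) * t := by noncomm_ring
      _ = t * (s * N) * t := by rw [hsN.eq]
      _ = t * s * (N * t) := by noncomm_ring
      _ = N * t := by rw [hts, one_mul]
  have htw : Commute t w := by
    rw [Commute, SemiconjBy]
    calc t * w = t * w * (s * t) := by rw [hst, mul_one]
      _ = t * (w * s) * t := by noncomm_ring
      _ = t * (s * w) * t := by rw [hsw.eq]
      _ = t * s * (w * t) := by noncomm_ring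
      _ = w * t := by rw [hts, one_mul]
  have hwn : IsNilpotent (w - 1) := by
    have h1 : w - 1 = -(N * w) := by
      calc w - 1 = w - (1 + N) * w := by rw [hw1]
        _ = _ := by noncomm_ring
    rw [h1]
    exact (hNw.isNilpotent_mul_right hN).neg
  have hLR : ∀ a b : A, Commute (LinearMap.mulLeft K a) (LinearMap.mulRight K b) := by
    intro a b
    ext x
    simp [mul_assoc]
  have hRR : ∀ a b : A, Commute a b → Commute (LinearMap.mulRight K a) (LinearMap.mulRight K b) := by
    intro a b hab
    ext x
    simp only [Module.End.mul_apply, LinearMap.mulRight_apply, mul_assoc, hab.eq]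
  have hLL : ∀ a b : A, Commute a b → Commute (LinearMap.mulLeft K a) (LinearMap.mulLeft K b) := by
    intro a b hab
    ext x
    simp only [Module.End.mul_apply, LinearMap.mulLeft_apply, ← mul_assoc, hab.eq]
  set F : End K A := LinearMap.mulLeft K s * LinearMap.mulRight K t with hF
  set U : End K A := LinearMap.mulLeft K (1 + N) * LinearMap.mulRight K w with hU
  set f : End K A := LinearMap.mulLeft K M * LinearMap.mulRight K M' with hf
  have hss1 : Module.End.IsSemisimple (LinearMap.mulLeft K s : End K A) := by
    obtain ⟨P, hP, hP0⟩ := hs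
    apply Module.End.isSemisimple_of_squarefree_aeval_eq_zero hP
    rw [aeval_mulLeft, hP0, LinearMap.mulLeft_zero_eq_zero]
  have hss2 : Module.End.IsSemisimple (LinearMap.mulRight K t : End K A) := by
    have h1 : Module.End.IsSemisimple (LinearMap.mulRight K s : End K A) := by
      obtain ⟨P, hP, hP0⟩ := hs
      apply Module.End.isSemisimple_of_squarefree_aeval_eq_zero hP
      rw [aeval_mulRight, hP0, LinearMap.mulRight_zero_eq_zero]
    apply h1.of_mem_adjoin_singleton
    apply inv_mem_subalgebra _ (Algebra.self_mem_adjoin_singleton K (LinearMap.mulRight K s))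
    ext x
    simp only [Module.End.mul_apply, LinearMap.mulRight_apply, Module.End.one_apply]
    rw [mul_assoc, hst, mul_one]
  have hFss : F.IsSemisimple := hss1.mul_of_commute (hLR s t) hss2
  have hfFU : f = F * U := by
    ext x
    simp only [hf, hF, hU, Module.End.mul_apply, LinearMap.mulRight_apply, LinearMap.mulLeft_apply]
    rw [hM, hM']
    noncomm_ring
  have hFU : Commute F U := by
    have c1 : Commute (LinearMap.mulLeft K s) (LinearMap.mulLeft K (1 + N)) :=
      hLL _ _ ((Commute.one_right s).add_right hsN)
    have c2 : Commute (LinearMap.mulRight K t) (LinearMap.mulRight K w) := hRR _ _ htw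
    exact (c1.mul_right (hLR s w)).mul_left ((hLR (1 + N) t).symm.mul_right c2)
  have hUn : IsNilpotent (U - 1) := by
    have h1 : U - 1 = LinearMap.mulLeft K N * LinearMap.mulRight K w +
        LinearMap.mulRight K (w - 1) := by
      ext x
      simp only [hU, Module.End.mul_apply, LinearMap.mulRight_apply, LinearMap.mulLeft_apply,
        LinearMap.sub_apply, LinearMap.add_apply, Module.End.one_apply]
      noncomm_ring
    rw [h1]
    apply Commute.isNilpotent_add
    · exact ((hLR N (w - 1))).mul_left (hRR _ _ ((Commute.refl w).sub_right (Commute.one_right w)))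
    · exact (hLR N w).isNilpotent_mul_right (nilp_mulLeft hN)
    · exact nilp_mulRight hwn
  obtain ⟨n2, hn2, s2, hs2, hn2n, hs2s, hfd⟩ := f.exists_isNilpotent_isSemisimple
  have hc2 : Commute n2 s2 := Algebra.commute_of_mem_adjoin_singleton_of_commute hn2
    (Algebra.commute_of_mem_adjoin_self hs2).symm |>.symm
  have hcF : Commute F (U - 1) := hFU.sub_right (Commute.one_right F)
  have huniq := Module.End.isNilpotent_isSemisimple_unique hn2n hs2s
    (hcF.isNilpotent_mul_left hUn) hFss hc2 ((Commute.refl F).mul_left hcF.symm)
    (by rw [← hfd, hfFU, mul_sub, mul_one, sub_add_cancel])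
  have hFad : F ∈ Algebra.adjoin K {f} := huniq.2 ▸ hs2
  have hstab : ∀ g ∈ Algebra.adjoin K {f}, ∀ X ∈ G, g X ∈ G := by
    intro g hg
    induction hg using Algebra.adjoin_induction with
    | mem x hx =>
      intro X hX
      rw [Set.mem_singleton_iff.1 hx]
      simp only [hf, Module.End.mul_apply, LinearMap.mulRight_apply, LinearMap.mulLeft_apply]
      rw [← mul_assoc]
      exact hG X hX
    | algebraMap r =>
      intro X hX
      rw [Module.algebraMap_end_apply]
      exact G.smul_mem r hX
    | add x y _ _ hx hy =>
      intro X hX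
      exact G.add_mem (hx X hX) (hy X hX)
    | mul x y _ _ hx hy =>
      intro X hX
      exact hx _ (hy X hX)
  have hFG : ∀ X ∈ G, s * X * t ∈ G := by
    intro X hX
    have := hstab F hFad X hX
    simp only [hF, Module.End.mul_apply, LinearMap.mulRight_apply, LinearMap.mulLeft_apply] at this
    rwa [← mul_assoc] at this
  have hinvF : LinearMap.mulLeft K t * LinearMap.mulRight K s ∈ Algebra.adjoin K {f} := by
    apply inv_mem_subalgebra _ hFad
    ext x
    simp only [hF, Module.End.mul_apply, LinearMap.mulRight_apply, LinearMap.mulLeft_apply,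
      Module.End.one_apply]
    calc t * (s * (x * t) * s) = t * s * x * (t * s) := by noncomm_ring
      _ = x := by rw [hts, one_mul, mul_one]
  intro X hX
  have h1 := hstab _ hinvF _ (hG X hX)
  simp only [Module.End.mul_apply, LinearMap.mulRight_apply, LinearMap.mulLeft_apply] at h1
  have h2 : t * (M * X * M' * s) = (1 + N) * X * w := by
    rw [hM, hM']
    calc t * (s * (1 + N) * X * (w * t) * s) = (t * s) * (1 + N) * X * w * (t * s) := by
          noncomm_ring
      _ = _ := by rw [hts, one_mul, mul_one]
  rwa [h2] at h1

end Alg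

end Pool.Agent.Y138.ZO
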