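import Pool.Agent.Y138.ZO.Semi

/-!
# One semisimple Frobenius makes the representation semisimple
-/

set_option autoImplicit false
set_option linter.unusedSectionVars false

open Module Filter Topology

namespace Pool.Agent.Y138.ZO

section Alg

variable {K A : Type*} [Field K] [Ring A] [Algebra K A] [FiniteDimensional K A] [PerfectField K]

/-- conjugation by an element killed by a squarefree polynomial is semisimple -/
theorem conj_isSemisimple {s t : A} (hs : ∃ P : Polynomial K, Squarefree P ∧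
    Polynomial.aeval s P = 0) (hst : s * t = 1) :
    Module.End.IsSemisimple
      (LinearMap.mulLeft K s * LinearMap.mulRight K t : End K A) := by
  have hss1 : Module.End.IsSemisimple (LinearMap.mulLeft K s : End K A) := by
    obtain ⟨P, hP, hP0⟩ := hs
    apply Module.End.isSemisimple_of_squarefree_aeval_eq_zero hP
    rw [aeval_mulLeft, hP0, LinearMap.mulLeft_zero_eq_zero]
  have hss2 : Module.End.IsSemisimple (LinearMap.mulRight K t : End K A) := by
    have h1 : Module.End.IsSemisimple (LinearMap.mulRight K s : End K A) := by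
      obtain ⟨P, hP, hP0⟩ := hs
      apply Module.End.isSemisimple_of_squarefree_aeval_eq_zero hP
      rw [aeval_mulRight, hP0, LinearMap.mulRight_zero_eq_zero]
    apply h1.of_mem_adjoin_singleton
    apply inv_mem_subalgebra _ (Algebra.self_mem_adjoin_singleton K (LinearMap.mulRight K s))
    ext x
    simp only [Module.End.mul_apply, LinearMap.mulRight_apply, Module.End.one_apply]
    rw [mul_assoc, hst, mul_one]
  refine hss1.mul_of_commute ?_ hss2
  ext x
  simp [mul_assoc]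

/-- lifting of invariants for a semisimple operator -/
theorem lift_invariant {E : Type*} [AddCommGroup E] [Module K E] {T : End K E}
    (hT : T.IsSemisimple) (L : Submodule K E) (hL : ∀ x ∈ L, T x ∈ L) (x : E)
    (hx : T x - x ∈ L) : ∃ z ∈ L, T (x - z) = x - z := by
  obtain ⟨q, hq, hc⟩ := Module.End.isSemisimple_iff.1 hT L hL
  obtain ⟨z, hz, y, hy, rfl⟩ := Submodule.mem_sup.1
    (by rw [hc.sup_eq_top]; exact Submodule.mem_top : x ∈ L ⊔ q)
  refine ⟨z, hz, ?_⟩
  rw [add_sub_cancel_left]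
  have h1 : T y - y ∈ q := q.sub_mem (hq hy) hy
  have h2 : T y - y ∈ L := by
    have h3 : T y - y = (T (z + y) - (z + y)) - (T z - z) := by
      rw [map_add]
      abel
    rw [h3]
    exact L.sub_mem hx (L.sub_mem (hL z hz) hz)
  have h3 : T y - y ∈ L ⊓ q := ⟨h2, h1⟩
  rw [hc.inf_eq_bot, Submodule.mem_bot] at h3
  exact sub_eq_zero.1 h3

end Alg

variable {p : ℕ} [hp : Fact p.Prime] {n : Type*} [Fintype n] [DecidableEq n]
  {G : Type*} [Group G] [TopologicalSpace G] [IsTopologicalGroup G]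

/-- **Descent of semisimplicity.** -/
theorem semisimple_of_one (ρ : G →* Matrix n n ℚ_[p]) (hρ : Continuous ρ)
    (N : Subgroup G) (hN : N.Normal) (φ : G)
    (hdense : (N ⊔ Subgroup.zpowers φ).topologicalClosure = ⊤)
    (hgeom : IsSemisimpleRep ρ N) (γ : G) (d : ℕ) (hd : 0 < d) (hγ : (φ ^ d)⁻¹ * γ ∈ N)
    (hss : Module.End.IsSemisimple (Matrix.toLin' (ρ γ))) : IsSemisimpleRep ρ ⊤ := by
  intro W hW
  have hW' : ∀ g : G, ∀ w ∈ W, (ρ g).mulVec w ∈ W := fun g w hw => hW g trivial w hw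
  obtain ⟨W', hW's, hc⟩ := hgeom W (fun g _ w hw => hW' g w hw)
  have hρi : ∀ g : G, ρ g⁻¹ * ρ g = 1 := fun g => by rw [← map_mul, inv_mul_cancel, map_one]
  have hρi' : ∀ g : G, ρ g * ρ g⁻¹ = 1 := fun g => by rw [← map_mul, mul_inv_cancel, map_one]
  -- the first projection
  let P0 : (n → ℚ_[p]) →ₗ[ℚ_[p]] (n → ℚ_[p]) := W.subtype ∘ₗ W.projectionOnto W' hc
  set p0 : Matrix n n ℚ_[p] := LinearMap.toMatrix' P0 with hp0
  have hp0v : ∀ v, p0.mulVec v = P0 v := by
    intro v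
    rw [hp0, ← Matrix.toLin'_apply, Matrix.toLin'_toMatrix']
  have hp0W : ∀ w ∈ W, p0.mulVec w = w := by
    intro w hw
    rw [hp0v]
    change ((W.projectionOnto W' hc) w : n → ℚ_[p]) = w
    have := Submodule.projectionOnto_apply_left hc ⟨w, hw⟩
    exact congrArg Subtype.val this
  have hp0W' : ∀ w ∈ W', p0.mulVec w = 0 := by
    intro w hw
    rw [hp0v]
    change ((W.projectionOnto W' hc) w : n → ℚ_[p]) = 0
    have := Submodule.projectionOnto_apply_right hc ⟨w, hw⟩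
    exact congrArg Subtype.val this
  have hp0m : ∀ v, p0.mulVec v ∈ W := by
    intro v
    rw [hp0v]
    exact ((W.projectionOnto W' hc) v).2
  have hp0N : ∀ g ∈ N, ρ g * p0 = p0 * ρ g := by
    intro g hg
    apply Matrix.toLin'.injective
    refine LinearMap.ext fun v => ?_
    rw [Matrix.toLin'_apply, Matrix.toLin'_apply, ← Matrix.mulVec_mulVec, ← Matrix.mulVec_mulVec]
    obtain ⟨w, hw, w', hw', rfl⟩ := Submodule.mem_sup.1
      (by rw [hc.sup_eq_top]; exact Submodule.mem_top : v ∈ W ⊔ W')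
    rw [Matrix.mulVec_add, Matrix.mulVec_add, Matrix.mulVec_add, Matrix.mulVec_add, hp0W w hw,
      hp0W' w' hw', hp0W _ (hW' g w hw), hp0W' _ (hW's g hg w' hw'), Matrix.mulVec_zero]
  -- the space of equivariant maps killing `W`
  let L : Submodule ℚ_[p] (Matrix n n ℚ_[p]) :=
    { carrier := {f | (∀ v, f.mulVec v ∈ W) ∧ (∀ w ∈ W, f.mulVec w = 0) ∧
        ∀ g ∈ N, ρ g * f = f * ρ g}
      add_mem' := by
        rintro a b ⟨ha1, ha2, ha3⟩ ⟨hb1, hb2, hb3⟩
        refine ⟨fun v => ?_, fun w hw => ?_, fun g hg => ?_⟩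
        · rw [Matrix.add_mulVec]; exact W.add_mem (ha1 v) (hb1 v)
        · rw [Matrix.add_mulVec, ha2 w hw, hb2 w hw, add_zero]
        · rw [mul_add, add_mul, ha3 g hg, hb3 g hg]
      zero_mem' := by
        refine ⟨fun v => ?_, fun w hw => ?_, fun g hg => ?_⟩
        · rw [Matrix.zero_mulVec]; exact W.zero_mem
        · rw [Matrix.zero_mulVec]
        · rw [mul_zero, zero_mul]
      smul_mem' := by
        rintro c a ⟨ha1, ha2, ha3⟩
        refine ⟨fun v => ?_, fun w hw => ?_, fun g hg => ?_⟩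
        · rw [Matrix.smul_mulVec]; exact W.smul_mem c (ha1 v)
        · rw [Matrix.smul_mulVec, ha2 w hw, smul_zero]
        · rw [mul_smul_comm, smul_mul_assoc, ha3 g hg] }
  set T : End ℚ_[p] (Matrix n n ℚ_[p]) :=
    LinearMap.mulLeft ℚ_[p] (ρ γ) * LinearMap.mulRight ℚ_[p] (ρ γ⁻¹) with hTdef
  have hTv : ∀ x, T x = ρ γ * x * ρ γ⁻¹ := by
    intro x
    simp only [hTdef, Module.End.mul_apply, LinearMap.mulRight_apply, LinearMap.mulLeft_apply,
      mul_assoc]
  have hTss : T.IsSemisimple := by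
    apply conj_isSemisimple _ (hρi' γ)
    refine ⟨minpoly ℚ_[p] (Matrix.toLin' (ρ γ)), hss.minpoly_squarefree, ?_⟩
    let E : Matrix n n ℚ_[p] ≃ₐ[ℚ_[p]] End ℚ_[p] (n → ℚ_[p]) := Matrix.toLinAlgEquiv'
    apply E.injective
    have h2 := Polynomial.aeval_algHom_apply E.toAlgHom (ρ γ)
      (minpoly ℚ_[p] (Matrix.toLin' (ρ γ)))
    have h3 : E.toAlgHom (ρ γ) = Matrix.toLin' (ρ γ) := rfl
    rw [h3, minpoly.aeval] at h2
    rw [map_zero]
    exact h2.symm
  -- conjugation preserves equivariance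
  have hconjN : ∀ (x : G) (f : Matrix n n ℚ_[p]), (∀ g ∈ N, ρ g * f = f * ρ g) →
      ∀ g ∈ N, ρ g * (ρ x * f * ρ x⁻¹) = (ρ x * f * ρ x⁻¹) * ρ g := by
    intro x f hf g hg
    have h1 := hf (x⁻¹ * g * x) (by
      have := hN.conj_mem g hg x⁻¹
      rwa [inv_inv] at this)
    calc ρ g * (ρ x * f * ρ x⁻¹) = ρ (x * (x⁻¹ * g * x)) * f * ρ x⁻¹ := by
          have : x * (x⁻¹ * g * x) = g * x := by group
          rw [this, map_mul]
          noncomm_ring
      _ = ρ x * (ρ (x⁻¹ * g * x) * f) * ρ x⁻¹ := by rw [map_mul]; noncomm_ring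
      _ = ρ x * (f * ρ (x⁻¹ * g * x)) * ρ x⁻¹ := by rw [h1]
      _ = ρ x * f * (ρ (x⁻¹ * g * x) * ρ x⁻¹) := by noncomm_ring
      _ = ρ x * f * (ρ x⁻¹ * ρ g) := by
          rw [← map_mul, ← map_mul]
          have : x⁻¹ * g * x * x⁻¹ = x⁻¹ * g := by group
          rw [this]
      _ = _ := by noncomm_ring
  have hLT : ∀ x ∈ L, T x ∈ L := by
    rintro f ⟨h1, h2, h3⟩
    rw [hTv]
    refine ⟨fun v => ?_, fun w hw => ?_, hconjN γ f h3⟩
    · rw [mul_assoc, ← Matrix.mulVec_mulVec, ← Matrix.mulVec_mulVec]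
      exact hW' _ _ (h1 _)
    · rw [← Matrix.mulVec_mulVec, ← Matrix.mulVec_mulVec, h2 _ (hW' _ w hw), Matrix.mulVec_zero]
  have hp0L : T p0 - p0 ∈ L := by
    rw [hTv]
    refine ⟨fun v => ?_, fun w hw => ?_, fun g hg => ?_⟩
    · rw [Matrix.sub_mulVec, mul_assoc, ← Matrix.mulVec_mulVec, ← Matrix.mulVec_mulVec]
      exact W.sub_mem (hW' _ _ (hp0m _)) (hp0m v)
    · rw [Matrix.sub_mulVec, ← Matrix.mulVec_mulVec, ← Matrix.mulVec_mulVec,
        hp0W _ (hW' _ w hw), hp0W w hw, Matrix.mulVec_mulVec, hρi', Matrix.one_mulVec, sub_self]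
    · rw [mul_sub, sub_mul, hconjN γ p0 hp0N g hg, hp0N g hg]
  obtain ⟨z, hz, hTz⟩ := lift_invariant hTss L hLT p0 hp0L
  set p1 := p0 - z with hp1
  have hp1W : ∀ w ∈ W, p1.mulVec w = w := by
    intro w hw
    rw [hp1, Matrix.sub_mulVec, hp0W w hw, hz.2.1 w hw, sub_zero]
  have hp1m : ∀ v, p1.mulVec v ∈ W := by
    intro v
    rw [hp1, Matrix.sub_mulVec]
    exact W.sub_mem (hp0m v) (hz.1 v)
  have hp1N : ∀ g ∈ N, ρ g * p1 = p1 * ρ g := by
    intro g hg
    rw [hp1, mul_sub, sub_mul, hp0N g hg, hz.2.2 g hg]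
  have hp1γ : ρ γ * p1 = p1 * ρ γ := by
    have h1 : ρ γ * p1 * ρ γ⁻¹ = p1 := by rw [← hTv]; exact hTz
    calc ρ γ * p1 = ρ γ * p1 * (ρ γ⁻¹ * ρ γ) := by rw [hρi, mul_one]
      _ = (ρ γ * p1 * ρ γ⁻¹) * ρ γ := by noncomm_ring
      _ = p1 * ρ γ := by rw [h1]
  have hp1φ : ρ (φ ^ d) * p1 = p1 * ρ (φ ^ d) := by
    have h1 := hp1N _ (N.inv_mem hγ)
    have h2 : φ ^ d = γ * ((φ ^ d)⁻¹ * γ)⁻¹ := by group
    rw [h2, map_mul, mul_assoc, h1, ← mul_assoc, hp1γ, mul_assoc]
  -- average over the powers of `φ`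
  set S : Matrix n n ℚ_[p] := ∑ i ∈ Finset.range d, ρ (φ ^ i) * p1 * ρ (φ ^ i)⁻¹ with hS
  have hSφ : ρ φ * S * ρ φ⁻¹ = S := by
    have h1 : ρ φ * S * ρ φ⁻¹ =
        ∑ i ∈ Finset.range d, ρ (φ ^ (i + 1)) * p1 * ρ (φ ^ (i + 1))⁻¹ := by
      rw [hS, Finset.mul_sum, Finset.sum_mul]
      refine Finset.sum_congr rfl fun i _ => ?_
      have e1 : φ ^ (i + 1) = φ * φ ^ i := pow_succ' φ i
      have e2 : (φ ^ (i + 1))⁻¹ = (φ ^ i)⁻¹ * φ⁻¹ := by rw [e1, mul_inv_rev]
      rw [e2, e1, map_mul, map_mul]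
      noncomm_ring
    have h2 := Finset.sum_range_succ (fun i => ρ (φ ^ i) * p1 * ρ (φ ^ i)⁻¹) d
    rw [Finset.sum_range_succ'] at h2
    have h3 : ρ (φ ^ d) * p1 * ρ (φ ^ d)⁻¹ = p1 := by
      rw [hp1φ, mul_assoc, hρi', mul_one]
    rw [h3] at h2
    simp only [pow_zero, inv_one, map_one, one_mul, mul_one] at h2
    rw [h1]
    exact add_right_cancel h2
  have hSN : ∀ g ∈ N, ρ g * S = S * ρ g := by
    intro g hg
    rw [hS, Finset.mul_sum, Finset.sum_mul]
    exact Finset.sum_congr rfl fun i _ => hconjN (φ ^ i) p1 hp1N g hg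
  have hSm : ∀ v, S.mulVec v ∈ W := by
    intro v
    rw [hS, Matrix.sum_mulVec]
    refine W.sum_mem fun i _ => ?_
    rw [mul_assoc, ← Matrix.mulVec_mulVec, ← Matrix.mulVec_mulVec]
    exact hW' _ _ (hp1m _)
  have hSW : ∀ w ∈ W, S.mulVec w = (d : ℚ_[p]) • w := by
    intro w hw
    rw [hS, Matrix.sum_mulVec]
    have : ∀ i ∈ Finset.range d, (ρ (φ ^ i) * p1 * ρ (φ ^ i)⁻¹).mulVec w = w := by
      intro i _
      rw [← Matrix.mulVec_mulVec, ← Matrix.mulVec_mulVec, hp1W _ (hW' _ w hw),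
        Matrix.mulVec_mulVec, hρi', Matrix.one_mulVec]
    rw [Finset.sum_congr rfl this, Finset.sum_const, Finset.card_range,
      Nat.cast_smul_eq_nsmul]
  -- everything commutes with the average
  have hall : ∀ g : G, ρ g * S = S * ρ g := by
    let C : Subgroup G :=
      { carrier := {g | ρ g * S = S * ρ g}
        mul_mem' := by
          intro a b ha hb
          change ρ (a * b) * S = S * ρ (a * b)
          rw [map_mul, mul_assoc, hb, ← mul_assoc, ha, mul_assoc]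
        one_mem' := by
          change ρ 1 * S = S * ρ 1
          rw [map_one, one_mul, mul_one]
        inv_mem' := by
          intro a ha
          change ρ a⁻¹ * S = S * ρ a⁻¹
          calc ρ a⁻¹ * S = ρ a⁻¹ * (S * ρ a) * ρ a⁻¹ := by
                rw [mul_assoc, mul_assoc, hρi', mul_one]
            _ = ρ a⁻¹ * (ρ a * S) * ρ a⁻¹ := by rw [show ρ a * S = S * ρ a from ha]
            _ = S * ρ a⁻¹ := by rw [← mul_assoc, hρi, one_mul] }
    have hCc : IsClosed (C : Set G) :=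
      isClosed_eq (hρ.mul continuous_const) (continuous_const.mul hρ)
    have hle : N ⊔ Subgroup.zpowers φ ≤ C := by
      rw [sup_le_iff]
      refine ⟨fun g hg => hSN g hg, ?_⟩
      rw [Subgroup.zpowers_le]
      change ρ φ * S = S * ρ φ
      calc ρ φ * S = ρ φ * S * (ρ φ⁻¹ * ρ φ) := by rw [hρi, mul_one]
        _ = (ρ φ * S * ρ φ⁻¹) * ρ φ := by noncomm_ring
        _ = S * ρ φ := by rw [hSφ]
    have htop : (⊤ : Subgroup G) ≤ C := by
      rw [← hdense]
      exact Subgroup.topologicalClosure_minimal _ hle hCc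
    exact fun g => htop (Subgroup.mem_top g)
  -- the kernel is a stable complement
  refine ⟨LinearMap.ker (Matrix.toLin' S), fun g _ w hw => ?_, ?_⟩
  · rw [LinearMap.mem_ker, Matrix.toLin'_apply] at hw ⊢
    rw [Matrix.mulVec_mulVec, ← hall, ← Matrix.mulVec_mulVec, hw, Matrix.mulVec_zero]
  · have hd0 : (d : ℚ_[p]) ≠ 0 := by exact_mod_cast hd.ne'
    constructor
    · rw [disjoint_iff, eq_bot_iff]
      rintro w ⟨hw, hw'⟩
      have h1 : S.mulVec w = 0 := by
        have := LinearMap.mem_ker.1 hw'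
        rwa [Matrix.toLin'_apply] at this
      rw [hSW w hw] at h1
      exact (Submodule.mem_bot _).2 ((smul_eq_zero.1 h1).resolve_left hd0)
    · rw [codisjoint_iff, eq_top_iff]
      intro v _
      have h1 : (d : ℚ_[p])⁻¹ • S.mulVec v ∈ W := W.smul_mem _ (hSm v)
      refine Submodule.mem_sup.2 ⟨_, h1, v - (d : ℚ_[p])⁻¹ • S.mulVec v, ?_, by abel⟩
      rw [LinearMap.mem_ker, Matrix.toLin'_apply, Matrix.mulVec_sub, Matrix.mulVec_smul,
        hSW _ (hSm v), smul_smul, inv_mul_cancel₀ hd0, one_smul, sub_self]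

end Pool.Agent.Y138.ZO
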