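import Mathlib

/-!
# Logarithms of elements close to one in `p`-adic Banach algebras
-/

set_option autoImplicit false
set_option linter.unusedSectionVars false

open Filter Topology

namespace Pool.Agent.Y138.ZO

/-- `X` is the logarithm of `u`: the limit of `(u ^ (p ^ k) - 1) / p ^ k`. -/
def IsLog (p : ℕ) [Fact p.Prime] {A : Type*} [Ring A] [Algebra ℚ_[p] A] [TopologicalSpace A]
    (u X : A) : Prop :=
  Tendsto (fun k : ℕ => ((p : ℚ_[p]) ^ k)⁻¹ • (u ^ p ^ k - 1)) atTop (𝓝 X)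

section Top

variable {p : ℕ} [hp : Fact p.Prime] {A : Type*} [Ring A] [Algebra ℚ_[p] A] [TopologicalSpace A]
  [IsTopologicalRing A] [ContinuousSMul ℚ_[p] A]

theorem pow_tendsto_zero : Tendsto (fun k : ℕ => (p : ℚ_[p]) ^ k) atTop (𝓝 0) := by
  apply tendsto_pow_atTop_nhds_zero_of_norm_lt_one
  rw [Padic.norm_p]
  exact inv_lt_one_of_one_lt₀ (by exact_mod_cast hp.out.one_lt)

theorem pne : (p : ℚ_[p]) ≠ 0 := by exact_mod_cast hp.out.ne_zero

theorem IsLog.tendsto_one {u X : A} (h : IsLog p u X) :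
    Tendsto (fun k : ℕ => u ^ p ^ k) atTop (𝓝 1) := by
  have h1 : Tendsto (fun k : ℕ => (p : ℚ_[p]) ^ k • (((p : ℚ_[p]) ^ k)⁻¹ • (u ^ p ^ k - 1)) + 1)
      atTop (𝓝 ((0 : ℚ_[p]) • X + 1)) := (pow_tendsto_zero.smul h).add_const 1
  rw [zero_smul, zero_add] at h1
  refine h1.congr fun k => ?_
  rw [smul_smul, mul_inv_cancel₀ (pow_ne_zero k pne), one_smul, sub_add_cancel]

theorem IsLog.unique [T2Space A] {u X Y : A} (h : IsLog p u X) (h' : IsLog p u Y) : X = Y :=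
  tendsto_nhds_unique h h'

theorem conj_pow' {g h u : A} (hgh : h * g = 1) (n : ℕ) (hg : g * h = 1) :
    (g * u * h) ^ n = g * u ^ n * h := by
  induction n with
  | zero => rw [pow_zero, pow_zero, mul_one, hg]
  | succ n ih =>
    rw [pow_succ, ih, pow_succ]
    calc g * u ^ n * h * (g * u * h) = g * u ^ n * (h * g) * u * h := by noncomm_ring
      _ = g * (u ^ n * u) * h := by rw [hgh]; noncomm_ring

theorem IsLog.conj {u X g h : A} (hu : IsLog p u X) (hgh : h * g = 1) (hg : g * h = 1) :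
    IsLog p (g * u * h) (g * X * h) := by
  have h1 : Tendsto (fun k : ℕ => g * (((p : ℚ_[p]) ^ k)⁻¹ • (u ^ p ^ k - 1)) * h) atTop
      (𝓝 (g * X * h)) := (hu.const_mul g).mul_const h
  refine h1.congr fun k => ?_
  rw [conj_pow' hgh _ hg, mul_smul_comm, smul_mul_assoc, mul_sub, sub_mul, mul_one, hg]

theorem IsLog.mul {u v X Y : A} (hu : IsLog p u X) (hv : IsLog p v Y) (huv : Commute u v) :
    IsLog p (u * v) (X + Y) := by
  have h1 := (Filter.Tendsto.mul hu hv.tendsto_one).add hv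
  rw [mul_one] at h1
  refine h1.congr fun k => ?_
  rw [huv.mul_pow, smul_mul_assoc, ← smul_add]
  congr 1
  noncomm_ring

theorem IsLog.pow {u X : A} (hu : IsLog p u X) (n : ℕ) : IsLog p (u ^ n) (n • X) := by
  induction n with
  | zero =>
    rw [pow_zero, zero_smul]
    unfold IsLog
    simp only [one_pow, sub_self, smul_zero]
    exact tendsto_const_nhds
  | succ n ih =>
    rw [pow_succ, succ_nsmul]
    exact ih.mul hu ((Commute.refl u).pow_left n)

theorem IsLog.inv {u v X Z : A} (hu : IsLog p u X) (hv : IsLog p v Z) [T2Space A]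
    (h1 : u * v = 1) (h2 : v * u = 1) : IsLog p v (-X) := by
  have h3 : Commute u v := by rw [Commute, SemiconjBy, h1, h2]
  have h4 := hu.mul hv h3
  rw [h1] at h4
  have h5 : IsLog p (1 : A) 0 := by
    have := hu.pow 0
    rwa [pow_zero, zero_smul] at this
  have h6 := h4.unique h5
  have h7 : Z = -X := by
    rw [add_comm] at h6
    exact eq_neg_of_add_eq_zero_left h6
  rwa [h7] at hv

theorem IsLog.commute [T2Space A] {u X c : A} (hu : IsLog p u X) (hc : Commute c u) :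
    Commute c X := by
  have h1 : Tendsto (fun k : ℕ => c * (((p : ℚ_[p]) ^ k)⁻¹ • (u ^ p ^ k - 1))) atTop
      (𝓝 (c * X)) := hu.const_mul c
  have h2 : Tendsto (fun k : ℕ => (((p : ℚ_[p]) ^ k)⁻¹ • (u ^ p ^ k - 1)) * c) atTop
      (𝓝 (X * c)) := hu.mul_const c
  refine tendsto_nhds_unique h1 (h2.congr fun k => ?_)
  rw [mul_smul_comm, smul_mul_assoc, mul_sub, sub_mul, (hc.pow_right (p ^ k)).eq, mul_one, one_mul]

theorem IsLog.mem {u X : A} (hu : IsLog p u X) (S : Submodule ℚ_[p] A) (hS : IsClosed (S : Set A))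
    (h : ∀ k : ℕ, u ^ p ^ k - 1 ∈ S) : X ∈ S :=
  hS.mem_of_tendsto hu (Eventually.of_forall fun k => S.smul_mem _ (h k))

theorem IsLog.lie_tendsto {u v X Z : A} (hu : IsLog p u X) (hv : IsLog p v Z)
    (h1 : u * v = 1) (Y : A) :
    Tendsto (fun k : ℕ => ((p : ℚ_[p]) ^ k)⁻¹ • (u ^ p ^ k * Y * v ^ p ^ k - Y)) atTop
      (𝓝 (X * Y - Y * X)) := by
  have h3 : Tendsto (fun k : ℕ => ((((p : ℚ_[p]) ^ k)⁻¹ • (u ^ p ^ k - 1)) * Y -
      Y * (((p : ℚ_[p]) ^ k)⁻¹ • (u ^ p ^ k - 1))) * v ^ p ^ k) atTop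
      (𝓝 ((X * Y - Y * X) * 1)) := ((hu.mul_const Y).sub (hu.const_mul Y)).mul hv.tendsto_one
  rw [mul_one] at h3
  refine h3.congr fun k => ?_
  have h4 : u ^ p ^ k * v ^ p ^ k = 1 := by
    have : ∀ n : ℕ, u ^ n * v ^ n = 1 := by
      intro n
      induction n with
      | zero => simp
      | succ n ih =>
        rw [pow_succ, pow_succ']
        calc u ^ n * u * (v * v ^ n) = u ^ n * (u * v) * v ^ n := by noncomm_ring
          _ = 1 := by rw [h1, mul_one, ih]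
    exact this _
  rw [smul_mul_assoc, mul_smul_comm, ← smul_sub, smul_mul_assoc]
  congr 1
  calc ((u ^ p ^ k - 1) * Y - Y * (u ^ p ^ k - 1)) * v ^ p ^ k
      = u ^ p ^ k * Y * v ^ p ^ k - Y * (u ^ p ^ k * v ^ p ^ k) := by noncomm_ring
    _ = _ := by rw [h4, mul_one]

end Top

section Normed

variable {A : Type*} [NormedRing A] [IsUltrametricDist A] [NormOneClass A]

theorem norm_nat_smul_le (p : ℕ) [Fact p.Prime] [NormedAlgebra ℚ_[p] A] (n : ℕ) (a : A) : ‖(n : A) * a‖ ≤ ‖a‖ := by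
  have h : (n : A) * a = (n : ℚ_[p]) • a := by
    rw [Algebra.smul_def, map_natCast]
  rw [h, norm_smul]
  have h1 : ‖(n : ℚ_[p])‖ ≤ 1 := by
    have := Padic.norm_int_le_one (p := p) n
    simpa using this
  exact mul_le_of_le_one_left (norm_nonneg _) h1

variable {p : ℕ} [hp : Fact p.Prime] [NormedAlgebra ℚ_[p] A]

/-- the first order estimate for the `p`-th power -/
theorem norm_pow_p (p : ℕ) [Fact p.Prime] [NormedAlgebra ℚ_[p] A] (a : A) (ha : ‖a‖ ≤ 1) (n : ℕ) :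
    ‖(1 + a) ^ n - 1 - (n : A) * a‖ ≤ ‖a‖ ^ 2 := by
  induction n with
  | zero => simp
  | succ n ih =>
    have h1 : (1 + a) ^ (n + 1) - 1 - ((n + 1 : ℕ) : A) * a =
        ((1 + a) ^ n - 1 - (n : A) * a) * (1 + a) + (n : A) * (a * a) := by
      rw [pow_succ]
      push_cast
      noncomm_ring
    rw [h1]
    refine (IsUltrametricDist.norm_add_le_max _ _).trans (max_le ?_ ?_)
    · refine (norm_mul_le _ _).trans ?_
      have h2 : ‖1 + a‖ ≤ 1 := (IsUltrametricDist.norm_add_le_max _ _).trans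
        (max_le norm_one.le ha)
      calc ‖(1 + a) ^ n - 1 - (n : A) * a‖ * ‖1 + a‖ ≤ ‖a‖ ^ 2 * 1 :=
            mul_le_mul ih h2 (norm_nonneg _) (by positivity)
        _ = _ := mul_one _
    · refine (norm_nat_smul_le p n (a * a)).trans ((norm_mul_le _ _).trans ?_)
      rw [sq]

/-- the radius `p ^ (-3)` -/
noncomputable def rad (p : ℕ) : ℝ := ((p : ℝ) ^ 3)⁻¹

theorem rad_pos : 0 < rad p := by
  have : (0 : ℝ) < p := by exact_mod_cast hp.out.pos
  unfold rad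
  positivity

theorem p_rad : (p : ℝ) * rad p ≤ 1 / 4 := by
  have h2 : (2 : ℝ) ≤ p := by exact_mod_cast hp.out.two_le
  have h0 : (0 : ℝ) < p := by linarith
  unfold rad
  rw [← div_eq_mul_inv, div_le_div_iff₀ (by positivity) (by norm_num)]
  have : (4 : ℝ) ≤ (p : ℝ) ^ 2 := by nlinarith
  nlinarith

theorem rad_le : rad p ≤ 1 / 8 := by
  have h2 : (2 : ℝ) ≤ p := by exact_mod_cast hp.out.two_le
  have h0 : (0 : ℝ) < p := by linarith
  unfold rad
  rw [inv_eq_one_div, div_le_div_iff₀ (by positivity) (by norm_num)]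
  have : (4 : ℝ) ≤ (p : ℝ) ^ 2 := by nlinarith
  nlinarith

theorem norm_pow_pk (a : A) (ha : ‖a‖ ≤ rad p) (k : ℕ) :
    ‖(1 + a) ^ p ^ k - 1‖ ≤ ((p : ℝ) ^ k)⁻¹ * ‖a‖ := by
  have hp0 : (0 : ℝ) < p := by exact_mod_cast hp.out.pos
  have hp1 : (1 : ℝ) < p := by exact_mod_cast hp.out.one_lt
  induction k with
  | zero => simp
  | succ k ih =>
    set b := (1 + a) ^ p ^ k - 1 with hb
    have hbr : ‖b‖ ≤ rad p := by
      refine ih.trans ?_
      have : ((p : ℝ) ^ k)⁻¹ ≤ 1 := inv_le_one_of_one_le₀ (one_le_pow₀ hp1.le)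
      exact (mul_le_of_le_one_left (norm_nonneg _) this).trans ha
    have h1 : (1 + a) ^ p ^ (k + 1) = (1 + b) ^ p := by
      rw [hb, pow_succ, pow_mul]
      congr 1
      abel
    rw [h1]
    have h2 := norm_pow_p p b (hbr.trans (rad_le.trans (by norm_num))) p
    have h3 : ‖(p : A) * b‖ ≤ (p : ℝ)⁻¹ * ‖b‖ := by
      have h : (p : A) * b = (p : ℚ_[p]) • b := by
        rw [Algebra.smul_def, map_natCast]
      rw [h, norm_smul, Padic.norm_p]
    have h4 : ‖b‖ ^ 2 ≤ (p : ℝ)⁻¹ * ‖b‖ := by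
      rw [sq]
      apply mul_le_mul_of_nonneg_right _ (norm_nonneg _)
      refine hbr.trans ?_
      have := p_rad (p := p)
      rw [← one_div, le_div_iff₀ hp0, mul_comm]
      linarith
    have h5 : ‖(1 + b) ^ p - 1‖ ≤ (p : ℝ)⁻¹ * ‖b‖ := by
      have h6 : (1 + b) ^ p - 1 = ((1 + b) ^ p - 1 - (p : A) * b) + (p : A) * b := by abel
      rw [h6]
      exact (IsUltrametricDist.norm_add_le_max _ _).trans (max_le (h2.trans h4) h3)
    refine h5.trans ?_
    calc (p : ℝ)⁻¹ * ‖b‖ ≤ (p : ℝ)⁻¹ * (((p : ℝ) ^ k)⁻¹ * ‖a‖) :=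
          mul_le_mul_of_nonneg_left ih (by positivity)
      _ = _ := by
          rw [pow_succ, mul_inv]
          ring

theorem step_le (a : A) (ha : ‖a‖ ≤ rad p) (k : ℕ) :
    dist (((p : ℚ_[p]) ^ k)⁻¹ • ((1 + a) ^ p ^ k - 1))
      (((p : ℚ_[p]) ^ (k + 1))⁻¹ • ((1 + a) ^ p ^ (k + 1) - 1)) ≤
      ((p : ℝ) * ‖a‖ ^ 2) * (1 / 2) ^ k := by
  have hp0 : (0 : ℝ) < p := by exact_mod_cast hp.out.pos
  have hp1 : (1 : ℝ) < p := by exact_mod_cast hp.out.one_lt
  have hp2 : (2 : ℝ) ≤ p := by exact_mod_cast hp.out.two_le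
  set b := (1 + a) ^ p ^ k - 1 with hb
  have hbn := norm_pow_pk a ha k
  rw [← hb] at hbn
  have hb1 : ‖b‖ ≤ 1 := by
    refine hbn.trans ?_
    have : ((p : ℝ) ^ k)⁻¹ ≤ 1 := inv_le_one_of_one_le₀ (one_le_pow₀ hp1.le)
    exact (mul_le_of_le_one_left (norm_nonneg _) this).trans (ha.trans (rad_le.trans (by norm_num)))
  have h1 : (1 + a) ^ p ^ (k + 1) = (1 + b) ^ p := by
    rw [hb, pow_succ, pow_mul]
    congr 1
    abel
  have h2 := norm_pow_p p b hb1 p
  rw [dist_comm, dist_eq_norm, h1]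
  have h3 : ((p : ℚ_[p]) ^ (k + 1))⁻¹ • ((1 + b) ^ p - 1) - ((p : ℚ_[p]) ^ k)⁻¹ • b =
      ((p : ℚ_[p]) ^ (k + 1))⁻¹ • ((1 + b) ^ p - 1 - (p : A) * b) := by
    have h4 : (p : A) * b = (p : ℚ_[p]) • b := by
      rw [Algebra.smul_def, map_natCast]
    rw [smul_sub _ ((1 + b) ^ p - 1) ((p : A) * b), h4, smul_smul]
    congr 2
    rw [pow_succ, mul_inv, mul_assoc, inv_mul_cancel₀ (pne (p := p)), mul_one]
  rw [h3, norm_smul, norm_inv, norm_pow, Padic.norm_p]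
  calc (((p : ℝ)⁻¹) ^ (k + 1))⁻¹ * ‖(1 + b) ^ p - 1 - (p : A) * b‖
      ≤ (p : ℝ) ^ (k + 1) * ‖b‖ ^ 2 := by
        rw [inv_pow, inv_inv]
        exact mul_le_mul_of_nonneg_left h2 (by positivity)
    _ ≤ (p : ℝ) ^ (k + 1) * (((p : ℝ) ^ k)⁻¹ * ‖a‖) ^ 2 :=
        mul_le_mul_of_nonneg_left (pow_le_pow_left₀ (norm_nonneg _) hbn 2) (by positivity)
    _ = ((p : ℝ) * ‖a‖ ^ 2) * ((p : ℝ)⁻¹) ^ k := by
        have hk : (p : ℝ) ^ k ≠ 0 := by positivity
        rw [pow_succ, mul_pow, inv_pow (p : ℝ) k]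
        field_simp
    _ ≤ _ := by
        apply mul_le_mul_of_nonneg_left _ (by positivity)
        apply pow_le_pow_left₀ (by positivity)
        rw [one_div]
        exact inv_anti₀ (by norm_num) hp2

/-- elements close to one have a logarithm -/
theorem exists_log [CompleteSpace A] (u : A) (hu : ‖u - 1‖ ≤ rad p) :
    ∃ X : A, IsLog p u X ∧ ‖u - 1 - X‖ ≤ 2 * p * ‖u - 1‖ ^ 2 := by
  set a := u - 1 with ha
  have hu' : u = 1 + a := by rw [ha]; abel
  have hc : CauchySeq fun k : ℕ => ((p : ℚ_[p]) ^ k)⁻¹ • ((1 + a) ^ p ^ k - 1) :=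
    cauchySeq_of_le_geometric (1 / 2) ((p : ℝ) * ‖a‖ ^ 2) (by norm_num) (step_le a hu)
  obtain ⟨X, hX⟩ := cauchySeq_tendsto_of_complete hc
  refine ⟨X, by rw [hu']; exact hX, ?_⟩
  have h1 := dist_le_of_le_geometric_of_tendsto₀ (1 / 2) ((p : ℝ) * ‖a‖ ^ 2) (by norm_num)
    (step_le a hu) hX
  simp only [pow_zero, inv_one, one_smul, pow_one, add_sub_cancel_left] at h1
  rw [dist_eq_norm] at h1
  refine h1.trans (le_of_eq ?_)
  ring

end Normed

end Pool.Agent.Y138.ZO
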