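import Pool.Agent.Y138.ZO.Log

/-!
# Logarithms: the closed subalgebra generated by the logarithm; unipotent elements
-/

set_option autoImplicit false
set_option linter.unusedSectionVars false

open Filter Topology

namespace Pool.Agent.Y138.ZO

section Normed

variable {A : Type*} [NormedRing A] [IsUltrametricDist A] [NormOneClass A]
  {p : ℕ} [hp : Fact p.Prime] [NormedAlgebra ℚ_[p] A]

theorem norm_sub_le_max' (a b : A) : ‖a - b‖ ≤ max ‖a‖ ‖b‖ := by
  rw [sub_eq_add_neg, ← norm_neg b]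
  exact IsUltrametricDist.norm_add_le_max _ _

theorem exists_inv [CompleteSpace A] (x : A) (hx : ‖x‖ ≤ rad p) :
    ∃ y : A, (1 + x) * y = 1 ∧ y * (1 + x) = 1 ∧ ‖y‖ ≤ 1 ∧ ∀ c : A, Commute c x → Commute c y := by
  have hx1 : ‖-x‖ < 1 := by
    rw [norm_neg]
    exact hx.trans_lt (rad_le.trans_lt (by norm_num))
  have h1 : (1 + x) = ((Units.oneSub (-x) hx1 : Aˣ) : A) := by
    rw [Units.val_oneSub, sub_neg_eq_add]
  refine ⟨(((Units.oneSub (-x) hx1)⁻¹ : Aˣ) : A), ?_, ?_, ?_, ?_⟩
  · rw [h1, Units.mul_inv]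
  · rw [h1, Units.inv_mul]
  · set y : A := (((Units.oneSub (-x) hx1)⁻¹ : Aˣ) : A) with hy
    have h2 : y = 1 - x * y := by
      have h3 : (1 + x) * y = 1 := by rw [h1, hy, Units.mul_inv]
      rw [add_mul, one_mul] at h3
      exact eq_sub_of_add_eq h3
    by_contra hcon
    push Not at hcon
    have h4 : ‖y‖ ≤ max ‖(1 : A)‖ ‖x * y‖ := by
      conv_lhs => rw [h2]
      exact norm_sub_le_max' _ _
    rw [norm_one] at h4
    rcases le_max_iff.1 h4 with h5 | h5
    · linarith
    · have h6 := h5.trans (norm_mul_le x y)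
      have h7 : ‖x‖ * ‖y‖ ≤ 1 / 8 * ‖y‖ :=
        mul_le_mul_of_nonneg_right (hx.trans rad_le) (norm_nonneg _)
      linarith
  · intro c hc
    have h2 : Commute c ((Units.oneSub (-x) hx1 : Aˣ) : A) := by
      rw [← h1]
      exact (Commute.one_right c).add_right hc
    exact h2.units_inv_right

theorem mem_adjoin [CompleteSpace A] [FiniteDimensional ℚ_[p] A] (u X : A)
    (hu : ‖u - 1‖ ≤ rad p) (hX : IsLog p u X) : u ∈ Algebra.adjoin ℚ_[p] {X} := by
  set B : Subalgebra ℚ_[p] A := Algebra.adjoin ℚ_[p] {X} with hB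
  have hcl : IsClosed (B : Set A) := Submodule.closed_of_finiteDimensional (Subalgebra.toSubmodule B)
  set a := u - 1 with ha
  suffices h : a ∈ B by
    have : u = 1 + a := by rw [ha]; abel
    rw [this]
    exact B.add_mem B.one_mem h
  by_contra hcon
  have hne : (B : Set A).Nonempty := ⟨0, B.zero_mem⟩
  have hd : 0 < Metric.infDist a B := (hcl.notMem_iff_infDist_pos hne).1 hcon
  set d := Metric.infDist a (B : Set A) with hdd
  -- a good approximation
  obtain ⟨x, hxB, hx2, hxa⟩ : ∃ x ∈ B, ‖a - x‖ < 2 * d ∧ ‖a - x‖ ≤ ‖a‖ := by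
    rcases lt_or_ge ‖a‖ (2 * d) with h | h
    · exact ⟨0, B.zero_mem, by rwa [sub_zero], by rw [sub_zero]⟩
    · obtain ⟨x, hx, hx'⟩ := (Metric.infDist_lt_iff hne (r := 2 * d)).1 (by linarith)
      rw [dist_eq_norm] at hx'
      exact ⟨x, hx, hx', hx'.le.trans h⟩
  have hxn : ‖x‖ ≤ rad p := by
    have : x = a - (a - x) := by abel
    rw [this]
    exact (norm_sub_le_max' _ _).trans (max_le hu (hxa.trans hu))
  obtain ⟨y, hy1, hy2, hyn, hyc⟩ := exists_inv (p := p) x hxn
  obtain ⟨Z, hZ, -⟩ := exists_log (p := p) (1 + x) (by simpa using hxn)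
  have hcX : Commute u X := hX.commute (Commute.refl u)
  have hux : Commute u x := by
    have h1 : ∀ z ∈ B, Commute u z := by
      intro z hz
      refine Algebra.adjoin_induction (p := fun z _ => Commute u z) ?_ ?_ ?_ ?_ hz
      · intro z hz
        rw [Set.mem_singleton_iff] at hz
        rw [hz]
        exact hcX
      · intro r
        exact Algebra.commutes r u |>.symm
      · intro z w _ _ h1 h2
        exact h1.add_right h2
      · intro z w _ _ h1 h2
        exact h1.mul_right h2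
    exact h1 x hxB
  have huy : Commute u y := hyc u hux
  have hyx : y - 1 = -(x * y) := by
    rw [add_mul, one_mul] at hy1
    rw [← hy1]
    abel
  obtain ⟨Y, hY, -⟩ := exists_log (p := p) y (by
    rw [hyx, norm_neg]
    exact (norm_mul_le _ _).trans ((mul_le_of_le_one_right (norm_nonneg _) hyn).trans hxn))
  have hlogy : IsLog p y (-Z) := hZ.inv hY hy1 hy2
  have hw : u * y - 1 = (a - x) * y := by
    have : a - x = u - (1 + x) := by rw [ha]; abel
    rw [this, sub_mul, hy1]
  have hwn : ‖u * y - 1‖ ≤ ‖a - x‖ := by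
    rw [hw]
    exact (norm_mul_le _ _).trans (mul_le_of_le_one_right (norm_nonneg _) hyn)
  obtain ⟨W, hW, hW2⟩ := exists_log (p := p) (u * y) (hwn.trans (hxa.trans hu))
  have hWe : W = X - Z := by
    rw [sub_eq_add_neg]
    exact hW.unique (hX.mul hlogy huy)
  -- the improved approximation
  have hZB : Z ∈ B := by
    refine hZ.mem (Subalgebra.toSubmodule B) hcl fun k => ?_
    exact B.sub_mem (B.pow_mem (B.add_mem B.one_mem hxB) _) B.one_mem
  have hx'B : x + (X - Z) ∈ B := B.add_mem hxB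
    (B.sub_mem (Algebra.subset_adjoin (Set.mem_singleton X)) hZB)
  have hlt : ‖a - (x + (X - Z))‖ ≤ 1 / 2 * ‖a - x‖ := by
    have h1 : a - (x + (X - Z)) = (a - x) * (x * y) + (u * y - 1 - W) := by
      rw [hWe, hw]
      have : (a - x) * y = (a - x) + (a - x) * (y - 1) := by noncomm_ring
      rw [this, hyx]
      noncomm_ring
    rw [h1]
    refine (IsUltrametricDist.norm_add_le_max _ _).trans (max_le ?_ ?_)
    · have h2 : ‖x * y‖ ≤ 1 / 2 := (norm_mul_le _ _).trans
        ((mul_le_of_le_one_right (norm_nonneg _) hyn).trans (hxn.trans (rad_le.trans (by norm_num))))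
      calc ‖(a - x) * (x * y)‖ ≤ ‖a - x‖ * ‖x * y‖ := norm_mul_le _ _
        _ ≤ ‖a - x‖ * (1 / 2) := mul_le_mul_of_nonneg_left h2 (norm_nonneg _)
        _ = _ := by ring
    · refine hW2.trans ?_
      have hp0 : (0 : ℝ) < p := by exact_mod_cast hp.out.pos
      have h3 : ‖u * y - 1‖ ≤ rad p := hwn.trans (hxa.trans hu)
      have h4 := p_rad (p := p)
      have h5 : (p : ℝ) * ‖u * y - 1‖ ≤ 1 / 4 :=
        (mul_le_mul_of_nonneg_left h3 hp0.le).trans h4
      calc 2 * p * ‖u * y - 1‖ ^ 2 = 2 * (p * ‖u * y - 1‖) * ‖u * y - 1‖ := by ring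
        _ ≤ 2 * (1 / 4) * ‖a - x‖ := by
            apply mul_le_mul _ hwn (norm_nonneg _) (by norm_num)
            linarith
        _ = _ := by ring
  have h6 : d ≤ dist a (x + (X - Z)) := Metric.infDist_le_dist_of_mem hx'B
  rw [dist_eq_norm] at h6
  linarith

end Normed

section Nil

variable {p : ℕ} [hp : Fact p.Prime]

theorem choose_tendsto (m : ℕ) :
    Tendsto (fun k : ℕ => ((p : ℚ_[p]) ^ k)⁻¹ * (((p ^ k).choose (m + 1) : ℕ) : ℚ_[p])) atTop
      (𝓝 ((-1) ^ m / (m + 1))) := by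
  induction m with
  | zero =>
    have : ∀ k : ℕ, ((p : ℚ_[p]) ^ k)⁻¹ * (((p ^ k).choose (0 + 1) : ℕ) : ℚ_[p]) = 1 := by
      intro k
      rw [zero_add, Nat.choose_one_right, Nat.cast_pow, inv_mul_cancel₀ (pow_ne_zero k pne)]
    simp only [this]
    simp
  | succ m ih =>
    have h1 : ∀ k : ℕ, ((p : ℚ_[p]) ^ k)⁻¹ * (((p ^ k).choose (m + 1 + 1) : ℕ) : ℚ_[p]) =
        (((p : ℚ_[p]) ^ k)⁻¹ * (((p ^ k).choose (m + 1) : ℕ) : ℚ_[p])) *
          (((p : ℚ_[p]) ^ k - (m + 1)) / (m + 2)) := by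
      intro k
      have h2 : (((p ^ k).choose (m + 1 + 1) : ℕ) : ℚ_[p]) * (m + 2) =
          (((p ^ k).choose (m + 1) : ℕ) : ℚ_[p]) * ((p : ℚ_[p]) ^ k - (m + 1)) := by
        have h3 := Nat.choose_succ_right_eq (p ^ k) (m + 1)
        rcases le_or_gt (m + 1) (p ^ k) with h4 | h4
        · have h5 := congrArg (fun n : ℕ => (n : ℚ_[p])) h3
          simp only [Nat.cast_mul, Nat.cast_sub h4] at h5
          push_cast at h5
          rw [← h5]
          ring
        · rw [Nat.choose_eq_zero_of_lt h4, Nat.choose_eq_zero_of_lt (by omega)]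
          simp
      have h6 : ((m : ℚ_[p]) + 2) ≠ 0 := by
        have : ((m + 2 : ℕ) : ℚ_[p]) ≠ 0 := by exact_mod_cast (by omega : m + 2 ≠ 0)
        push_cast at this
        exact this
      rw [mul_assoc, mul_div_assoc', ← h2, mul_div_assoc, div_self h6, mul_one]
    simp only [h1]
    have h7 : Tendsto (fun k : ℕ => ((p : ℚ_[p]) ^ k - (m + 1)) / (m + 2)) atTop
        (𝓝 ((0 - (m + 1)) / (m + 2))) := (pow_tendsto_zero.sub_const _).div_const _
    have h8 := ih.mul h7
    refine h8.congr' (Eventually.of_forall fun _ => rfl) |>.trans (le_of_eq ?_)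
    congr 1
    have h9 : ((m : ℚ_[p]) + 1) ≠ 0 := by
      have : ((m + 1 : ℕ) : ℚ_[p]) ≠ 0 := by exact_mod_cast (by omega : m + 1 ≠ 0)
      push_cast at this
      exact this
    push_cast
    rw [zero_sub, pow_succ]
    field_simp
    ring

variable {A : Type*} [Ring A] [Algebra ℚ_[p] A] [TopologicalSpace A]
  [IsTopologicalRing A] [ContinuousSMul ℚ_[p] A]

/-- the logarithm of a unipotent element -/
theorem exists_log_nilpotent (N : A) (hN : IsNilpotent N) :
    ∃ X m : A, IsLog p (1 + N) X ∧ X = N * (1 + N * m) ∧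
      ∀ S : Subalgebra ℚ_[p] A, N ∈ S → m ∈ S := by
  obtain ⟨r, hr⟩ := hN
  refine ⟨∑ j ∈ Finset.range r, ((-1) ^ j / ((j : ℚ_[p]) + 1)) • N ^ (j + 1),
    ∑ j ∈ Finset.range r, ((-1) ^ (j + 1) / ((j : ℚ_[p]) + 2)) • N ^ j, ?_, ?_, ?_⟩
  · have h1 : ∀ n : ℕ, (1 + N) ^ n - 1 = ∑ j ∈ Finset.range r, ((n.choose (j + 1) : ℕ) : A) *
        N ^ (j + 1) := by
      intro n
      rw [add_comm, (Commute.one_right N).add_pow]
      have h2 : ∑ m ∈ Finset.range (n + 1), N ^ m * 1 ^ (n - m) * ((n.choose m : ℕ) : A) =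
          ∑ m ∈ Finset.range (max n r + 1), ((n.choose m : ℕ) : A) * N ^ m := by
        rw [← Finset.sum_subset (Finset.range_mono (by omega : n + 1 ≤ max n r + 1))]
        · refine Finset.sum_congr rfl fun m _ => ?_
          rw [one_pow, mul_one, (Nat.cast_commute (n.choose m) (N ^ m)).eq]
        · intro m _ hm
          rw [Finset.mem_range, not_lt] at hm
          rw [Nat.choose_eq_zero_of_lt (by omega), Nat.cast_zero, zero_mul]
      rw [h2, Finset.sum_range_succ']
      rw [Nat.choose_zero_right, Nat.cast_one, pow_zero, mul_one, add_sub_cancel_right]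
      symm
      refine Finset.sum_subset (Finset.range_mono (le_max_right n r)) ?_
      intro m _ hm
      rw [Finset.mem_range, not_lt] at hm
      rw [pow_eq_zero_of_le (by omega : r ≤ m + 1) hr, mul_zero]
    unfold IsLog
    simp only [h1, Finset.smul_sum]
    refine tendsto_finsetSum _ fun j _ => ?_
    have h3 : ∀ k : ℕ, ((p : ℚ_[p]) ^ k)⁻¹ • ((((p ^ k).choose (j + 1) : ℕ) : A) * N ^ (j + 1)) =
        (((p : ℚ_[p]) ^ k)⁻¹ * (((p ^ k).choose (j + 1) : ℕ) : ℚ_[p])) • N ^ (j + 1) := by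
      intro k
      rw [mul_smul]
      congr 1
      rw [Algebra.smul_def, map_natCast]
    simp only [h3]
    exact (choose_tendsto j).smul_const _
  · rw [Finset.mul_sum]
    cases r with
    | zero =>
      have : (1 : A) = 0 := by rw [← hr, pow_zero]
      have h0 : ∀ x : A, x = 0 := fun x => by rw [← mul_one x, this, mul_zero]
      rw [h0 (∑ j ∈ Finset.range 0, _), h0 (N * _)]
    | succ r =>
      rw [Finset.sum_range_succ', Finset.sum_range_succ, mul_add, mul_one, mul_add, Finset.mul_sum]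
      have h4 : N * (N * (((-1) ^ (r + 1) / ((r : ℚ_[p]) + 2)) • N ^ r)) = 0 := by
        rw [mul_smul_comm, mul_smul_comm, ← pow_succ', ← pow_succ',
          pow_eq_zero_of_le (by omega : r + 1 ≤ r + 1 + 1) hr, smul_zero]
      rw [h4, add_zero, add_comm]
      congr 1
      · simp
      · refine Finset.sum_congr rfl fun j _ => ?_
        rw [mul_smul_comm, mul_smul_comm, ← pow_succ', ← pow_succ']
        congr 2
        push_cast
        ring
  · intro S hS
    exact S.sum_mem fun j _ => S.smul_mem (S.pow_mem hS _) _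

end Nil

end Pool.Agent.Y138.ZO
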