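import Mathlib

/-!
# Closed null sets are small in finite quotients
-/

set_option autoImplicit false
set_option linter.unusedSectionVars false

open MeasureTheory Filter Topology

namespace Pool.Agent.Y138.ZO

variable {G : Type*} [Group G] [TopologicalSpace G] [IsTopologicalGroup G]
  [MeasurableSpace G] [BorelSpace G] (μ : Measure G) [μ.IsMulLeftInvariant]
  [IsFiniteMeasure μ]

theorem measure_coset (U : Subgroup G) (c : G ⧸ U) :
    μ ((fun x : G => (x : G ⧸ U)) ⁻¹' {c}) = μ (U : Set G) := by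
  obtain ⟨g, rfl⟩ := QuotientGroup.mk_surjective c
  have h1 : (fun x : G => (x : G ⧸ U)) ⁻¹' {(g : G ⧸ U)} = (fun x => g⁻¹ * x) ⁻¹' (U : Set G) := by
    ext x
    simp only [Set.mem_preimage, Set.mem_singleton_iff]
    rw [eq_comm, QuotientGroup.eq]
    rfl
  rw [h1, measure_preimage_mul]

theorem measure_preimage_card (U : Subgroup G) (hU : IsOpen (U : Set G)) [Finite (G ⧸ U)]
    (C : Set (G ⧸ U)) :
    μ ((fun x : G => (x : G ⧸ U)) ⁻¹' C) = (Nat.card C : ENNReal) * μ (U : Set G) := by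
  have hC : C.Finite := Set.toFinite C
  have h1 := tsum_measure_preimage_singleton (μ := μ) (f := fun x : G => (x : G ⧸ U))
    hC.countable (by
      intro y _
      obtain ⟨g, rfl⟩ := QuotientGroup.mk_surjective y
      have h1 : (fun x : G => (x : G ⧸ U)) ⁻¹' {(g : G ⧸ U)} =
          (fun x => g⁻¹ * x) ⁻¹' (U : Set G) := by
        ext x
        simp only [Set.mem_preimage, Set.mem_singleton_iff]
        rw [eq_comm, QuotientGroup.eq]
        rfl
      rw [h1]
      exact (hU.preimage (continuous_const.mul continuous_id)).measurableSet)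
  rw [← h1]
  simp only [measure_coset]
  have : Finite C := hC
  have : Fintype C := Fintype.ofFinite C
  rw [tsum_fintype, Finset.sum_const, Finset.card_univ, nsmul_eq_mul, Nat.card_eq_fintype_card]

/-- A closed null set meets only a small proportion of the cosets of a small open subgroup. -/
theorem exists_small [CompactSpace G] [TotallyDisconnectedSpace G] [μ.OuterRegular]
    (hμ : μ Set.univ ≠ 0) (Z : Set G) (hZ : IsClosed Z) (hZ0 : μ Z = 0) (ε : ℝ) (hε : 0 < ε) :
    ∃ U : Subgroup G, U.Normal ∧ IsOpen (U : Set G) ∧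
      (Nat.card ((fun x : G => (x : G ⧸ U)) '' Z) : ℝ) / (Nat.card (G ⧸ U) : ℝ) < ε := by
  have h1 : μ Z < ENNReal.ofReal ε * μ Set.univ := by
    rw [hZ0]
    exact ENNReal.mul_pos (by simpa using hε) hμ
  obtain ⟨O, hZO, hO, hOε⟩ := Z.exists_isOpen_lt_of_lt _ h1
  obtain ⟨V, hV, hZV⟩ := compact_open_separated_mul_right hZ.isCompact hO hZO
  obtain ⟨V', hV'V, hV'o, hV'1⟩ := mem_nhds_iff.1 hV
  obtain ⟨N, hN⟩ := ProfiniteGrp.exist_openNormalSubgroup_sub_open_nhds_of_one hV'o hV'1
  refine ⟨N.toSubgroup, N.isNormal', N.isOpen', ?_⟩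
  set U : Subgroup G := N.toSubgroup
  have hUo : IsOpen (U : Set G) := N.isOpen'
  have hfin : Finite (G ⧸ U) := Subgroup.quotient_finite_of_isOpen U hUo
  set C := (fun x : G => (x : G ⧸ U)) '' Z with hC
  have h2 : (fun x : G => (x : G ⧸ U)) ⁻¹' C ⊆ O := by
    rintro x ⟨z, hz, hzx⟩
    have h3 : z⁻¹ * x ∈ U := QuotientGroup.eq.1 hzx
    have h4 : z * (z⁻¹ * x) ∈ O := hZV (Set.mul_mem_mul hz (hV'V (hN h3)))
    rwa [mul_inv_cancel_left] at h4
  have h3 := (measure_mono h2).trans_lt hOε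
  rw [measure_preimage_card μ U hUo] at h3
  have h4 : μ Set.univ = (Nat.card (G ⧸ U) : ENNReal) * μ (U : Set G) := by
    have := measure_preimage_card μ U hUo Set.univ
    rwa [Set.preimage_univ, Nat.card_univ] at this
  have hU0 : μ (U : Set G) ≠ 0 := by
    intro h0
    rw [h0, mul_zero] at h4
    exact hμ h4
  have hUt : μ (U : Set G) ≠ ⊤ := measure_ne_top μ _
  rw [h4, ← mul_assoc] at h3
  have h5 : (Nat.card C : ENNReal) < ENNReal.ofReal ε * (Nat.card (G ⧸ U) : ENNReal) := by
    by_contra hcon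
    exact absurd (mul_le_mul_left (not_lt.1 hcon) (μ (U : Set G))) (not_le.2 h3)
  have hcard : 0 < Nat.card (G ⧸ U) := Nat.card_pos
  rw [div_lt_iff₀ (by exact_mod_cast hcard)]
  have h6 : (Nat.card C : ENNReal) = ENNReal.ofReal (Nat.card C : ℝ) := by
    rw [ENNReal.ofReal_natCast]
  have h7 : ENNReal.ofReal ε * (Nat.card (G ⧸ U) : ENNReal) =
      ENNReal.ofReal (ε * (Nat.card (G ⧸ U) : ℝ)) := by
    rw [ENNReal.ofReal_mul hε.le, ENNReal.ofReal_natCast]
  rw [h6, h7] at h5
  exact (ENNReal.ofReal_lt_ofReal_iff (by positivity)).1 h5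

end Pool.Agent.Y138.ZO
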