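import Pool.Agent.Y138.ZO.Null
import Pool.Agent.Y138.ZO.Small
import Pool.Agent.Y138.ZO.Fu

/-!
# Zero-one law for semisimplicity of Frobenius in families
-/

set_option autoImplicit false
set_option linter.unusedSectionVars false

open MeasureTheory Filter Topology

namespace Pool.Agent.Y138.ZO

/-- `A` has Dirichlet density `δ` among the points `P`: the quotient of the Dirichlet series
`∑ q ^ (- t deg s)` over `A` and over `P` tends to `δ` as `t` decreases to `d`. -/
def HasDensity {P : Type*} (q d : ℝ) (deg : P → ℕ) (A : Set P) (δ : ℝ) : Prop :=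
  Tendsto (fun t : ℝ => (∑' s : A, q ^ (-(t * (deg s : ℝ)))) / ∑' s : P, q ^ (-(t * (deg s : ℝ))))
    (𝓝[>] d) (𝓝 δ)

/-- The arithmetic fundamental group `G` of a geometrically connected normal scheme `S` of finite
type and dimension `d` over the field with `q` elements, with the closed points `P` of `S`:
`geom` is the geometric fundamental group, `phi` an element of degree one, `deg` the degree of a
closed point and `frob` a choice of Frobenius elements; the last two fields are the convergence of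
the zeta function of `S` for `t > d` and the Chebotarev density theorem for `S`. -/
structure FrobData (G : Type*) [Group G] [TopologicalSpace G] [IsTopologicalGroup G]
    (P : Type*) where
  geom : Subgroup G
  normal : geom.Normal
  phi : G
  dense : (geom ⊔ Subgroup.zpowers phi).topologicalClosure = ⊤
  deg : P → ℕ
  deg_pos : ∀ s, 0 < deg s
  frob : P → G
  frob_mem : ∀ s, (phi ^ deg s)⁻¹ * frob s ∈ geom
  q : ℝ
  q_gt : 1 < q
  d : ℝ
  summable : ∀ t : ℝ, d < t → Summable fun s => q ^ (-(t * (deg s : ℝ)))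
  chebotarev : ∀ U : Subgroup G, U.Normal → IsOpen (U : Set G) → ∀ C : Set (G ⧸ U),
    (∀ g x : G, (x : G ⧸ U) ∈ C → ((g * x * g⁻¹ : G) : G ⧸ U) ∈ C) →
      HasDensity q d deg {s | (frob s : G ⧸ U) ∈ C} ((Nat.card C : ℝ) / (Nat.card (G ⧸ U) : ℝ))

section Density

variable {P : Type*} {q d : ℝ} {deg : P → ℕ}

theorem tsum_mono_set (hq : 1 < q) {t : ℝ} (hs : Summable fun s => q ^ (-(t * (deg s : ℝ))))
    {A B : Set P} (hAB : A ⊆ B) :
    ∑' s : A, q ^ (-(t * (deg s : ℝ))) ≤ ∑' s : B, q ^ (-(t * (deg s : ℝ))) := by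
  have hnn : ∀ s : P, 0 ≤ q ^ (-(t * (deg s : ℝ))) := fun s => Real.rpow_nonneg (by linarith) _
  rw [tsum_subtype A (fun s : P => q ^ (-(t * (deg s : ℝ)))),
    tsum_subtype B (fun s : P => q ^ (-(t * (deg s : ℝ))))]
  refine Summable.tsum_le_tsum (fun s => ?_) (hs.indicator A) (hs.indicator B)
  exact Set.indicator_le_indicator_of_subset hAB (fun s => hnn s) s

theorem tsum_compl {t : ℝ} (hs : Summable fun s => q ^ (-(t * (deg s : ℝ))))
    (A : Set P) :
    (∑' s : A, q ^ (-(t * (deg s : ℝ)))) + ∑' s : (Aᶜ : Set P), q ^ (-(t * (deg s : ℝ))) =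
      ∑' s : P, q ^ (-(t * (deg s : ℝ))) :=
  (hs.subtype A).tsum_add_tsum_compl (hs.subtype _)

theorem tsum_union_le (hq : 1 < q) {t : ℝ} (hs : Summable fun s => q ^ (-(t * (deg s : ℝ))))
    (A B : Set P) :
    ∑' s : (A ∪ B : Set P), q ^ (-(t * (deg s : ℝ))) ≤
      (∑' s : A, q ^ (-(t * (deg s : ℝ)))) + ∑' s : B, q ^ (-(t * (deg s : ℝ))) := by
  have hnn : ∀ s : P, 0 ≤ q ^ (-(t * (deg s : ℝ))) := fun s => Real.rpow_nonneg (by linarith) _
  rw [tsum_subtype A (fun s : P => q ^ (-(t * (deg s : ℝ)))),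
    tsum_subtype B (fun s : P => q ^ (-(t * (deg s : ℝ)))),
    tsum_subtype (A ∪ B) (fun s : P => q ^ (-(t * (deg s : ℝ)))),
    ← (hs.indicator A).tsum_add (hs.indicator B)]
  refine Summable.tsum_le_tsum (fun s => ?_) (hs.indicator _)
    ((hs.indicator A).add (hs.indicator B))
  by_cases hA : s ∈ A
  · by_cases hB : s ∈ B
    · rw [Set.indicator_of_mem hA, Set.indicator_of_mem hB, Set.indicator_of_mem (Set.mem_union_left B hA)]
      linarith [hnn s]
    · rw [Set.indicator_of_mem hA, Set.indicator_of_notMem hB, Set.indicator_of_mem (Set.mem_union_left B hA),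
        add_zero]
  · by_cases hB : s ∈ B
    · rw [Set.indicator_of_notMem hA, Set.indicator_of_mem hB, Set.indicator_of_mem (Set.mem_union_right A hB),
        zero_add]
    · rw [Set.indicator_of_notMem hA, Set.indicator_of_notMem hB,
        Set.indicator_of_notMem (by rintro (h | h); exacts [hA h, hB h]), add_zero]

end Density

section Main

variable {G P : Type*} [Group G] [TopologicalSpace G] [IsTopologicalGroup G] [CompactSpace G]
  [TotallyDisconnectedSpace G] (D : FrobData G P)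

theorem FrobData.ratio_nonneg (t : ℝ) (B : Set P) : 0 ≤ (∑' s : B, D.q ^ (-(t * (D.deg s : ℝ)))) /
      ∑' s : P, D.q ^ (-(t * (D.deg s : ℝ))) := by
  apply div_nonneg
  · exact tsum_nonneg fun s => Real.rpow_nonneg (by linarith [D.q_gt]) _
  · exact tsum_nonneg fun s => Real.rpow_nonneg (by linarith [D.q_gt]) _

theorem FrobData.total_nonneg (t : ℝ) : 0 ≤ ∑' s : P, D.q ^ (-(t * (D.deg s : ℝ))) :=
  tsum_nonneg fun s => Real.rpow_nonneg (by linarith [D.q_gt]) _

/-- total mass -/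
theorem FrobData.density_univ : HasDensity D.q D.d D.deg Set.univ 1 := by
  have h := D.chebotarev ⊤ inferInstance isOpen_univ Set.univ (fun _ _ _ => Set.mem_univ _)
  have h1 : (Nat.card (Set.univ : Set (G ⧸ (⊤ : Subgroup G))) : ℝ) /
      (Nat.card (G ⧸ (⊤ : Subgroup G)) : ℝ) = 1 := by
    rw [Nat.card_univ]
    have h2 : Nat.card (G ⧸ (⊤ : Subgroup G)) = 1 := by
      have : (⊤ : Subgroup G).index = 1 := Subgroup.index_top
      exact this
    rw [h2]
    norm_num
  rw [h1] at h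
  have h2 : {s | (D.frob s : G ⧸ (⊤ : Subgroup G)) ∈ (Set.univ : Set (G ⧸ (⊤ : Subgroup G)))} =
      Set.univ := by
    ext s
    simp
  rwa [h2] at h

theorem FrobData.zero_mono {A B : Set P} (hAB : A ⊆ B) (hB : HasDensity D.q D.d D.deg B 0) :
    HasDensity D.q D.d D.deg A 0 := by
  unfold HasDensity at hB ⊢
  refine squeeze_zero' (Eventually.of_forall fun t => D.ratio_nonneg t A) ?_ hB
  have h3 : ∀ᶠ t in 𝓝[>] D.d, D.d < t := self_mem_nhdsWithin
  filter_upwards [h3] with t ht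
  exact div_le_div_of_nonneg_right (tsum_mono_set D.q_gt (D.summable t ht) hAB)
    (D.total_nonneg t)

theorem FrobData.zero_union {A B : Set P} (hA : HasDensity D.q D.d D.deg A 0)
    (hB : HasDensity D.q D.d D.deg B 0) : HasDensity D.q D.d D.deg (A ∪ B) 0 := by
  unfold HasDensity at hA hB ⊢
  have h := hA.add hB
  rw [add_zero] at h
  refine squeeze_zero' (Eventually.of_forall fun t => D.ratio_nonneg t _) ?_ h
  have h3 : ∀ᶠ t in 𝓝[>] D.d, D.d < t := self_mem_nhdsWithin
  filter_upwards [h3] with t ht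
  rw [← add_div]
  exact div_le_div_of_nonneg_right (tsum_union_le D.q_gt (D.summable t ht) A B)
    (D.total_nonneg t)

theorem FrobData.zero_empty : HasDensity D.q D.d D.deg ∅ 0 := by
  unfold HasDensity
  have h2 : (fun t : ℝ => (∑' s : (∅ : Set P), D.q ^ (-(t * (D.deg s : ℝ)))) /
      ∑' s : P, D.q ^ (-(t * (D.deg s : ℝ)))) = fun _ => 0 := by
    ext t
    rw [tsum_empty, zero_div]
  rw [h2]
  exact tendsto_const_nhds

theorem FrobData.zero_iUnion {R : Type*} [Finite R] {A : R → Set P}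
    (hA : ∀ r, HasDensity D.q D.d D.deg (A r) 0) : HasDensity D.q D.d D.deg (⋃ r, A r) 0 := by
  classical
  have := Fintype.ofFinite R
  have h1 : ∀ T : Finset R, HasDensity D.q D.d D.deg (⋃ r ∈ T, A r) 0 := by
    intro T
    induction T using Finset.induction_on with
    | empty => simpa using D.zero_empty
    | insert a T _ ih =>
      rw [Finset.set_biUnion_insert]
      exact D.zero_union (hA a) ih
  have h2 := h1 Finset.univ
  simpa using h2

/-- sets of points lying over a closed conjugation stable null set have density zero -/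
theorem FrobData.density_zero {A : Set P} (hZ : ∀ ε : ℝ, 0 < ε → ∃ U : Subgroup G, U.Normal ∧
    IsOpen (U : Set G) ∧ ∃ C : Set (G ⧸ U),
      (∀ g x : G, (x : G ⧸ U) ∈ C → ((g * x * g⁻¹ : G) : G ⧸ U) ∈ C) ∧
      (Nat.card C : ℝ) / (Nat.card (G ⧸ U) : ℝ) < ε ∧ A ⊆ {s | (D.frob s : G ⧸ U) ∈ C}) :
    HasDensity D.q D.d D.deg A 0 := by
  unfold HasDensity
  rw [Metric.tendsto_nhds]
  intro ε hε
  obtain ⟨U, hUn, hUo, C, hC, hlt, hsub⟩ := hZ ε hε
  have h1 := D.chebotarev U hUn hUo C hC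
  have h2 := (tendsto_order.1 h1).2 ε hlt
  have h3 : ∀ᶠ t in 𝓝[>] D.d, D.d < t := self_mem_nhdsWithin
  filter_upwards [h2, h3] with t ht htd
  rw [Real.dist_0_eq_abs, abs_of_nonneg (D.ratio_nonneg t A)]
  refine lt_of_le_of_lt ?_ ht
  exact div_le_div_of_nonneg_right (tsum_mono_set D.q_gt (D.summable t htd) hsub)
    (D.total_nonneg t)

theorem FrobData.density_compl {A : Set P} (hA : HasDensity D.q D.d D.deg A 0) :
    HasDensity D.q D.d D.deg Aᶜ 1 := by
  have h1 := D.density_univ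
  unfold HasDensity at h1 hA ⊢
  have h2 := h1.sub hA
  rw [sub_zero] at h2
  refine h2.congr' ?_
  have h3 : ∀ᶠ t in 𝓝[>] D.d, D.d < t := self_mem_nhdsWithin
  filter_upwards [h3] with t ht
  rw [← sub_div]
  congr 1
  have h4 := tsum_compl (D.summable t ht) A
  have h5 := tsum_univ (fun s : P => D.q ^ (-(t * (D.deg s : ℝ))))
  rw [h5, ← h4]
  ring

/-- the points where the number of eigenvalues is not the generic one have density zero -/
theorem FrobData.exists_generic {p : ℕ} [Fact p.Prime] {n : Type*} [Fintype n] [DecidableEq n]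
    (ρ : G →* Matrix n n ℚ_[p]) (hρ : Continuous ρ) (hss : IsSemisimpleRep ρ ⊤) :
    ∃ κ : G → ℕ, (∃ U : Subgroup G, U.Normal ∧ IsOpen (U : Set G) ∧
        ∀ x, ∀ u ∈ U, κ (x * u) = κ x) ∧
      (∀ g x, κ (g * x * g⁻¹) = κ x) ∧ (∀ x, NilDeg (κ x) (ρ x)) ∧
      HasDensity D.q D.d D.deg
        {s | (hankel (κ (D.frob s)) (ρ (D.frob s))).det = 0} 0 ∧
      ∀ x, (hankel (κ x) (ρ x)).det ≠ 0 → Module.End.IsSemisimple (Matrix.toLin' (ρ x)) := by
  let _ : MeasurableSpace G := borel G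
  have _ : BorelSpace G := ⟨rfl⟩
  let μ : Measure G := Measure.haar
  have hμ : μ Set.univ ≠ 0 := (isOpen_univ.measure_pos μ Set.univ_nonempty).ne'
  obtain ⟨κ, hκU, hκc, hκN, hZc, hZ0, hκss⟩ := Pool.Agent.Y138.ZO.exists_generic μ hμ ρ hρ hss
  refine ⟨κ, hκU, hκc, hκN, ?_, hκss⟩
  apply D.density_zero
  intro ε hε
  obtain ⟨U, hUn, hUo, hlt⟩ := exists_small μ hμ _ hZc hZ0 ε hε
  refine ⟨U, hUn, hUo, (fun x : G => (x : G ⧸ U)) '' {x | (hankel (κ x) (ρ x)).det = 0}, ?_, hlt,
    ?_⟩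
  · rintro g x ⟨z, hz, hzx⟩
    refine ⟨g * z * g⁻¹, ?_, ?_⟩
    · change (hankel (κ (g * z * g⁻¹)) (ρ (g * z * g⁻¹))).det = 0
      rw [hκc, map_mul, map_mul, hankel_conj (by rw [← map_mul, inv_mul_cancel, map_one])
        (by rw [← map_mul, mul_inv_cancel, map_one])]
      exact hz
    · have h2 : z⁻¹ * x ∈ U := QuotientGroup.eq.1 hzx
      apply QuotientGroup.eq.2
      have h3 : (g * z * g⁻¹)⁻¹ * (g * x * g⁻¹) = g * (z⁻¹ * x) * g⁻¹ := by group
      rw [h3]
      exact hUn.conj_mem _ h2 g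
  · intro s hs
    exact ⟨_, hs, rfl⟩

/-- every conjugacy class modulo an open normal subgroup is met by Frobenius elements outside a
given set of density zero -/
theorem FrobData.exists_frob {B : Set P} (hB : HasDensity D.q D.d D.deg B 0)
    (U : Subgroup G) (hUn : U.Normal) (hUo : IsOpen (U : Set G)) (x : G) :
    ∃ s ∉ B, ∃ g : G, ∃ u ∈ U, D.frob s = g * x * g⁻¹ * u := by
  by_contra hcon
  push Not at hcon
  have hfin : Finite (G ⧸ U) := Subgroup.quotient_finite_of_isOpen U hUo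
  let C : Set (G ⧸ U) := Set.range fun g : G => ((g * x * g⁻¹ : G) : G ⧸ U)
  have h1 := D.chebotarev U hUn hUo C (by
    rintro g y ⟨h, hh⟩
    refine ⟨g * h, ?_⟩
    apply QuotientGroup.eq.2
    have h2 : (h * x * h⁻¹)⁻¹ * y ∈ U := QuotientGroup.eq.1 hh
    have h3 : (g * h * x * (g * h)⁻¹)⁻¹ * (g * y * g⁻¹) = g * ((h * x * h⁻¹)⁻¹ * y) * g⁻¹ := by
      group
    rw [h3]
    exact hUn.conj_mem _ h2 g)
  have h2 : {s | (D.frob s : G ⧸ U) ∈ C} ⊆ B := by
    intro s hs
    by_contra hsB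
    obtain ⟨g, hg⟩ := hs
    have h3 : (g * x * g⁻¹)⁻¹ * D.frob s ∈ U := QuotientGroup.eq.1 hg
    exact hcon s hsB g _ h3 (by group)
  have h3 := D.zero_mono h2 hB
  have h4 := tendsto_nhds_unique h1 h3
  have h5 : 0 < Nat.card C := by
    have : Nonempty C := ⟨⟨_, ⟨1, rfl⟩⟩⟩
    exact Nat.card_pos
  have h6 : 0 < Nat.card (G ⧸ U) := Nat.card_pos
  have h7 : (0 : ℝ) < (Nat.card C : ℝ) / (Nat.card (G ⧸ U) : ℝ) := by positivity
  linarith

theorem hankel_rat {p : ℕ} [Fact p.Prime] {n : Type*} [Fintype n] [DecidableEq n]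
    {A : Matrix n n ℚ_[p]} {a : ℕ → ℚ} (h : ∀ m, (A ^ m).trace = (a m : ℚ_[p])) (k : ℕ) :
    (hankel k A).det =
      ((Matrix.of fun i j : Fin k => a ((i : ℕ) + (j : ℕ))).det : ℚ_[p]) := by
  have h1 : hankel k A =
      (Matrix.of fun i j : Fin k => a ((i : ℕ) + (j : ℕ))).map (Rat.castHom ℚ_[p]) := by
    ext i j
    simp only [hankel, Matrix.of_apply, Matrix.map_apply]
    rw [h]
    rfl
  rw [h1, ← RingHom.mapMatrix_apply, ← RingHom.map_det]
  rfl

/-- the generic number of eigenvalues does not depend on the prime -/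
theorem FrobData.generic_le {p p' : ℕ} [Fact p.Prime] [Fact p'.Prime] {n : Type*} [Fintype n]
    [DecidableEq n] (ρ : G →* Matrix n n ℚ_[p]) (ρ' : G →* Matrix n n ℚ_[p'])
    (a : P → ℕ → ℚ) (h : ∀ s m, (ρ (D.frob s) ^ m).trace = (a s m : ℚ_[p]))
    (h' : ∀ s m, (ρ' (D.frob s) ^ m).trace = (a s m : ℚ_[p']))
    {κ κ' : G → ℕ} (hU : ∃ U : Subgroup G, U.Normal ∧ IsOpen (U : Set G) ∧
        ∀ x, ∀ u ∈ U, κ (x * u) = κ x) (hU' : ∃ U : Subgroup G, U.Normal ∧ IsOpen (U : Set G) ∧
        ∀ x, ∀ u ∈ U, κ' (x * u) = κ' x) (hc : ∀ g x, κ (g * x * g⁻¹) = κ x)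
    (hc' : ∀ g x, κ' (g * x * g⁻¹) = κ' x) (hN : ∀ x, NilDeg (κ x) (ρ x))
    (hd' : HasDensity D.q D.d D.deg
        {s | (hankel (κ' (D.frob s)) (ρ' (D.frob s))).det = 0} 0) (x : G) : κ' x ≤ κ x := by
  obtain ⟨U, hUn, hUo, hUκ⟩ := hU
  obtain ⟨U', hUn', hUo', hUκ'⟩ := hU'
  obtain ⟨s, hs, g, u, hu, hsg⟩ := D.exists_frob hd' (U ⊓ U') inferInstance (hUo.inter hUo') x
  have h1 : κ (D.frob s) = κ x := by rw [hsg, hUκ _ u hu.1, hc]
  have h2 : κ' (D.frob s) = κ' x := by rw [hsg, hUκ' _ u hu.2, hc']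
  by_contra hlt
  rw [not_le] at hlt
  apply hs
  change (hankel (κ' (D.frob s)) (ρ' (D.frob s))).det = 0
  rw [h2, hankel_rat (h' s)]
  have h3 : NilDeg (κ' x - 1) (ρ (D.frob s)) := (h1 ▸ hN (D.frob s)).mono (by omega)
  have h4 := det_hankel_eq_zero h3
  have h5 : κ' x - 1 + 1 = κ' x := by omega
  rw [h5, hankel_rat (h s)] at h4
  have h6 : (Matrix.of fun i j : Fin (κ' x) => a s ((i : ℕ) + (j : ℕ))).det = 0 := by
    exact_mod_cast h4
  rw [h6, Rat.cast_zero]

/-- **Zero-one law**, all degrees and all primes simultaneously. -/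
theorem FrobData.zero_one {R L : Type*} [Finite R] (ℓ : L → ℕ) [∀ i, Fact (ℓ i).Prime]
    (b : R → ℕ) (ρ : ∀ (r : R) (i : L), G →* Matrix (Fin (b r)) (Fin (b r)) ℚ_[ℓ i])
    (hρ : ∀ r i, Continuous (ρ r i)) (hgeom : ∀ r i, IsSemisimpleRep (ρ r i) D.geom)
    (a : R → P → ℕ → ℚ) (ha : ∀ r i s m, (ρ r i (D.frob s) ^ m).trace = (a r s m : ℚ_[ℓ i])) :
    List.TFAE [∀ r i, ∃ s, Module.End.IsSemisimple (Matrix.toLin' (ρ r i (D.frob s))),
      ∃ s, ∀ r i, Module.End.IsSemisimple (Matrix.toLin' (ρ r i (D.frob s))),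
      ∀ r i, IsSemisimpleRep (ρ r i) ⊤,
      HasDensity D.q D.d D.deg
        {s | ∀ r i, Module.End.IsSemisimple (Matrix.toLin' (ρ r i (D.frob s)))} 1] := by
  tfae_have 1 → 3 := by
    intro h r i
    obtain ⟨s, hs⟩ := h r i
    exact semisimple_of_one (ρ r i) (hρ r i) D.geom D.normal D.phi D.dense (hgeom r i) (D.frob s)
      (D.deg s) (D.deg_pos s) (D.frob_mem s) hs
  tfae_have 3 → 4 := by
    intro h
    have h1 : HasDensity D.q D.d D.deg
        {s | ∀ r i, Module.End.IsSemisimple (Matrix.toLin' (ρ r i (D.frob s)))}ᶜ 0 := by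
      have h2 : ∀ r : R, HasDensity D.q D.d D.deg
          {s | ∀ i, Module.End.IsSemisimple (Matrix.toLin' (ρ r i (D.frob s)))}ᶜ 0 := by
        intro r
        by_cases hL : Nonempty L
        · obtain ⟨i₀⟩ := hL
          choose κ hκU hκc hκN hκd hκss using fun i => D.exists_generic (ρ r i) (hρ r i) (h r i)
          refine D.zero_mono ?_ (hκd i₀)
          intro s hs
          by_contra hne
          apply hs
          intro i
          apply hκss i
          have h3 : κ i (D.frob s) = κ i₀ (D.frob s) := le_antisymm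
            (D.generic_le (ρ r i₀) (ρ r i) (a r) (ha r i₀) (ha r i) (hκU i₀) (hκU i) (hκc i₀)
              (hκc i) (hκN i₀) (hκd i) _)
            (D.generic_le (ρ r i) (ρ r i₀) (a r) (ha r i) (ha r i₀) (hκU i) (hκU i₀) (hκc i)
              (hκc i₀) (hκN i) (hκd i₀) _)
          rw [h3, hankel_rat (ha r i s)]
          intro h0
          apply hne
          change (hankel (κ i₀ (D.frob s)) (ρ r i₀ (D.frob s))).det = 0
          rw [hankel_rat (ha r i₀ s)]
          have h6 : (Matrix.of fun i j : Fin (κ i₀ (D.frob s)) =>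
              a r s ((i : ℕ) + (j : ℕ))).det = 0 := by
            exact_mod_cast h0
          rw [h6, Rat.cast_zero]
        · have h3 : {s | ∀ i, Module.End.IsSemisimple (Matrix.toLin' (ρ r i (D.frob s)))}ᶜ = ∅ := by
            rw [Set.compl_empty_iff]
            ext s
            simp only [Set.mem_univ, iff_true]
            exact fun i => absurd ⟨i⟩ hL
          rw [h3]
          exact D.zero_empty
      refine D.zero_mono ?_ (D.zero_iUnion h2)
      intro s hs
      rw [Set.mem_iUnion]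
      by_contra hcon
      apply hs
      intro r i
      by_contra hri
      exact hcon ⟨r, fun h' => hri (h' i)⟩
    have h2 := D.density_compl h1
    rwa [compl_compl] at h2
  tfae_have 4 → 2 := by
    intro h
    by_contra hcon
    have h1 : {s | ∀ r i, Module.End.IsSemisimple (Matrix.toLin' (ρ r i (D.frob s)))} = ∅ := by
      ext s
      simp only [Set.mem_empty_iff_false, iff_false]
      exact fun hs => hcon ⟨s, hs⟩
    rw [h1] at h
    exact zero_ne_one (tendsto_nhds_unique D.zero_empty h)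
  tfae_have 2 → 1 := by
    rintro ⟨s, hs⟩ r i
    exact ⟨s, hs r i⟩
  tfae_finish

end Main

end Pool.Agent.Y138.ZO
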