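import Pool.Agent.Y138.ZO.Main

/-!
# Zero-one law for mixed sheaves
-/

set_option autoImplicit false
set_option linter.unusedSectionVars false

open MeasureTheory Filter Topology Polynomial

namespace Pool.Agent.Y138.ZO

section Block

variable {K : Type*} [Field K] {m : ℕ} {b : Fin m → ℕ}

/-- the diagonal block of index `w` -/
def diagBlock (A : Matrix (Σ w, Fin (b w)) (Σ w, Fin (b w)) K) (w : Fin m) :
    Matrix (Fin (b w)) (Fin (b w)) K :=
  Matrix.of fun i j => A ⟨w, i⟩ ⟨w, j⟩

/-- upper triangular block matrices: all entries whose row has a larger index than their column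
vanish -/
def IsBlockUpper (A : Matrix (Σ w, Fin (b w)) (Σ w, Fin (b w)) K) : Prop :=
  ∀ i j, j.1 < i.1 → A i j = 0

theorem IsBlockUpper.mul {A B : Matrix (Σ w, Fin (b w)) (Σ w, Fin (b w)) K} (hA : IsBlockUpper A)
    (hB : IsBlockUpper B) : IsBlockUpper (A * B) := by
  intro i j hij
  rw [Matrix.mul_apply]
  refine Finset.sum_eq_zero fun x _ => ?_
  by_cases hx : x.1 < i.1
  · rw [hA i x hx, zero_mul]
  · rw [hB x j (lt_of_lt_of_le hij (not_lt.1 hx)), mul_zero]

theorem IsBlockUpper.one : IsBlockUpper (1 : Matrix (Σ w, Fin (b w)) (Σ w, Fin (b w)) K) := by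
  intro i j hij
  rw [Matrix.one_apply, if_neg]
  rintro rfl
  exact lt_irrefl _ hij

theorem diagBlock_mul {A B : Matrix (Σ w, Fin (b w)) (Σ w, Fin (b w)) K} (hA : IsBlockUpper A)
    (hB : IsBlockUpper B) (w : Fin m) : diagBlock (A * B) w = diagBlock A w * diagBlock B w := by
  ext i j
  rw [diagBlock, Matrix.of_apply, Matrix.mul_apply, Matrix.mul_apply, Fintype.sum_sigma]
  rw [Finset.sum_eq_single w]
  · rfl
  · intro x _ hx
    refine Finset.sum_eq_zero fun y _ => ?_
    rcases lt_or_gt_of_ne hx with h | h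
    · rw [hA ⟨w, i⟩ ⟨x, y⟩ h, zero_mul]
    · rw [hB ⟨x, y⟩ ⟨w, j⟩ h, mul_zero]
  · intro h
    exact absurd (Finset.mem_univ w) h

theorem diagBlock_one (w : Fin m) :
    diagBlock (1 : Matrix (Σ w, Fin (b w)) (Σ w, Fin (b w)) K) w = 1 := by
  ext i j
  rw [diagBlock, Matrix.of_apply, Matrix.one_apply, Matrix.one_apply]
  by_cases h : i = j
  · subst h; simp
  · rw [if_neg h, if_neg]
    intro h'
    apply h
    have := eq_of_heq (Sigma.mk.inj h').2
    exact this

theorem pow_block {A : Matrix (Σ w, Fin (b w)) (Σ w, Fin (b w)) K} (hA : IsBlockUpper A) (k : ℕ) :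
    IsBlockUpper (A ^ k) ∧ ∀ w, diagBlock (A ^ k) w = diagBlock A w ^ k := by
  induction k with
  | zero => exact ⟨by rw [pow_zero]; exact IsBlockUpper.one, fun w => by
      rw [pow_zero, pow_zero, diagBlock_one]⟩
  | succ k ih =>
    refine ⟨by rw [pow_succ]; exact ih.1.mul hA, fun w => ?_⟩
    rw [pow_succ, diagBlock_mul ih.1 hA, ih.2, pow_succ]

theorem aeval_block {A : Matrix (Σ w, Fin (b w)) (Σ w, Fin (b w)) K} (hA : IsBlockUpper A)
    (P : K[X]) : IsBlockUpper (aeval A P) ∧ ∀ w, diagBlock (aeval A P) w =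
      aeval (diagBlock A w) P := by
  induction P using Polynomial.induction_on' with
  | add P Q hP hQ =>
    refine ⟨fun i j hij => ?_, fun w => ?_⟩
    · rw [map_add, Matrix.add_apply, hP.1 i j hij, hQ.1 i j hij, add_zero]
    · rw [map_add, map_add, ← hP.2, ← hQ.2]
      rfl
  | monomial k a =>
    have h := pow_block hA k
    refine ⟨fun i j hij => ?_, fun w => ?_⟩
    · rw [aeval_monomial, ← Algebra.smul_def, Matrix.smul_apply, h.1 i j hij, smul_zero]
    · rw [aeval_monomial, aeval_monomial, ← Algebra.smul_def, ← Algebra.smul_def, ← h.2 w]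
      rfl

/-- the product of annihilators of the diagonal blocks annihilates a block triangular matrix -/
theorem aeval_prod_block {A : Matrix (Σ w, Fin (b w)) (Σ w, Fin (b w)) K} (hA : IsBlockUpper A)
    (P : Fin m → K[X]) (hP : ∀ w, aeval (diagBlock A w) (P w) = 0) :
    aeval A (∏ w, P w) = 0 := by
  classical
  let P' : ℕ → K[X] := fun w => if h : w < m then P ⟨w, h⟩ else 1
  have key : ∀ j : ℕ, ∀ i k : (Σ w, Fin (b w)), (k.1 : ℕ) < j →
      (aeval A (∏ w ∈ Finset.range j, P' w)) i k = 0 := by
    intro j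
    induction j with
    | zero => intro i k hk; omega
    | succ j ih =>
      intro i k hk
      rw [Finset.prod_range_succ, map_mul, Matrix.mul_apply]
      refine Finset.sum_eq_zero fun x _ => ?_
      by_cases hx : (x.1 : ℕ) < j
      · rw [ih i x hx, zero_mul]
      · rw [not_lt] at hx
        by_cases hj : j < m
        · have hP' : P' j = P ⟨j, hj⟩ := dif_pos hj
          rw [hP']
          by_cases hxk : k.1 < x.1
          · rw [(aeval_block hA (P ⟨j, hj⟩)).1 x k hxk, mul_zero]
          · have hxk' : (x.1 : ℕ) ≤ k.1 := by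
              have := not_lt.1 hxk
              exact_mod_cast this
            obtain ⟨x1, x2⟩ := x
            obtain ⟨k1, k2⟩ := k
            have hx1 : x1 = ⟨j, hj⟩ := Fin.ext (by simp only at *; omega)
            have hk1 : k1 = ⟨j, hj⟩ := Fin.ext (by simp only at *; omega)
            subst hx1
            subst hk1
            have h3 := congrFun (congrFun ((aeval_block hA (P ⟨j, hj⟩)).2 ⟨j, hj⟩) x2) k2
            rw [hP, diagBlock, Matrix.of_apply, Matrix.zero_apply] at h3
            rw [h3, mul_zero]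
        · have := x.1.2
          omega
  have h1 : ∏ w, P w = ∏ w ∈ Finset.range m, P' w := by
    rw [Finset.prod_range]
    refine Finset.prod_congr rfl fun w _ => ?_
    change P w = P' (w : ℕ)
    have h2 : P' (w : ℕ) = P ⟨w, w.2⟩ := dif_pos w.2
    rw [h2]
  rw [h1]
  ext i k
  exact key m i k k.1.2

theorem semisimple_iff_squarefree {n : Type*} [Fintype n] [DecidableEq n] (A : Matrix n n K) :
    Module.End.IsSemisimple (Matrix.toLin' A) ↔ ∃ P : K[X], Squarefree P ∧ aeval A P = 0 := by
  let E : Matrix n n K ≃ₐ[K] Module.End K (n → K) := Matrix.toLinAlgEquiv'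
  have hE : ∀ P : K[X], E (aeval A P) = aeval (Matrix.toLin' A) P := by
    intro P
    have h2 := Polynomial.aeval_algHom_apply E.toAlgHom A P
    exact h2.symm
  constructor
  · intro h
    refine ⟨minpoly K (Matrix.toLin' A), h.minpoly_squarefree, ?_⟩
    apply E.injective
    rw [hE, minpoly.aeval, map_zero]
  · rintro ⟨P, hP, hP0⟩
    apply Module.End.isSemisimple_of_squarefree_aeval_eq_zero hP
    rw [← hE, hP0, map_zero]

/-- **Block triangular matrices.** If the characteristic polynomials of the diagonal blocks are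
pairwise coprime, the matrix is semisimple if and only if all diagonal blocks are. -/
theorem semisimple_block {A : Matrix (Σ w, Fin (b w)) (Σ w, Fin (b w)) K} (hA : IsBlockUpper A)
    (hco : ∀ w w', w ≠ w' → IsCoprime (diagBlock A w).charpoly (diagBlock A w').charpoly) :
    Module.End.IsSemisimple (Matrix.toLin' A) ↔
      ∀ w, Module.End.IsSemisimple (Matrix.toLin' (diagBlock A w)) := by
  classical
  constructor
  · intro h w
    rw [semisimple_iff_squarefree] at h ⊢
    obtain ⟨P, hP, hP0⟩ := h
    refine ⟨P, hP, ?_⟩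
    rw [← (aeval_block hA P).2 w, hP0]
    rfl
  · intro h
    have h1 : ∀ w, Squarefree (minpoly K (diagBlock A w)) := by
      intro w
      have h2 := h w
      rw [semisimple_iff_squarefree] at h2
      obtain ⟨P, hP, hP0⟩ := h2
      exact hP.squarefree_of_dvd (minpoly.dvd K _ hP0)
    rw [semisimple_iff_squarefree]
    refine ⟨∏ w, minpoly K (diagBlock A w), ?_, ?_⟩
    · apply Finset.squarefree_prod_of_pairwise_isCoprime
      · intro w _ w' _ hww
        exact (((hco w w' hww).of_isCoprime_of_dvd_left
          (Matrix.minpoly_dvd_charpoly _)).of_isCoprime_of_dvd_right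
          (Matrix.minpoly_dvd_charpoly _)).isRelPrime
      · exact fun w _ => h1 w
    · exact aeval_prod_block hA _ fun w => minpoly.aeval K _

end Block

/-- A representation by block triangular matrices over the `p`-adic numbers, with diagonal blocks
`gr w` of size `b w`. -/
structure BlockRep (p : ℕ) [Fact p.Prime] (G : Type*) [Group G] where
  m : ℕ
  b : Fin m → ℕ
  ρ : G →* Matrix (Σ w, Fin (b w)) (Σ w, Fin (b w)) ℚ_[p]
  gr : ∀ w, G →* Matrix (Fin (b w)) (Fin (b w)) ℚ_[p]
  upper : ∀ g i j, j.1 < i.1 → ρ g i j = 0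
  diag : ∀ g w i j, gr w g i j = ρ g ⟨w, i⟩ ⟨w, j⟩

/-- The square matrix `A` is semisimple (diagonalizable over an algebraic closure, in
characteristic zero). -/
def MatSemisimple {K n : Type*} [Field K] [Fintype n] [DecidableEq n] (A : Matrix n n K) : Prop :=
  Module.End.IsSemisimple (Matrix.toLin' A)

/-- The element `g` acts semisimply. -/
def BlockRep.SemisimpleAt {p : ℕ} [Fact p.Prime] {G : Type*} [Group G] (F : BlockRep p G) (g : G) :
    Prop :=
  MatSemisimple (F.ρ g)

/-- `F` is given by a lisse mixed sheaf with `p`-adic coefficients in a basis adapted to the weight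
filtration: the diagonal blocks are continuous, semisimple on the geometric fundamental group, and
different blocks have no common eigenvalues of Frobenius (since they are pure of different
weights). -/
structure IsMixed {G P : Type*} [Group G] [TopologicalSpace G] [IsTopologicalGroup G]
    (D : FrobData G P) {p : ℕ} [Fact p.Prime] (F : BlockRep p G) : Prop where
  continuous : ∀ w, Continuous (F.gr w)
  geometric : ∀ w, IsSemisimpleRep (F.gr w) D.geom
  coprime : ∀ w w' s, w ≠ w' →
    IsCoprime (F.gr w (D.frob s)).charpoly (F.gr w' (D.frob s)).charpoly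

section Main

variable {G P : Type*} [Group G] [TopologicalSpace G] [IsTopologicalGroup G] [CompactSpace G]
  [TotallyDisconnectedSpace G] (D : FrobData G P)

/-- **Zero-one law for mixed sheaves.** -/
theorem FrobData.zero_one_mixed {R : Type*} [Finite R] (ℓ : R → ℕ) [∀ r, Fact (ℓ r).Prime]
    (F : ∀ r, BlockRep (ℓ r) G) (hF : ∀ r, IsMixed D (F r)) :
    List.TFAE [∀ r, ∃ s, (F r).SemisimpleAt (D.frob s), ∃ s, ∀ r, (F r).SemisimpleAt (D.frob s),
      ∀ r w, IsSemisimpleRep ((F r).gr w) ⊤,
      HasDensity D.q D.d D.deg {s | ∀ r, (F r).SemisimpleAt (D.frob s)} 1] := by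
  have hdiag : ∀ r w g, (F r).gr w g = diagBlock ((F r).ρ g) w := by
    intro r w g
    ext i j
    exact (F r).diag g w i j
  have hco : ∀ r s w w', w ≠ w' → IsCoprime (diagBlock ((F r).ρ (D.frob s)) w).charpoly
      (diagBlock ((F r).ρ (D.frob s)) w').charpoly := by
    intro r s w w' hww
    rw [← hdiag, ← hdiag]
    exact (hF r).coprime w w' s hww
  have hss : ∀ r s, (F r).SemisimpleAt (D.frob s) ↔
      ∀ w, Module.End.IsSemisimple (Matrix.toLin' ((F r).gr w (D.frob s))) := by
    intro r s
    unfold BlockRep.SemisimpleAt MatSemisimple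
    rw [semisimple_block (fun i j hij => (F r).upper _ i j hij) (hco r s)]
    simp_rw [hdiag]
  tfae_have 1 → 3 := by
    intro h r w
    obtain ⟨s, hs⟩ := h r
    exact semisimple_of_one ((F r).gr w) ((hF r).continuous w) D.geom D.normal D.phi D.dense
      ((hF r).geometric w) (D.frob s) (D.deg s) (D.deg_pos s) (D.frob_mem s) ((hss r s).1 hs w)
  tfae_have 3 → 4 := by
    intro h
    have h1 : ∀ x : (Σ r, Fin (F r).m), HasDensity D.q D.d D.deg
        {s | Module.End.IsSemisimple (Matrix.toLin' ((F x.1).gr x.2 (D.frob s)))}ᶜ 0 := by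
      rintro ⟨r, w⟩
      obtain ⟨κ, _, _, _, hd, hκ⟩ := D.exists_generic ((F r).gr w) ((hF r).continuous w) (h r w)
      refine D.zero_mono ?_ hd
      intro s hs
      by_contra hne
      exact hs (hκ _ hne)
    have h2 : HasDensity D.q D.d D.deg {s | ∀ r, (F r).SemisimpleAt (D.frob s)}ᶜ 0 := by
      refine D.zero_mono ?_ (D.zero_iUnion h1)
      intro s hs
      rw [Set.mem_iUnion]
      by_contra hcon
      apply hs
      intro r
      rw [hss]
      intro w
      by_contra hw
      exact hcon ⟨⟨r, w⟩, hw⟩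
    have h3 := D.density_compl h2
    rwa [compl_compl] at h3
  tfae_have 4 → 2 := by
    intro h
    by_contra hcon
    have h1 : {s | ∀ r, (F r).SemisimpleAt (D.frob s)} = ∅ := by
      ext s
      simp only [Set.mem_empty_iff_false, iff_false]
      exact fun hs => hcon ⟨s, hs⟩
    rw [h1] at h
    exact zero_ne_one (tendsto_nhds_unique D.zero_empty h)
  tfae_have 2 → 1 := by
    rintro ⟨s, hs⟩ r
    exact ⟨s, hs r⟩
  tfae_finish

end Main

end Pool.Agent.Y138.ZO
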