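import Pool.Agent.Y138.ZO.Semi

/-!
# Matrices close to one have logarithms
-/

set_option autoImplicit false
set_option linter.unusedSectionVars false

open Filter Topology

namespace Pool.Agent.Y138.ZO

section Norm

variable {p : ℕ} [hp : Fact p.Prime] {n : Type*} [Fintype n] [DecidableEq n]

/-- the maximum norm on matrices, as a ring norm -/
noncomputable abbrev matNormedRing : NormedRing (Matrix n n ℚ_[p]) :=
  { Matrix.normedAddCommGroup with
    toRing := inferInstance
    norm_mul_le := by
      intro A B
      let _ := (Matrix.normedAddCommGroup : NormedAddCommGroup (Matrix n n ℚ_[p]))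
      rw [Matrix.norm_le_iff (mul_nonneg (norm_nonneg _) (norm_nonneg _))]
      intro i j
      rw [Matrix.mul_apply]
      apply IsUltrametricDist.norm_sum_le_of_forall_le_of_nonneg
        (mul_nonneg (norm_nonneg _) (norm_nonneg _))
      intro k _
      rw [norm_mul]
      exact mul_le_mul (Matrix.norm_entry_le_entrywise_sup_norm A)
        (Matrix.norm_entry_le_entrywise_sup_norm B) (norm_nonneg _) (norm_nonneg _) }

/-- matrices close to one have a logarithm that generates them -/
theorem exists_log_nhds : ∃ O : Set (Matrix n n ℚ_[p]), IsOpen O ∧ (1 : Matrix n n ℚ_[p]) ∈ O ∧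
    ∀ u ∈ O, ∃ X, IsLog p u X ∧ u ∈ Algebra.adjoin ℚ_[p] {X} := by
  cases isEmpty_or_nonempty n with
  | inl h =>
    refine ⟨Set.univ, isOpen_univ, Set.mem_univ _, fun u _ => ⟨u, ?_, ?_⟩⟩
    · unfold IsLog
      have : ∀ k : ℕ, ((p : ℚ_[p]) ^ k)⁻¹ • (u ^ p ^ k - 1) = u := fun k => Subsingleton.elim _ _
      simp only [this]
      exact tendsto_const_nhds
    · exact Algebra.self_mem_adjoin_singleton _ _
  | inr h =>
    let _ : NormedRing (Matrix n n ℚ_[p]) := matNormedRing
    let _ : NormedAlgebra ℚ_[p] (Matrix n n ℚ_[p]) :=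
      { (inferInstance : Algebra ℚ_[p] (Matrix n n ℚ_[p])) with
        norm_smul_le := by
          intro c A
          exact (Matrix.normSMulClass.norm_smul c A).le }
    have _ : IsUltrametricDist (Matrix n n ℚ_[p]) :=
      (inferInstance : IsUltrametricDist (n → n → ℚ_[p]))
    have _ : NormOneClass (Matrix n n ℚ_[p]) := ⟨by
      apply le_antisymm
      · refine (Matrix.norm_le_iff zero_le_one).2 fun i j => ?_
        rw [Matrix.one_apply]
        split_ifs
        · rw [norm_one]
        · rw [norm_zero]; exact zero_le_one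
      · obtain ⟨i⟩ := h
        have h1 := Matrix.norm_entry_le_entrywise_sup_norm (1 : Matrix n n ℚ_[p]) (i := i) (j := i)
        rw [Matrix.one_apply_eq, norm_one] at h1
        exact h1⟩
    have _ : @CompleteSpace (Matrix n n ℚ_[p]) (PseudoMetricSpace.toUniformSpace) :=
      (inferInstance : CompleteSpace (n → n → ℚ_[p]))
    refine ⟨Metric.ball 1 (rad p), Metric.isOpen_ball, Metric.mem_ball_self rad_pos,
      fun u hu => ?_⟩
    have hu' : ‖u - 1‖ ≤ rad p := by
      rw [Metric.mem_ball, dist_eq_norm] at hu
      exact hu.le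
    obtain ⟨X, hX, _⟩ := exists_log u hu'
    exact ⟨X, hX, mem_adjoin u X hu' hX⟩

end Norm

end Pool.Agent.Y138.ZO
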