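import Mathlib

/-!
# Representative functions on compact groups and their zero sets
-/

set_option autoImplicit false
set_option linter.unusedSectionVars false

open MeasureTheory

namespace Pool.Agent.Y138.ZO

section Rep

variable {G K : Type*} [Group G] [TopologicalSpace G] [IsTopologicalGroup G]
  [Field K] [TopologicalSpace K] [IsTopologicalRing K]

/-- left translation on functions -/
def transl (g : G) : (G → K) →ₐ[K] (G → K) where
  toFun f := fun x => f (g * x)
  map_one' := rfl
  map_mul' _ _ := rfl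
  map_zero' := rfl
  map_add' _ _ := rfl
  commutes' _ := rfl

/-- a finite dimensional translation stable space of continuous functions -/
def IsRepSpace (W : Submodule K (G → K)) : Prop :=
  W.FG ∧ (∀ w ∈ W, Continuous w) ∧ ∀ g : G, ∀ w ∈ W, transl g w ∈ W

theorem IsRepSpace.sup {W₁ W₂ : Submodule K (G → K)} (h₁ : IsRepSpace W₁) (h₂ : IsRepSpace W₂) :
    IsRepSpace (W₁ ⊔ W₂) := by
  refine ⟨h₁.1.sup h₂.1, ?_, ?_⟩
  · intro w hw
    obtain ⟨a, ha, b, hb, rfl⟩ := Submodule.mem_sup.1 hw
    exact (h₁.2.1 a ha).add (h₂.2.1 b hb)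
  · intro g w hw
    obtain ⟨a, ha, b, hb, rfl⟩ := Submodule.mem_sup.1 hw
    rw [map_add]
    exact Submodule.add_mem_sup (h₁.2.2 g a ha) (h₂.2.2 g b hb)

theorem IsRepSpace.mul {W₁ W₂ : Submodule K (G → K)} (h₁ : IsRepSpace W₁) (h₂ : IsRepSpace W₂) :
    IsRepSpace (W₁ * W₂) := by
  refine ⟨h₁.1.mul h₂.1, ?_, ?_⟩
  · intro w hw
    induction hw using Submodule.mul_induction_on' with
    | mem_mul_mem a ha b hb => exact (h₁.2.1 a ha).mul (h₂.2.1 b hb)
    | add x _ y _ hx hy => exact hx.add hy
  · intro g w hw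
    induction hw using Submodule.mul_induction_on' with
    | mem_mul_mem a ha b hb =>
      rw [map_mul]
      exact Submodule.mul_mem_mul (h₁.2.2 g a ha) (h₂.2.2 g b hb)
    | add x _ y _ hx hy =>
      rw [map_add]
      exact Submodule.add_mem _ hx hy

theorem isRepSpace_one : IsRepSpace (K := K) (1 : Submodule K (G → K)) := by
  refine ⟨?_, ?_, ?_⟩
  · rw [Submodule.one_eq_span]
    exact Submodule.fg_span_singleton _
  · intro w hw
    obtain ⟨c, rfl⟩ := Submodule.mem_one.1 hw
    exact continuous_const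
  · intro g w hw
    obtain ⟨c, rfl⟩ := Submodule.mem_one.1 hw
    rw [AlgHom.commutes]
    exact hw

variable (G K) in
/-- the algebra of representative functions -/
def RepSub : Subalgebra K (G → K) where
  carrier := {f | ∃ W : Submodule K (G → K), IsRepSpace W ∧ f ∈ W}
  mul_mem' := by
    rintro a b ⟨W, hW, ha⟩ ⟨W', hW', hb⟩
    exact ⟨W * W', hW.mul hW', Submodule.mul_mem_mul ha hb⟩
  add_mem' := by
    rintro a b ⟨W, hW, ha⟩ ⟨W', hW', hb⟩
    exact ⟨W ⊔ W', hW.sup hW', Submodule.add_mem_sup ha hb⟩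
  algebraMap_mem' := by
    intro r
    exact ⟨1, isRepSpace_one, Submodule.mem_one.2 ⟨r, rfl⟩⟩

theorem coeff_mem_repSub {n : Type*} [Fintype n] [DecidableEq n] (ρ : G →* Matrix n n K)
    (hρ : Continuous ρ) (i j : n) : (fun x => ρ x i j) ∈ RepSub G K := by
  refine ⟨Submodule.span K (Set.range fun a : n × n => fun x => ρ x a.1 a.2), ⟨?_, ?_, ?_⟩,
    Submodule.subset_span ⟨(i, j), rfl⟩⟩
  · exact Submodule.fg_span (Set.finite_range _)
  · intro w hw
    induction hw using Submodule.span_induction with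
    | mem x hx =>
      obtain ⟨a, rfl⟩ := hx
      exact hρ.matrix_elem a.1 a.2
    | zero => exact continuous_const
    | add x y _ _ hx hy => exact hx.add hy
    | smul c x _ hx => exact continuous_const.mul hx
  · intro g w hw
    induction hw using Submodule.span_induction with
    | mem x hx =>
      obtain ⟨a, rfl⟩ := hx
      have h1 : transl g (fun x => ρ x a.1 a.2) =
          ∑ l : n, (ρ g a.1 l) • fun x => ρ x l a.2 := by
        ext x
        rw [Finset.sum_apply]
        change ρ (g * x) a.1 a.2 = _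
        rw [map_mul, Matrix.mul_apply]
        rfl
      rw [h1]
      exact Submodule.sum_mem _ fun l _ => Submodule.smul_mem _ _
        (Submodule.subset_span ⟨(l, a.2), rfl⟩)
    | zero => rw [map_zero]; exact Submodule.zero_mem _
    | add x y _ _ hx hy => rw [map_add]; exact Submodule.add_mem _ hx hy
    | smul c x _ hx => rw [map_smul]; exact Submodule.smul_mem _ c hx

theorem continuous_of_mem_repSub {f : G → K} (hf : f ∈ RepSub G K) : Continuous f := by
  obtain ⟨W, hW, hf⟩ := hf
  exact hW.2.1 f hf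

end Rep

section Zero

variable {G K : Type*} [Group G] [TopologicalSpace G] [IsTopologicalGroup G]
  [Field K] [TopologicalSpace K] [IsTopologicalRing K] [T1Space K]
  [MeasurableSpace G] [BorelSpace G] (μ : Measure G) [μ.IsMulLeftInvariant] [IsFiniteMeasure μ]

/-- **Zero sets of representative functions.**  There is an open subgroup such that on each of its
cosets the function vanishes identically or almost nowhere. -/
theorem exists_dichotomy (hμ : μ Set.univ ≠ 0) {f : G → K} (hf : f ∈ RepSub G K) :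
    ∃ U : Subgroup G, IsOpen (U : Set G) ∧ ∀ γ : G,
      (∀ u ∈ U, f (γ * u) = 0) ∨ μ {x | γ⁻¹ * x ∈ U ∧ f x = 0} = 0 := by
  obtain ⟨W, hW, hfW⟩ := hf
  have : Module.Finite K W := Module.Finite.iff_fg.2 hW.1
  -- translations and common zero sets
  let T : G → (W →ₗ[K] W) := fun g => (transl g).toLinearMap.restrict (hW.2.2 g)
  have hT : ∀ g w x, ((T g w : W) : G → K) x = (w : G → K) (g * x) := fun g w x => rfl
  let Z : Submodule K W → Set G := fun J => {x | ∀ w ∈ J, (w : G → K) x = 0}
  have hZc : ∀ J, IsClosed (Z J) := by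
    intro J
    have h1 : Z J = ⋂ w ∈ J, {x | (w : G → K) x = 0} := by
      ext x
      simp only [Z, Set.mem_ofPred_eq, Set.mem_iInter]
    rw [h1]
    refine isClosed_biInter fun w _ => ?_
    exact isClosed_singleton.preimage (hW.2.1 w.1 w.2)
  have hZsup : ∀ J₁ J₂, Z (J₁ ⊔ J₂) = Z J₁ ∩ Z J₂ := by
    intro J₁ J₂
    ext x
    constructor
    · intro hx
      exact ⟨fun w hw => hx w (Submodule.mem_sup_left hw), fun w hw => hx w
        (Submodule.mem_sup_right hw)⟩
    · rintro ⟨h1, h2⟩ w hw
      obtain ⟨a, ha, b, hb, rfl⟩ := Submodule.mem_sup.1 hw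
      have : ((a + b : W) : G → K) x = (a : G → K) x + (b : G → K) x := rfl
      rw [this, h1 a ha, h2 b hb, add_zero]
  have hZT : ∀ g J, Z (J.map (T g)) = (fun x => g * x) ⁻¹' (Z J) := by
    intro g J
    ext x
    constructor
    · intro hx w hw
      exact hx (T g w) (Submodule.mem_map_of_mem hw)
    · rintro hx w ⟨w', hw', rfl⟩
      exact hx w' hw'
  -- a maximal space of functions whose common zero set has positive measure
  obtain ⟨J, hJ0, hJmax⟩ : ∃ J : Submodule K W, μ (Z J) ≠ 0 ∧
      ∀ J', μ (Z (J ⊔ J')) ≠ 0 → J' ≤ J := by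
    have hne : {J : Submodule K W | μ (Z J) ≠ 0}.Nonempty := by
      refine ⟨⊥, ?_⟩
      have : Z ⊥ = Set.univ := by
        ext x
        simp only [Z, Set.mem_ofPred_eq, Set.mem_univ, iff_true]
        intro w hw
        rw [(Submodule.mem_bot K).1 hw]
        rfl
      change μ (Z ⊥) ≠ 0
      rw [this]
      exact hμ
    obtain ⟨J, hJ, hmax⟩ := WellFounded.has_min (wellFounded_gt (α := Submodule K W)) _ hne
    refine ⟨J, hJ, fun J' hJ' => ?_⟩
    have h1 := hmax _ hJ'
    have h2 : J = J ⊔ J' := by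
      by_contra hne'
      exact h1 (lt_of_le_of_ne le_sup_left hne')
    rw [h2]
    exact le_sup_right
  -- the stabiliser
  let H : Subgroup G :=
    { carrier := {g | (∀ z ∈ Z J, g * z ∈ Z J) ∧ ∀ z ∈ Z J, g⁻¹ * z ∈ Z J}
      mul_mem' := by
        rintro a b ⟨ha, ha'⟩ ⟨hb, hb'⟩
        refine ⟨fun z hz => ?_, fun z hz => ?_⟩
        · rw [mul_assoc]
          exact ha _ (hb z hz)
        · rw [mul_inv_rev, mul_assoc]
          exact hb' _ (ha' z hz)
      one_mem' := ⟨fun z hz => by rwa [one_mul], fun z hz => by rwa [inv_one, one_mul]⟩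
      inv_mem' := by
        rintro a ⟨ha, ha'⟩
        refine ⟨ha', fun z hz => ?_⟩
        rw [inv_inv]
        exact ha z hz }
  have hstab : ∀ g, μ ((fun x => g * x) ⁻¹' (Z J) ∩ Z J) ≠ 0 → ∀ z ∈ Z J, g * z ∈ Z J := by
    intro g hg z hz
    have h1 : J.map (T g) ≤ J := by
      apply hJmax
      rw [hZsup, hZT, Set.inter_comm]
      exact hg
    have h2 : z ∈ Z (J.map (T g)) := fun w hw => hz w (h1 hw)
    rw [hZT] at h2
    exact h2
  have hHmem : ∀ a b : G, a⁻¹ * b ∉ H →
      μ (((fun x => a⁻¹ * x) ⁻¹' (Z J)) ∩ ((fun x => b⁻¹ * x) ⁻¹' (Z J))) = 0 := by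
    intro a b hab
    by_contra hne
    apply hab
    have e1 : (fun x => b * x) ⁻¹' (((fun x => a⁻¹ * x) ⁻¹' (Z J)) ∩
        ((fun x => b⁻¹ * x) ⁻¹' (Z J))) = (fun x => a⁻¹ * b * x) ⁻¹' (Z J) ∩ Z J := by
      ext x
      simp only [Set.mem_preimage, Set.mem_inter_iff, inv_mul_cancel_left, mul_assoc]
    have e2 : (fun x => a * x) ⁻¹' (((fun x => a⁻¹ * x) ⁻¹' (Z J)) ∩
        ((fun x => b⁻¹ * x) ⁻¹' (Z J))) = (fun x => (a⁻¹ * b)⁻¹ * x) ⁻¹' (Z J) ∩ Z J := by
      ext x
      simp only [Set.mem_preimage, Set.mem_inter_iff, inv_mul_cancel_left, mul_assoc, mul_inv_rev,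
        inv_inv]
      exact and_comm
    refine ⟨hstab _ ?_, hstab _ ?_⟩
    · rw [← e1, measure_preimage_mul]
      exact hne
    · rw [← e2, measure_preimage_mul]
      exact hne
  have hfin : Finite (G ⧸ H) := by
    by_contra hinf
    rw [not_finite_iff_infinite] at hinf
    have h1 := tsum_meas_le_meas_iUnion_of_disjoint₀ μ
      (As := fun q : G ⧸ H => (fun x => (q.out)⁻¹ * x) ⁻¹' (Z J))
      (fun q => ((hZc J).preimage (continuous_const.mul continuous_id)).measurableSet.nullMeasurableSet)
      (by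
        intro q q' hqq'
        apply hHmem
        intro hmem
        apply hqq'
        have := QuotientGroup.eq.2 hmem
        rwa [QuotientGroup.out_eq', QuotientGroup.out_eq'] at this)
    have h2 : ∀ q : G ⧸ H, μ ((fun x => (q.out)⁻¹ * x) ⁻¹' (Z J)) = μ (Z J) := fun q =>
      measure_preimage_mul μ _ _
    simp only [h2] at h1
    rw [ENNReal.tsum_const_eq_top_of_ne_zero hJ0] at h1
    exact (measure_lt_top μ _).not_ge h1
  have hHc : IsClosed (H : Set G) := by
    have h1 : (H : Set G) = (⋂ z ∈ Z J, {g | g * z ∈ Z J}) ∩ (⋂ z ∈ Z J, {g | g⁻¹ * z ∈ Z J}) := by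
      ext g
      simp only [Set.mem_inter_iff, Set.mem_iInter, Set.mem_ofPred_eq]
      rfl
    rw [h1]
    apply IsClosed.inter
    · refine isClosed_biInter fun z _ => ?_
      exact (hZc J).preimage (continuous_id.mul continuous_const)
    · refine isClosed_biInter fun z _ => ?_
      exact (hZc J).preimage (continuous_inv.mul continuous_const)
  have : H.FiniteIndex := Subgroup.finiteIndex_of_finite_quotient
  have hHo : IsOpen (H : Set G) := Subgroup.isOpen_of_isClosed_of_finiteIndex H hHc
  obtain ⟨z, hz⟩ : (Z J).Nonempty := by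
    rw [Set.nonempty_iff_ne_empty]
    intro h0
    rw [h0, measure_empty] at hJ0
    exact hJ0 rfl
  refine ⟨H.comap (MulAut.conj z).toMonoidHom, ?_, ?_⟩
  · refine hHo.preimage ?_
    exact (continuous_const.mul continuous_id).mul continuous_const
  · intro γ
    by_cases hm : μ {x | γ⁻¹ * x ∈ H.comap (MulAut.conj z).toMonoidHom ∧ f x = 0} = 0
    · exact Or.inr hm
    · left
      have hzu : ∀ u ∈ H.comap (MulAut.conj z).toMonoidHom, z * u ∈ Z J := by
        intro u hu
        have h1 : z * u * z⁻¹ ∈ H := hu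
        have h2 := h1.1 z hz
        rwa [inv_mul_cancel_right] at h2
      let f' : W := T (γ * z⁻¹) ⟨f, hfW⟩
      have h3 : Submodule.span K {f'} ≤ J := by
        apply hJmax
        rw [hZsup]
        have hsub : (fun x => (γ * z⁻¹) * x) ⁻¹'
            {x | γ⁻¹ * x ∈ H.comap (MulAut.conj z).toMonoidHom ∧ f x = 0} ⊆
            Z J ∩ Z (Submodule.span K {f'}) := by
          rintro x ⟨hx1, hx2⟩
          refine ⟨?_, ?_⟩
          · have h4 : γ⁻¹ * (γ * z⁻¹ * x) = z⁻¹ * x := by group
            change γ⁻¹ * (γ * z⁻¹ * x) ∈ _ at hx1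
            rw [h4] at hx1
            have h5 := hzu _ hx1
            rwa [mul_inv_cancel_left] at h5
          · intro w hw
            obtain ⟨c, rfl⟩ := Submodule.mem_span_singleton.1 hw
            change c * f (γ * z⁻¹ * x) = 0
            change f (γ * z⁻¹ * x) = 0 at hx2
            rw [hx2, mul_zero]
        intro h0
        apply hm
        have h6 := measure_mono_null hsub h0
        rwa [measure_preimage_mul] at h6
      intro u hu
      have h7 := hzu u hu f' (h3 (Submodule.mem_span_singleton_self f'))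
      change f (γ * z⁻¹ * (z * u)) = 0 at h7
      have h8 : γ * z⁻¹ * (z * u) = γ * u := by group
      rwa [h8] at h7

end Zero

end Pool.Agent.Y138.ZO
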