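import Pool.Agent.Y138.ZO.Norm
import Pool.Agent.Y138.ZO.Rep

/-!
# The non-semisimple elements lie in a closed conjugation stable null set
-/

set_option autoImplicit false
set_option linter.unusedSectionVars false

open MeasureTheory Filter Topology

namespace Pool.Agent.Y138.ZO

variable {p : ℕ} [hp : Fact p.Prime] {n : Type*} [Fintype n] [DecidableEq n]
  {G : Type*} [Group G] [TopologicalSpace G] [IsTopologicalGroup G]

theorem det_hankel_mem_repSub (ρ : G →* Matrix n n ℚ_[p]) (hρ : Continuous ρ) (k : ℕ) :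
    (fun x => (hankel k (ρ x)).det) ∈ RepSub G ℚ_[p] := by
  set S := RepSub G ℚ_[p] with hS
  let R' : Matrix n n S := Matrix.of fun i j => ⟨fun x => ρ x i j, coeff_mem_repSub ρ hρ i j⟩
  have h1 : (fun x => (hankel k (ρ x)).det) = (((hankel k R').det : S) : G → ℚ_[p]) := by
    ext x
    let ev : S →+* ℚ_[p] := (Pi.evalRingHom (fun _ => ℚ_[p]) x).comp S.val.toRingHom
    have h2 : (((hankel k R').det : S) : G → ℚ_[p]) x = ev (hankel k R').det := rfl
    rw [h2, RingHom.map_det, RingHom.mapMatrix_apply, hankel_map]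
    rfl
  rw [h1]
  exact ((hankel k R').det : S).2

theorem nilDeg_conj {k : ℕ} {A g h : Matrix n n ℚ_[p]} (hgh : h * g = 1) (hg : g * h = 1)
    (hA : NilDeg k A) : NilDeg k (g * A * h) := by
  obtain ⟨q, hq, hk, m, hm⟩ := hA
  refine ⟨q, hq, hk, m + 1, ?_⟩
  have h1 : Polynomial.aeval (g * A * h) q = g * Polynomial.aeval A q * h := by
    clear hq hk hm
    induction q using Polynomial.induction_on' with
    | add f f' hf hf' => rw [map_add, map_add, hf, hf', mul_add, add_mul]
    | monomial j c =>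
      rw [Polynomial.aeval_monomial, Polynomial.aeval_monomial, conj_pow' hgh j hg,
        ← Algebra.smul_def, ← Algebra.smul_def, mul_smul_comm, smul_mul_assoc]
  rw [h1, conj_pow' hgh _ hg, pow_succ, hm, zero_mul, mul_zero, zero_mul]

theorem hankel_conj {k : ℕ} {A g h : Matrix n n ℚ_[p]} (hgh : h * g = 1) (hg : g * h = 1) :
    hankel k (g * A * h) = hankel k A := by
  ext i j
  simp only [hankel, Matrix.of_apply]
  rw [conj_pow' hgh _ hg, mul_assoc, Matrix.trace_mul_comm, mul_assoc, hgh, mul_one]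

variable [MeasurableSpace G] [BorelSpace G] (μ : Measure G) [μ.IsMulLeftInvariant]
  [IsFiniteMeasure μ]

theorem exists_dichotomy_range (hμ : μ Set.univ ≠ 0) (ρ : G →* Matrix n n ℚ_[p])
    (hρ : Continuous ρ) (N : ℕ) :
    ∃ U : Subgroup G, IsOpen (U : Set G) ∧ ∀ k < N, ∀ γ : G,
      (∀ u ∈ U, (hankel k (ρ (γ * u))).det = 0) ∨
        μ {x | γ⁻¹ * x ∈ U ∧ (hankel k (ρ x)).det = 0} = 0 := by
  induction N with
  | zero => exact ⟨⊤, isOpen_univ, fun k hk => absurd hk (Nat.not_lt_zero k)⟩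
  | succ N ih =>
    obtain ⟨U, hU, h⟩ := ih
    obtain ⟨U', hU', h'⟩ := exists_dichotomy μ hμ (det_hankel_mem_repSub ρ hρ N)
    refine ⟨U ⊓ U', hU.inter hU', fun k hk γ => ?_⟩
    rcases Nat.lt_succ_iff_lt_or_eq.1 hk with hk' | rfl
    · rcases h k hk' γ with h1 | h1
      · exact Or.inl fun u hu => h1 u hu.1
      · right
        refine measure_mono_null ?_ h1
        exact fun x hx => ⟨hx.1.1, hx.2⟩
    · rcases h' γ with h1 | h1
      · exact Or.inl fun u hu => h1 u hu.2
      · right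
        refine measure_mono_null ?_ h1
        exact fun x hx => ⟨hx.1.2, hx.2⟩

/-- **The generic number of eigenvalues.**  For a semisimple representation of a profinite group
there is a locally constant class function `κ` bounding the number of distinct eigenvalues, attained
outside a closed set of Haar measure zero; where it is attained the element acts semisimply. -/
theorem exists_generic [CompactSpace G] [TotallyDisconnectedSpace G] (hμ : μ Set.univ ≠ 0)
    (ρ : G →* Matrix n n ℚ_[p]) (hρ : Continuous ρ) (hss : IsSemisimpleRep ρ ⊤) :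
    ∃ κ : G → ℕ, (∃ U : Subgroup G, U.Normal ∧ IsOpen (U : Set G) ∧
        ∀ x, ∀ u ∈ U, κ (x * u) = κ x) ∧
      (∀ g x, κ (g * x * g⁻¹) = κ x) ∧ (∀ x, NilDeg (κ x) (ρ x)) ∧
      IsClosed {x | (hankel (κ x) (ρ x)).det = 0} ∧
      μ {x | (hankel (κ x) (ρ x)).det = 0} = 0 ∧
      ∀ x, (hankel (κ x) (ρ x)).det ≠ 0 → Module.End.IsSemisimple (Matrix.toLin' (ρ x)) := by
  obtain ⟨U₀, hU₀, hdich⟩ := exists_dichotomy_range μ hμ ρ hρ (Fintype.card n + 1)
  obtain ⟨O, hO, hO1, hlog⟩ := exists_log_nhds (p := p) (n := n)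
  obtain ⟨V, hV⟩ := ProfiniteGrp.exist_openNormalSubgroup_sub_open_nhds_of_one
    (G := G) (hU₀.inter (hO.preimage hρ))
    ⟨U₀.one_mem, by change ρ 1 ∈ O; rw [map_one]; exact hO1⟩
  set U : Subgroup G := V.toSubgroup with hUdef
  have hUn : U.Normal := V.isNormal'
  have hUo : IsOpen (U : Set G) := V.isOpen'
  have hVU : ∀ u ∈ U, u ∈ U₀ ∧ ρ u ∈ O := fun u hu => hV hu
  have hdich' : ∀ k < Fintype.card n + 1, ∀ γ : G,
      (∀ u ∈ U, (hankel k (ρ (γ * u))).det = 0) ∨
        μ {x | γ⁻¹ * x ∈ U ∧ (hankel k (ρ x)).det = 0} = 0 := by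
    intro k hk γ
    rcases hdich k hk γ with h1 | h1
    · exact Or.inl fun u hu => h1 u (hVU u hu).1
    · right
      refine measure_mono_null ?_ h1
      exact fun x hx => ⟨(hVU _ hx.1).1, hx.2⟩
  have hfin : Finite (G ⧸ U) := Subgroup.quotient_finite_of_isOpen U hUo
  have hfi : U.FiniteIndex := Subgroup.finiteIndex_of_finite_quotient
  let κ : G → ℕ := fun x => sInf {k | ∀ u ∈ U, NilDeg k (ρ (x * u))}
  have hκne : ∀ x, {k | ∀ u ∈ U, NilDeg k (ρ (x * u))}.Nonempty := fun x =>
    ⟨Fintype.card n, fun u _ => nilDeg_card _⟩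
  have hκ : ∀ x, ∀ u ∈ U, NilDeg (κ x) (ρ (x * u)) := fun x => Nat.sInf_mem (hκne x)
  have hκle : ∀ x, κ x ≤ Fintype.card n := fun x =>
    Nat.sInf_le (fun u _ => nilDeg_card _)
  have hκcoset : ∀ x, ∀ u ∈ U, κ (x * u) = κ x := by
    intro x u hu
    have h1 : ∀ k, (∀ v ∈ U, NilDeg k (ρ (x * u * v))) ↔ ∀ v ∈ U, NilDeg k (ρ (x * v)) := by
      intro k
      constructor
      · intro h v hv
        have h2 := h (u⁻¹ * v) (U.mul_mem (U.inv_mem hu) hv)
        have h3 : x * u * (u⁻¹ * v) = x * v := by group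
        rwa [h3] at h2
      · intro h v hv
        rw [mul_assoc]
        exact h _ (U.mul_mem hu hv)
    change sInf {k | ∀ v ∈ U, NilDeg k (ρ (x * u * v))} = sInf {k | ∀ v ∈ U, NilDeg k (ρ (x * v))}
    simp only [h1]
  have hκconj : ∀ g x, κ (g * x * g⁻¹) = κ x := by
    have h1 : ∀ g x k, (∀ v ∈ U, NilDeg k (ρ (x * v))) →
        ∀ v ∈ U, NilDeg k (ρ (g * x * g⁻¹ * v)) := by
      intro g x k h v hv
      have h2 := h (g⁻¹ * v * g) (by
        have := hUn.conj_mem v hv g⁻¹
        rwa [inv_inv] at this)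
      have h3 : g * x * g⁻¹ * v = g * (x * (g⁻¹ * v * g)) * g⁻¹ := by group
      rw [h3, map_mul, map_mul]
      exact nilDeg_conj (by rw [← map_mul, inv_mul_cancel, map_one])
        (by rw [← map_mul, mul_inv_cancel, map_one]) h2
    intro g x
    have h2 : ∀ k, (∀ v ∈ U, NilDeg k (ρ (g * x * g⁻¹ * v))) ↔ ∀ v ∈ U, NilDeg k (ρ (x * v)) := by
      intro k
      constructor
      · intro h
        have h3 := h1 g⁻¹ (g * x * g⁻¹) k h
        have h4 : g⁻¹ * (g * x * g⁻¹) * g⁻¹⁻¹ = x := by group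
        rwa [h4] at h3
      · exact h1 g x k
    change sInf {k | ∀ v ∈ U, NilDeg k (ρ (g * x * g⁻¹ * v))} =
      sInf {k | ∀ v ∈ U, NilDeg k (ρ (x * v))}
    simp only [h2]
  have hDc : ∀ k, Continuous fun x => (hankel k (ρ x)).det := fun k =>
    continuous_of_mem_repSub (det_hankel_mem_repSub ρ hρ k)
  refine ⟨κ, ⟨U, hUn, hUo, hκcoset⟩, hκconj, fun x => by
    have := hκ x 1 U.one_mem
    rwa [mul_one] at this, ?_, ?_, ?_⟩
  · -- closed
    rw [← isOpen_compl_iff, isOpen_iff_mem_nhds]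
    intro x hx
    have hx' : (hankel (κ x) (ρ x)).det ≠ 0 := hx
    have h1 : {y | x⁻¹ * y ∈ U} ∩ {y | (hankel (κ x) (ρ y)).det ≠ 0} ∈ 𝓝 x := by
      apply Filter.inter_mem
      · exact (hUo.preimage (continuous_const.mul continuous_id)).mem_nhds
          (by change x⁻¹ * x ∈ U; rw [inv_mul_cancel]; exact U.one_mem)
      · exact (hDc (κ x)).continuousAt.eventually_ne hx'
    refine Filter.mem_of_superset h1 ?_
    rintro y ⟨hy1, hy2⟩
    have h2 : κ y = κ x := by
      have := hκcoset x (x⁻¹ * y) hy1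
      rwa [mul_inv_cancel_left] at this
    change (hankel (κ y) (ρ y)).det ≠ 0
    rw [h2]
    exact hy2
  · -- null
    have h1 : ∀ γ : G, μ {x | γ⁻¹ * x ∈ U ∧ (hankel (κ γ) (ρ x)).det = 0} = 0 := by
      intro γ
      rcases hdich' (κ γ) (Nat.lt_succ_of_le (hκle γ)) γ with h | h
      · exfalso
        cases hk : κ γ with
        | zero =>
          have := h 1 U.one_mem
          rw [hk] at this
          simp at this
        | succ k =>
          have h2 : k ∈ {k | ∀ u ∈ U, NilDeg k (ρ (γ * u))} := by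
            intro u hu
            by_contra hcon
            have h3 := h u hu
            rw [hk] at h3
            have h4 := hκ γ u hu
            rw [hk] at h4
            refine det_hankel_ne_zero h4 ?_ h3
            intro j hj hj'
            exact hcon (hj'.mono (Nat.lt_succ_iff.1 hj))
          have h3 : κ γ ≤ k := Nat.sInf_le h2
          omega
      · exact h
    have h2 : {x | (hankel (κ x) (ρ x)).det = 0} ⊆
        ⋃ c : G ⧸ U, {x | (c.out)⁻¹ * x ∈ U ∧ (hankel (κ c.out) (ρ x)).det = 0} := by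
      intro x hx
      have hx' : (hankel (κ x) (ρ x)).det = 0 := hx
      rw [Set.mem_iUnion]
      refine ⟨(x : G ⧸ U), ?_, ?_⟩
      · exact QuotientGroup.eq.1 (QuotientGroup.out_eq' (x : G ⧸ U))
      · have h3 : ((x : G ⧸ U).out)⁻¹ * x ∈ U :=
          QuotientGroup.eq.1 (QuotientGroup.out_eq' (x : G ⧸ U))
        have h4 := hκcoset ((x : G ⧸ U).out) _ h3
        rw [mul_inv_cancel_left] at h4
        rw [← h4]
        exact hx'
    exact measure_mono_null h2 (measure_iUnion_null fun c => h1 c.out)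
  · -- semisimple outside
    intro x hx'
    refine semisimple_of_const ρ hss U hUn (fun u hu => hlog _ (hVU u hu).2) x U.index
      hfi.index_ne_zero (U.pow_index_mem x) (κ x) (hκ x) hx'

end Pool.Agent.Y138.ZO
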