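import Pool.Agent.Y138.ZO.Ad

/-!
# Semisimplicity of the generic element of a coset
-/

set_option autoImplicit false
set_option linter.unusedSectionVars false

open Module Filter Topology

namespace Pool.Agent.Y138.ZO

variable {p : ℕ} [hp : Fact p.Prime] {n : Type*} [Fintype n] [DecidableEq n]
  {Γ : Type*} [Group Γ]

/-- semisimplicity of a matrix representation, by invariant complements -/
def IsSemisimpleRep (ρ : Γ →* Matrix n n ℚ_[p]) (H : Subgroup Γ) : Prop :=
  ∀ W : Submodule ℚ_[p] (n → ℚ_[p]), (∀ g ∈ H, ∀ w ∈ W, (ρ g).mulVec w ∈ W) →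
    ∃ W' : Submodule ℚ_[p] (n → ℚ_[p]), (∀ g ∈ H, ∀ w ∈ W', (ρ g).mulVec w ∈ W') ∧ IsCompl W W'

/-- the span of the logarithms of the elements of a subgroup -/
noncomputable def logSpan (ρ : Γ →* Matrix n n ℚ_[p]) (U : Subgroup Γ) : Submodule ℚ_[p] (Matrix n n ℚ_[p]) :=
  Submodule.span ℚ_[p] {X | ∃ u ∈ U, IsLog p (ρ u) X}

section LogSpan

variable (ρ : Γ →* Matrix n n ℚ_[p]) (U : Subgroup Γ)

theorem logSpan_conj (hU : U.Normal) (g : Γ) (X : Matrix n n ℚ_[p]) (hX : X ∈ logSpan ρ U) :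
    ρ g * X * ρ g⁻¹ ∈ logSpan ρ U := by
  have h1 : ρ g⁻¹ * ρ g = 1 := by rw [← map_mul, inv_mul_cancel, map_one]
  have h2 : ρ g * ρ g⁻¹ = 1 := by rw [← map_mul, mul_inv_cancel, map_one]
  induction hX using Submodule.span_induction with
  | mem x hx =>
    obtain ⟨u, hu, hlog⟩ := hx
    refine Submodule.subset_span ⟨g * u * g⁻¹, hU.conj_mem u hu g, ?_⟩
    rw [map_mul, map_mul]
    exact hlog.conj h1 h2
  | zero => rw [mul_zero, zero_mul]; exact Submodule.zero_mem _
  | add x y _ _ hx hy => rw [mul_add, add_mul]; exact Submodule.add_mem _ hx hy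
  | smul c x _ hx => rw [mul_smul_comm, smul_mul_assoc]; exact Submodule.smul_mem _ c hx

theorem closed_sub (S : Submodule ℚ_[p] (Matrix n n ℚ_[p])) :
    IsClosed (S : Set (Matrix n n ℚ_[p])) := S.closed_of_finiteDimensional

theorem logSpan_bracket (hU : U.Normal) (hlog : ∀ u ∈ U, ∃ X, IsLog p (ρ u) X)
    (X Y : Matrix n n ℚ_[p]) (hX : X ∈ logSpan ρ U) (hY : Y ∈ logSpan ρ U) :
    X * Y - Y * X ∈ logSpan ρ U := by
  induction hX using Submodule.span_induction with
  | mem x hx =>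
    obtain ⟨u, hu, hx⟩ := hx
    obtain ⟨Z, hZ⟩ := hlog u⁻¹ (U.inv_mem hu)
    have h1 : ρ u * ρ u⁻¹ = 1 := by rw [← map_mul, mul_inv_cancel, map_one]
    refine (closed_sub (logSpan ρ U)).mem_of_tendsto (hx.lie_tendsto hZ h1 Y)
      (Eventually.of_forall fun k => ?_)
    apply Submodule.smul_mem
    apply Submodule.sub_mem _ _ hY
    rw [← map_pow, ← map_pow, inv_pow]
    exact logSpan_conj ρ U hU _ Y hY
  | zero => rw [zero_mul, mul_zero, sub_zero]; exact Submodule.zero_mem _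
  | add x y _ _ hx hy =>
    have : (x + y) * Y - Y * (x + y) = (x * Y - Y * x) + (y * Y - Y * y) := by noncomm_ring
    rw [this]
    exact Submodule.add_mem _ hx hy
  | smul c x _ hx =>
    rw [smul_mul_assoc, mul_smul_comm, ← smul_sub]
    exact Submodule.smul_mem _ c hx

theorem logSpan_stable (W : Submodule ℚ_[p] (n → ℚ_[p]))
    (hW : ∀ g, ∀ w ∈ W, (ρ g).mulVec w ∈ W) (X : Matrix n n ℚ_[p]) (hX : X ∈ logSpan ρ U) :
    ∀ w ∈ W, X.mulVec w ∈ W := by
  induction hX using Submodule.span_induction with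
  | mem x hx =>
    obtain ⟨u, hu, hx⟩ := hx
    intro w hw
    have h1 : Tendsto (fun k : ℕ => (((p : ℚ_[p]) ^ k)⁻¹ • ((ρ u) ^ p ^ k - 1)).mulVec w) atTop
        (𝓝 (x.mulVec w)) := by
      have h2 : Continuous fun Y : Matrix n n ℚ_[p] => Y.mulVec w :=
        continuous_id.matrix_mulVec continuous_const
      exact (h2.tendsto x).comp hx
    refine (W.closed_of_finiteDimensional).mem_of_tendsto h1 (Eventually.of_forall fun k => ?_)
    rw [Matrix.smul_mulVec, Matrix.sub_mulVec, Matrix.one_mulVec, ← map_pow]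
    exact W.smul_mem _ (W.sub_mem (hW _ w hw) hw)
  | zero => intro w _; rw [Matrix.zero_mulVec]; exact W.zero_mem
  | add x y _ _ hx hy => intro w hw; rw [Matrix.add_mulVec]; exact W.add_mem (hx w hw) (hy w hw)
  | smul c x _ hx => intro w hw; rw [Matrix.smul_mulVec]; exact W.smul_mem c (hx w hw)

end LogSpan

/-- **Semisimplicity of generic elements.** -/
theorem semisimple_of_const (ρ : Γ →* Matrix n n ℚ_[p]) (hss : IsSemisimpleRep ρ ⊤)
    (U : Subgroup Γ) (hU : U.Normal)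
    (hlog : ∀ u ∈ U, ∃ X, IsLog p (ρ u) X ∧ ρ u ∈ Algebra.adjoin ℚ_[p] {X})
    (γ : Γ) (m : ℕ) (hm : m ≠ 0) (hγ : γ ^ m ∈ U) (k : ℕ)
    (hall : ∀ u ∈ U, NilDeg k (ρ (γ * u))) (hdet : (hankel k (ρ γ)).det ≠ 0) :
    Module.End.IsSemisimple (Matrix.toLin' (ρ γ)) := by
  set E : Matrix n n ℚ_[p] ≃ₐ[ℚ_[p]] End ℚ_[p] (n → ℚ_[p]) := Matrix.toLinAlgEquiv' with hE
  have hEv : ∀ (a : Matrix n n ℚ_[p]) (v : n → ℚ_[p]), E a v = a.mulVec v := by
    intro a v
    rfl
  set M := ρ γ with hM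
  have hMM' : M * ρ γ⁻¹ = 1 := by rw [hM, ← map_mul, mul_inv_cancel, map_one]
  have hM'M : ρ γ⁻¹ * M = 1 := by rw [hM, ← map_mul, inv_mul_cancel, map_one]
  -- Jordan decomposition in the matrix algebra
  obtain ⟨n0, hn0, s0, hs0, hn0n, hs0s, hJ⟩ := (E M).exists_isNilpotent_isSemisimple
  have hadj : ∀ a ∈ Algebra.adjoin ℚ_[p] {E M}, E.symm a ∈ Algebra.adjoin ℚ_[p] {M} := by
    intro a ha
    rw [Algebra.adjoin_singleton_eq_range_aeval] at ha ⊢
    obtain ⟨P, rfl⟩ := ha
    refine ⟨P, ?_⟩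
    apply E.injective
    rw [AlgEquiv.apply_symm_apply]
    exact (Polynomial.aeval_algHom_apply E.toAlgHom M P).symm
  set n1 := E.symm n0 with hn1
  set s := E.symm s0 with hs
  have hn1S : n1 ∈ Algebra.adjoin ℚ_[p] {M} := hadj n0 hn0
  have hsS : s ∈ Algebra.adjoin ℚ_[p] {M} := hadj s0 hs0
  have hn1n : IsNilpotent n1 := hn0n.map E.symm
  have hJ' : M = n1 + s := by
    apply E.injective
    rw [map_add, hn1, hs, AlgEquiv.apply_symm_apply, AlgEquiv.apply_symm_apply]
    exact hJ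
  have hcomS : ∀ a ∈ Algebra.adjoin ℚ_[p] {M}, ∀ b ∈ Algebra.adjoin ℚ_[p] {M}, Commute a b := by
    intro a ha b hb
    exact Algebra.commute_of_mem_adjoin_singleton_of_commute hb
      (Algebra.commute_of_mem_adjoin_self ha).symm
  have hMS : M ∈ Algebra.adjoin ℚ_[p] {M} := Algebra.self_mem_adjoin_singleton _ _
  have hM'S : ρ γ⁻¹ ∈ Algebra.adjoin ℚ_[p] {M} := inv_mem_subalgebra _ hMS hM'M
  -- the inverse of the semisimple part
  have hsu : IsUnit s := by
    have h1 : s = M + (-n1) := by rw [hJ']; abel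
    rw [h1]
    have hMu : IsUnit M := ⟨⟨M, ρ γ⁻¹, hMM', hM'M⟩, rfl⟩
    exact IsNilpotent.isUnit_add_left_of_commute hn1n.neg hMu ((hcomS n1 hn1S M hMS).neg_left)
  obtain ⟨su, hsu'⟩ := hsu
  set t : Matrix n n ℚ_[p] := ((su⁻¹ : (Matrix n n ℚ_[p])ˣ) : Matrix n n ℚ_[p]) with ht
  have hts : t * s = 1 := by rw [ht, ← hsu', Units.inv_mul]
  have hst : s * t = 1 := by rw [ht, ← hsu', Units.mul_inv]
  have htS : t ∈ Algebra.adjoin ℚ_[p] {M} := inv_mem_subalgebra _ hsS hts
  set N := t * n1 with hN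
  have hNS : N ∈ Algebra.adjoin ℚ_[p] {M} := Subalgebra.mul_mem _ htS hn1S
  have hNn : IsNilpotent N := (hcomS t htS n1 hn1S).isNilpotent_mul_left hn1n
  have hMN : M = s * (1 + N) := by
    rw [hN, mul_add, mul_one, ← mul_assoc, hst, one_mul, hJ']
    abel
  set w := ρ γ⁻¹ * s with hw
  have hwS : w ∈ Algebra.adjoin ℚ_[p] {M} := Subalgebra.mul_mem _ hM'S hsS
  have h1N : 1 + N = t * M := by rw [hMN, ← mul_assoc, hts, one_mul]
  have h1NS : 1 + N ∈ Algebra.adjoin ℚ_[p] {M} := Subalgebra.add_mem _ (Subalgebra.one_mem _) hNS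
  have hw1 : (1 + N) * w = 1 := by
    rw [h1N, hw]
    calc t * M * (ρ γ⁻¹ * s) = t * (M * ρ γ⁻¹) * s := by noncomm_ring
      _ = 1 := by rw [hMM', mul_one, hts]
  have hw2 : w * (1 + N) = 1 := by rw [(hcomS w hwS (1 + N) h1NS).eq, hw1]
  have hM'w : ρ γ⁻¹ = w * t := by rw [hw, mul_assoc, hst, mul_one]
  -- the logarithm of the unipotent part
  obtain ⟨ν, m1, hν, hνN, hm1⟩ := exists_log_nilpotent (p := p) N hNn
  have hm1S : m1 ∈ Algebra.adjoin ℚ_[p] {M} := hm1 _ hNS
  have hNmS : 1 + N * m1 ∈ Algebra.adjoin ℚ_[p] {M} :=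
    Subalgebra.add_mem _ (Subalgebra.one_mem _) (Subalgebra.mul_mem _ hNS hm1S)
  have hνS : ν ∈ Algebra.adjoin ℚ_[p] {M} := by
    rw [hνN]
    exact Subalgebra.mul_mem _ hNS hNmS
  have hνn : IsNilpotent ν := by
    rw [hνN]
    exact (hcomS N hNS _ hNmS).isNilpotent_mul_right hNn
  obtain ⟨f, hf⟩ : ∃ f : Polynomial ℚ_[p], Polynomial.aeval M f = ν := by
    rw [Algebra.adjoin_singleton_eq_range_aeval] at hνS
    exact hνS
  set G := logSpan ρ U with hG
  have hlog' : ∀ u ∈ U, ∃ X, IsLog p (ρ u) X := fun u hu => by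
    obtain ⟨X, hX, _⟩ := hlog u hu
    exact ⟨X, hX⟩
  have horth : ∀ X ∈ G, (ν * X).trace = 0 := by
    intro X hX
    induction hX using Submodule.span_induction with
    | mem x hx =>
      obtain ⟨u, hu, hx⟩ := hx
      rw [← hf]
      refine trace_nilp_log hx hM'M ?_ ?_ hdet (by rw [hf]; exact hνn)
      · intro j
        rw [hM, ← map_pow, ← map_mul]
        exact hall _ (U.pow_mem hu _)
      · have := hall 1 U.one_mem
        rwa [mul_one] at this
    | zero => rw [mul_zero, Matrix.trace_zero]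
    | add x y _ _ hx hy => rw [mul_add, Matrix.trace_add, hx, hy, add_zero]
    | smul c x _ hx => rw [mul_smul_comm, Matrix.trace_smul, hx, smul_zero]
  have hsP : ∃ P : Polynomial ℚ_[p], Squarefree P ∧ Polynomial.aeval s P = 0 := by
    refine ⟨minpoly ℚ_[p] s0, hs0s.minpoly_squarefree, ?_⟩
    apply E.injective
    rw [map_zero]
    have h1 : E.toAlgHom s = s0 := by
      rw [hs]
      exact AlgEquiv.apply_symm_apply E s0
    have h2 := Polynomial.aeval_algHom_apply E.toAlgHom s (minpoly ℚ_[p] s0)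
    rw [h1, minpoly.aeval] at h2
    exact h2.symm
  have hconj1 : ∀ X ∈ G, (1 + N) * X * w ∈ G :=
    conj_unip_mem G (M' := ρ γ⁻¹) (fun X hX => logSpan_conj ρ U hU γ X hX) hsP hst hts hMN hM'w
      (hcomS s hsS N hNS) hNn hw1 hw2
  have hconj : ∀ (j : ℕ), ∀ X ∈ G, (1 + N) ^ j * X * w ^ j ∈ G := by
    intro j
    induction j with
    | zero => intro X hX; rw [pow_zero, pow_zero, one_mul, mul_one]; exact hX
    | succ j ih =>
      intro X hX
      have h1 := ih _ (hconj1 X hX)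
      rw [pow_succ, pow_succ' w]
      have h2 : (1 + N) ^ j * (1 + N) * X * (w * w ^ j) =
          (1 + N) ^ j * ((1 + N) * X * w) * w ^ j := by noncomm_ring
      rw [h2]
      exact h1
  have hwn : IsNilpotent (w - 1) := by
    have h1 : w - 1 = -(N * w) := by
      calc w - 1 = w - (1 + N) * w := by rw [hw1]
        _ = _ := by noncomm_ring
    rw [h1]
    exact ((hcomS N hNS w hwS).isNilpotent_mul_right hNn).neg
  have hnorm : ∀ X ∈ G, ν * X - X * ν ∈ G := by
    intro X hX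
    obtain ⟨Z, _, hZ, _, _⟩ := exists_log_nilpotent (p := p) (w - 1) hwn
    rw [add_sub_cancel] at hZ
    refine (closed_sub G).mem_of_tendsto (hν.lie_tendsto hZ hw1 X)
      (Eventually.of_forall fun j => ?_)
    exact G.smul_mem _ (G.sub_mem (hconj _ X hX) hX)
  -- transfer to endomorphisms
  let ρ' : Γ →* End ℚ_[p] (n → ℚ_[p]) := (E : Matrix n n ℚ_[p] →* End ℚ_[p] (n → ℚ_[p])).comp ρ
  have hρ' : ∀ g, ρ' g = E (ρ g) := fun g => rfl
  have hss' : ∀ W : Submodule ℚ_[p] (n → ℚ_[p]), (∀ g, ∀ w ∈ W, ρ' g w ∈ W) →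
      ∃ W' : Submodule ℚ_[p] (n → ℚ_[p]), (∀ g, ∀ w ∈ W', ρ' g w ∈ W') ∧ IsCompl W W' := by
    intro W hW
    obtain ⟨W', hW', hc⟩ := hss W (fun g _ w hw => hW g w hw)
    exact ⟨W', fun g w hw => hW' g trivial w hw, hc⟩
  let G' : Submodule ℚ_[p] (End ℚ_[p] (n → ℚ_[p])) := G.map E.toLinearMap
  have htr : ∀ a : Matrix n n ℚ_[p], LinearMap.trace ℚ_[p] (n → ℚ_[p]) (E a) = a.trace := by
    intro a
    exact Matrix.trace_toLin'_eq a
  have hcent : ∀ X ∈ G, ν * X - X * ν = 0 := by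
    intro X hX
    apply E.injective
    rw [map_zero, map_sub, map_mul, map_mul]
    refine central_of_orth ρ' hss' G' ?_ ?_ ?_ (E ν) ?_ ?_ (E X) ⟨X, hX, rfl⟩
    · rintro g a ⟨a, ha, rfl⟩
      refine ⟨ρ g * a * ρ g⁻¹, logSpan_conj ρ U hU g a ha, ?_⟩
      change E (ρ g * a * ρ g⁻¹) = ρ' g * E a * ρ' g⁻¹
      rw [map_mul, map_mul]
      rfl
    · rintro a ⟨a, ha, rfl⟩ b ⟨b, hb, rfl⟩
      refine ⟨a * b - b * a, logSpan_bracket ρ U hU hlog' a b ha hb, ?_⟩
      change E (a * b - b * a) = E a * E b - E b * E a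
      rw [map_sub, map_mul, map_mul]
    · rintro W hW a ⟨a, ha, rfl⟩ w hw
      exact logSpan_stable ρ U W hW a ha w hw
    · rintro Y ⟨Y, hY, rfl⟩
      change LinearMap.trace ℚ_[p] (n → ℚ_[p]) (E ν * E Y) = 0
      rw [← map_mul, htr]
      exact horth Y hY
    · rintro Y ⟨Y, hY, rfl⟩
      refine ⟨ν * Y - Y * ν, hnorm Y hY, ?_⟩
      change E (ν * Y - Y * ν) = E ν * E Y - E Y * E ν
      rw [map_sub, map_mul, map_mul]
  -- the subalgebra generated by the image of `U`
  set S := Algebra.adjoin ℚ_[p] (ρ '' (U : Set Γ)) with hS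
  have hUν : ∀ a ∈ S, Commute a ν := by
    intro a ha
    induction ha using Algebra.adjoin_induction with
    | mem x hx =>
      obtain ⟨u, hu, rfl⟩ := hx
      obtain ⟨X, hX, hXa⟩ := hlog u hu
      have h1 : Commute ν X := sub_eq_zero.1 (hcent X (Submodule.subset_span ⟨u, hu, hX⟩))
      exact (Algebra.commute_of_mem_adjoin_singleton_of_commute hXa h1).symm
    | algebraMap r => exact Algebra.commutes r ν
    | add x y _ _ hx hy => exact hx.add_left hy
    | mul x y _ _ hx hy => exact hx.mul_left hy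
  have hMm : M ^ m ∈ S := by
    rw [hM, ← map_pow]
    exact Algebra.subset_adjoin ⟨_, hγ, rfl⟩
  have hspow : s ^ m ∈ S := by
    obtain ⟨n2, hn2, s2, hs2, hn2n, hs2s, hfd⟩ := (E (M ^ m)).exists_isNilpotent_isSemisimple
    have hc2 : Commute n2 s2 := Algebra.commute_of_mem_adjoin_singleton_of_commute hn2
      (Algebra.commute_of_mem_adjoin_self hs2).symm |>.symm
    have hsN : Commute s (1 + N) := hcomS s hsS _ h1NS
    have hdec : M ^ m = s ^ m * ((1 + N) ^ m - 1) + s ^ m := by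
      rw [hMN, hsN.mul_pow, mul_sub, mul_one, sub_add_cancel]
    have hnil : IsNilpotent ((1 + N) ^ m - 1) := by
      have h1 : (1 + N) ^ m - 1 = ((1 + N) - 1) * ∑ i ∈ Finset.range m, (1 + N) ^ i := by
        rw [mul_geom_sum]
      rw [h1, add_sub_cancel_left]
      refine (hcomS N hNS _ ?_).isNilpotent_mul_right hNn
      exact Subalgebra.sum_mem _ fun i _ => Subalgebra.pow_mem _ h1NS i
    have hcs : Commute (s ^ m) ((1 + N) ^ m - 1) :=
      ((hsN.pow_pow m m)).sub_right (Commute.one_right _)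
    have huniq := Module.End.isNilpotent_isSemisimple_unique hn2n hs2s
      (n₂ := E (s ^ m * ((1 + N) ^ m - 1))) (s₂ := E (s ^ m))
      ((hcs.isNilpotent_mul_left hnil).map E)
      (by
        rw [map_pow]
        have : E s = s0 := by rw [hs]; exact AlgEquiv.apply_symm_apply E s0
        rw [this]
        exact hs0s.pow m) hc2
      (((Commute.refl (s ^ m)).mul_left hcs.symm).map E)
      (by rw [← hfd, ← map_add, ← hdec])
    have h2 : E (s ^ m) ∈ Algebra.adjoin ℚ_[p] {E (M ^ m)} := huniq.2 ▸ hs2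
    rw [Algebra.adjoin_singleton_eq_range_aeval] at h2
    obtain ⟨P, hP⟩ := h2
    have h3 : s ^ m = Polynomial.aeval (M ^ m) P := by
      apply E.injective
      rw [← hP]
      exact Polynomial.aeval_algHom_apply E.toAlgHom (M ^ m) P
    rw [h3]
    have h4 : Polynomial.aeval (M ^ m) P ∈ Algebra.adjoin ℚ_[p] {M ^ m} :=
      Polynomial.aeval_mem_adjoin_singleton ℚ_[p] (M ^ m)
    exact Algebra.adjoin_le (Set.singleton_subset_iff.2 hMm) h4
  have htpow : t ^ m ∈ S := by
    apply inv_mem_subalgebra S hspow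
    rw [← (hcomS t htS s hsS).mul_pow, hts, one_pow]
  have hNpow : (1 + N) ^ m ∈ S := by
    have : (1 + N) ^ m = t ^ m * M ^ m := by
      rw [h1N, (hcomS t htS M hMS).mul_pow]
    rw [this]
    exact S.mul_mem htpow hMm
  have hνSU : ν ∈ S := by
    have h1 : (m : ℕ) • ν ∈ (Subalgebra.toSubmodule S) := by
      refine (hν.pow m).mem _ (closed_sub _) fun j => ?_
      exact S.sub_mem (S.pow_mem hNpow _) S.one_mem
    have h2 : ((m : ℚ_[p])⁻¹) • ((m : ℕ) • ν) ∈ (Subalgebra.toSubmodule S) :=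
      Submodule.smul_mem _ _ h1
    have h3 : ((m : ℚ_[p])⁻¹) • ((m : ℕ) • ν) = ν := by
      rw [← Nat.cast_smul_eq_nsmul ℚ_[p], smul_smul,
        inv_mul_cancel₀ (by exact_mod_cast hm), one_smul]
    rw [h3] at h2
    exact h2
  have hν0 : ν = 0 := by
    apply E.injective
    rw [map_zero]
    refine central_nil_zero ρ' hss' (S.map E.toAlgHom) ?_ ?_ (E ν) ⟨ν, hνSU, rfl⟩ ?_ (hνn.map E)
    · rintro g a ⟨a, ha, rfl⟩
      refine ⟨ρ g * a * ρ g⁻¹, ?_, ?_⟩
      · change a ∈ S at ha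
        change ρ g * a * ρ g⁻¹ ∈ S
        induction ha using Algebra.adjoin_induction with
        | mem x hx =>
          obtain ⟨u, hu, rfl⟩ := hx
          rw [← map_mul, ← map_mul]
          exact Algebra.subset_adjoin ⟨_, hU.conj_mem u hu g, rfl⟩
        | algebraMap r =>
          rw [← Algebra.commutes r, mul_assoc, ← map_mul, mul_inv_cancel, map_one, mul_one]
          exact S.algebraMap_mem r
        | add x y _ _ hx hy => rw [mul_add, add_mul]; exact S.add_mem hx hy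
        | mul x y _ _ hx hy =>
          have h1 : ρ g⁻¹ * ρ g = 1 := by rw [← map_mul, inv_mul_cancel, map_one]
          have h2 : ρ g * (x * y) * ρ g⁻¹ = (ρ g * x * ρ g⁻¹) * (ρ g * y * ρ g⁻¹) := by
            calc ρ g * (x * y) * ρ g⁻¹ = ρ g * x * 1 * (y * ρ g⁻¹) := by noncomm_ring
              _ = ρ g * x * (ρ g⁻¹ * ρ g) * (y * ρ g⁻¹) := by rw [h1]
              _ = _ := by noncomm_ring
          rw [h2]
          exact S.mul_mem hx hy
      · change E (ρ g * a * ρ g⁻¹) = ρ' g * E a * ρ' g⁻¹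
        rw [map_mul, map_mul]
        rfl
    · rintro W hW a ⟨a, ha, rfl⟩
      change a ∈ S at ha
      change ∀ w ∈ W, E a w ∈ W
      induction ha using Algebra.adjoin_induction with
      | mem x hx =>
        obtain ⟨u, hu, rfl⟩ := hx
        exact fun w hw => hW u w hw
      | algebraMap r =>
        intro w hw
        rw [AlgEquiv.commutes, Module.algebraMap_end_apply]
        exact W.smul_mem r hw
      | add x y _ _ hx hy =>
        intro w hw
        rw [map_add]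
        exact W.add_mem (hx w hw) (hy w hw)
      | mul x y _ _ hx hy =>
        intro w hw
        rw [map_mul]
        exact hx _ (hy w hw)
    · rintro a ⟨a, ha, rfl⟩
      exact (hUν a ha).map E
  have hN0 : N = 0 := by
    have h1 : IsUnit (1 + N * m1) := by
      apply IsNilpotent.isUnit_one_add
      exact (hcomS N hNS m1 hm1S).isNilpotent_mul_right hNn
    have h2 : N * (1 + N * m1) = 0 := by rw [← hνN, hν0]
    exact (h1.mul_left_eq_zero).1 h2
  have hMs : M = s := by rw [hMN, hN0, add_zero, mul_one]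
  have : Matrix.toLin' M = s0 := by
    rw [hMs]
    exact AlgEquiv.apply_symm_apply E s0
  rw [this]
  exact hs0s

end Pool.Agent.Y138.ZO
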